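import Mathlib

/-!
Real analysis lemmas: Hölder's inequality with four functions, a convolution weight.
-/

set_option autoImplicit false

namespace Pool.Agent.U517.OS

open MeasureTheory
open scoped ENNReal

lemma holder4 {α : Type*} [MeasurableSpace α] (μ : Measure α) (f1 f2 f3 f4 : α → ℝ≥0∞)
    (h1 : AEMeasurable f1 μ) (h2 : AEMeasurable f2 μ) (h3 : AEMeasurable f3 μ)
    (h4 : AEMeasurable f4 μ) :
    ∫⁻ x, f1 x ^ (1/4:ℝ) * f2 x ^ (1/4:ℝ) * f3 x ^ (1/4:ℝ) * f4 x ^ (1/4:ℝ) ∂μ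
      ≤ (∫⁻ x, f1 x ∂μ) ^ (1/4:ℝ) * (∫⁻ x, f2 x ∂μ) ^ (1/4:ℝ) * (∫⁻ x, f3 x ∂μ) ^ (1/4:ℝ)
        * (∫⁻ x, f4 x ∂μ) ^ (1/4:ℝ) := by
  have h := ENNReal.lintegral_prod_norm_pow_le (μ := μ) (Finset.univ : Finset (Fin 4))
    (f := ![f1, f2, f3, f4]) (p := fun _ => (1/4:ℝ)) (by
      intro i _
      fin_cases i <;> simpa) (by simp) (fun i _ => by norm_num)
  simpa [Fin.prod_univ_four] using h

lemma holder4_sum {ι : Type*} (s : Finset ι) (a b c e : ι → ℝ≥0∞) :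
    ∑ i ∈ s, a i ^ (1/4:ℝ) * b i ^ (1/4:ℝ) * c i ^ (1/4:ℝ) * e i ^ (1/4:ℝ)
      ≤ (∑ i ∈ s, a i) ^ (1/4:ℝ) * (∑ i ∈ s, b i) ^ (1/4:ℝ) * (∑ i ∈ s, c i) ^ (1/4:ℝ)
        * (∑ i ∈ s, e i) ^ (1/4:ℝ) := by
  classical
  let _ : MeasurableSpace {x // x ∈ s} := ⊤
  have h := holder4 (Measure.count : Measure {x // x ∈ s}) (fun x => a x.1) (fun x => b x.1)
    (fun x => c x.1) (fun x => e x.1) (measurable_of_finite _).aemeasurable
    (measurable_of_finite _).aemeasurable (measurable_of_finite _).aemeasurable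
    (measurable_of_finite _).aemeasurable
  simp only [lintegral_fintype, Measure.count_singleton, mul_one] at h
  have e1 : ∀ g : ι → ℝ≥0∞, ∑ x : {x // x ∈ s}, g x.1 = ∑ i ∈ s, g i := by
    intro g
    exact Finset.sum_coe_sort s g
  rw [e1 a, e1 b, e1 c, e1 e,
    e1 (fun i => a i ^ (1/4:ℝ) * b i ^ (1/4:ℝ) * c i ^ (1/4:ℝ) * e i ^ (1/4:ℝ))] at h
  exact h

/-- the weight `|u|^(-γ)` on `|u| > τ` -/
noncomputable def wt (γ τ : ℝ) (u : ℝ) : ℝ≥0∞ :=
  {u : ℝ | τ < |u|}.indicator (fun u => ENNReal.ofReal (|u| ^ (-γ))) u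

lemma measurable_wt (γ τ : ℝ) : Measurable (wt γ τ) := by
  unfold wt
  apply Measurable.indicator
  · fun_prop
  · exact measurableSet_lt measurable_const (by fun_prop)

lemma lint_wt (γ τ : ℝ) (hγ : 4/3 ≤ γ) (hτ : 0 < τ) :
    ∫⁻ u, wt γ τ u ≤ ENNReal.ofReal (6 * τ ^ (1 - γ)) := by
  have hint : IntegrableOn (fun u : ℝ => u ^ (-γ)) (Set.Ioi τ) :=
    integrableOn_Ioi_rpow_of_lt (by linarith) hτ
  have hval : ∫ u in Set.Ioi τ, u ^ (-γ) = τ ^ (1 - γ) / (γ - 1) := by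
    rw [integral_Ioi_rpow_of_lt (by linarith) hτ]
    have : -γ + 1 = 1 - γ := by ring
    rw [this, ← neg_sub γ 1, neg_div_neg_eq]
  have h1 : ∫⁻ u in Set.Ioi τ, ENNReal.ofReal (u ^ (-γ)) = ENNReal.ofReal (τ ^ (1 - γ) / (γ - 1)) := by
    rw [← hval, ofReal_integral_eq_lintegral_ofReal hint]
    filter_upwards [ae_restrict_mem measurableSet_Ioi] with u hu
    exact Real.rpow_nonneg (hτ.le.trans (le_of_lt hu)) _
  have h2 : ∀ u : ℝ, wt γ τ u ≤ (Set.Ioi τ).indicator (fun u => ENNReal.ofReal (u ^ (-γ))) u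
      + (Set.Ioi τ).indicator (fun u => ENNReal.ofReal (u ^ (-γ))) (-u) := by
    intro u
    unfold wt
    by_cases hu : τ < |u|
    · rw [Set.indicator_of_mem (show u ∈ {u : ℝ | τ < |u|} from hu)]
      rcases le_total 0 u with h0 | h0
      · rw [abs_of_nonneg h0] at hu ⊢
        rw [Set.indicator_of_mem (show u ∈ Set.Ioi τ from hu)]
        exact le_self_add
      · rw [abs_of_nonpos h0] at hu ⊢
        rw [Set.indicator_of_mem (show -u ∈ Set.Ioi τ from hu)]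
        exact le_add_self
    · rw [Set.indicator_of_notMem (show u ∉ {u : ℝ | τ < |u|} from hu)]
      exact zero_le
  refine (lintegral_mono h2).trans ?_
  rw [lintegral_add_left]
  swap
  · apply Measurable.indicator
    · fun_prop
    · exact measurableSet_Ioi
  rw [lintegral_neg_eq_self (fun u : ℝ => (Set.Ioi τ).indicator (fun u => ENNReal.ofReal (u ^ (-γ))) u),
    lintegral_indicator measurableSet_Ioi, h1, ← ENNReal.ofReal_add (by
      apply div_nonneg (Real.rpow_nonneg hτ.le _); linarith) (by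
      apply div_nonneg (Real.rpow_nonneg hτ.le _); linarith)]
  apply ENNReal.ofReal_le_ofReal
  have h3 : τ ^ (1 - γ) / (γ - 1) ≤ 3 * τ ^ (1 - γ) := by
    rw [div_le_iff₀ (by linarith)]
    have := Real.rpow_nonneg hτ.le (1 - γ)
    nlinarith
  linarith

lemma conv_left (w g : ℝ → ℝ≥0∞) (hw : Measurable w) (hg : Measurable g) :
    ∫⁻ p : ℝ × ℝ, w (p.1 - p.2) * g p.1 = (∫⁻ u, w u) * ∫⁻ t, g t := by
  have hm : Measurable (fun p : ℝ × ℝ => w (p.1 - p.2) * g p.1) := by fun_prop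
  rw [Measure.volume_eq_prod, lintegral_prod _ hm.aemeasurable]
  have h1 : ∀ t : ℝ, ∫⁻ s : ℝ, w (t - s) * g t = (∫⁻ u, w u) * g t := by
    intro t
    rw [lintegral_mul_const _ (by fun_prop), lintegral_sub_left_eq_self w t]
  simp_rw [h1]
  rw [lintegral_const_mul _ hg]

lemma conv_right (w g : ℝ → ℝ≥0∞) (hw : Measurable w) (hg : Measurable g) :
    ∫⁻ p : ℝ × ℝ, w (p.1 - p.2) * g p.2 = (∫⁻ u, w u) * ∫⁻ t, g t := by
  have hm : Measurable (fun p : ℝ × ℝ => w (p.1 - p.2) * g p.2) := by fun_prop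
  rw [Measure.volume_eq_prod, lintegral_prod_symm _ hm.aemeasurable]
  have h1 : ∀ s : ℝ, ∫⁻ t : ℝ, w (t - s) * g s = (∫⁻ u, w u) * g s := by
    intro s
    rw [lintegral_mul_const _ (by fun_prop), lintegral_sub_right_eq_self w s]
  simp only
  simp_rw [h1]
  rw [lintegral_const_mul _ hg]

end Pool.Agent.U517.OS
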