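import Pool.Agent.U517.OS.Core1

/-!
The estimate of one pair of levels.
-/

set_option autoImplicit false

namespace Pool.Agent.U517.OS

open MeasureTheory
open scoped ENNReal

/-- `2^x` in `ℝ≥0∞` -/
noncomputable def tw (x : ℝ) : ℝ≥0∞ := ENNReal.ofReal ((2:ℝ) ^ x)

lemma tw_add (x y : ℝ) : tw (x + y) = tw x * tw y := by
  unfold tw
  rw [Real.rpow_add (by norm_num), ENNReal.ofReal_mul (by positivity)]

lemma tw_pow (x s : ℝ) : (tw x) ^ s = tw (x * s) := by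
  unfold tw
  rw [ENNReal.ofReal_rpow_of_pos (by positivity), ← Real.rpow_mul (by norm_num)]

lemma tw_ne_top (x : ℝ) : tw x ≠ ∞ := ENNReal.ofReal_ne_top

lemma tw_ne_zero (x : ℝ) : tw x ≠ 0 := by
  unfold tw
  rw [Ne, ENNReal.ofReal_eq_zero, not_le]
  positivity

lemma tw_zero : tw 0 = 1 := by simp [tw]

lemma tw_mono {x y : ℝ} (h : x ≤ y) : tw x ≤ tw y := by
  unfold tw
  apply ENNReal.ofReal_le_ofReal
  exact Real.rpow_le_rpow_of_exponent_le (by norm_num) h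

/-- The hypotheses on a pair of levels with exponents `k`, `l` (real numbers). -/
structure PairHyp (D : ℝ) (k l : ℝ) (Mk Ml ak al : ℝ → ℝ≥0∞) (q r : ℝ × ℝ → ℝ≥0∞) : Prop where
  mMk : Measurable Mk
  mMl : Measurable Ml
  mak : Measurable ak
  mal : Measurable al
  mq : Measurable q
  short : ∀ p, r p ≤ tw ((k + l) / 2) * (Mk p.1 + Ml p.2)
  long : ∀ p : ℝ × ℝ, p.1 ≠ p.2 → r p ≤ ENNReal.ofReal (|p.1 - p.2| ^ (-D / 2)) * tw ((k + l) / 2) *
    (ak p.1 * al p.2) ^ (1/2:ℝ) * q p ^ (1/2:ℝ)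
  qle : ∀ p, q p ≤ tw (min k l) * (Mk p.1 + Ml p.2)

lemma rpow_quarter (x : ℝ≥0∞) : x ^ (1/4:ℝ) * x ^ (1/4:ℝ) = x ^ (1/2:ℝ) := by
  rw [← ENNReal.rpow_add_of_nonneg _ _ (by norm_num) (by norm_num)]
  norm_num

lemma sq_quarter (x : ℝ≥0∞) : (x ^ 2) ^ (1/4:ℝ) = x ^ (1/2:ℝ) := by
  rw [← ENNReal.rpow_natCast, ← ENNReal.rpow_mul]
  norm_num

lemma pair_bound (D : ℝ) (hD : 2 ≤ D) (k l : ℝ) (Mk Ml ak al : ℝ → ℝ≥0∞) (q r : ℝ × ℝ → ℝ≥0∞)
    (h : PairHyp D k l Mk Ml ak al q r) (τ : ℝ) (hτ : 0 < τ) :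
    ∫⁻ p, r p ≤ tw ((k + l) / 2) * ENNReal.ofReal (2 * τ) * ((∫⁻ t, Mk t) + ∫⁻ t, Ml t) +
      tw ((k + l) / 2) * tw (min k l / 4) * (ENNReal.ofReal (6 * τ ^ (1 - 2 * D / 3))) ^ (3/4:ℝ) *
      ((∫⁻ p, q p) ^ (1/4:ℝ) * ((∫⁻ t, Mk t) + ∫⁻ t, Ml t) ^ (1/4:ℝ) * (∫⁻ t, ak t ^ 2) ^ (1/4:ℝ) *
        (∫⁻ t, al t ^ 2) ^ (1/4:ℝ)) := by
  obtain ⟨mMk, mMl, mak, mal, mq, short, long, qle⟩ := h
  set γ : ℝ := 2 * D / 3 with hγ
  have hγ43 : 4/3 ≤ γ := by rw [hγ]; linarith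
  set w := wt γ τ with hw
  have mw : Measurable w := measurable_wt γ τ
  set v : ℝ → ℝ≥0∞ := {u : ℝ | |u| ≤ τ}.indicator (fun _ => 1) with hv
  have msv : MeasurableSet {u : ℝ | |u| ≤ τ} := measurableSet_le (by fun_prop) measurable_const
  have mv : Measurable v := measurable_const.indicator msv
  have hvint : ∫⁻ u, v u = ENNReal.ofReal (2 * τ) := by
    rw [hv, lintegral_indicator msv]
    have : {u : ℝ | |u| ≤ τ} = Set.Icc (-τ) τ := by
      ext u; simp [abs_le]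
    rw [this, setLIntegral_one, Real.volume_Icc]
    congr 1; ring
  -- pointwise decomposition
  have hpt : ∀ p : ℝ × ℝ, r p ≤ tw ((k + l) / 2) * (v (p.1 - p.2) * Mk p.1 + v (p.1 - p.2) * Ml p.2)
      + tw ((k + l) / 2) * tw (min k l / 4) *
        ((q p) ^ (1/4:ℝ) * (w (p.1 - p.2) * Mk p.1 + w (p.1 - p.2) * Ml p.2) ^ (1/4:ℝ) *
          (w (p.1 - p.2) * ak p.1 ^ 2) ^ (1/4:ℝ) * (w (p.1 - p.2) * al p.2 ^ 2) ^ (1/4:ℝ)) := by
    intro p
    by_cases hp : |p.1 - p.2| ≤ τ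
    · refine le_trans ?_ le_self_add
      have : v (p.1 - p.2) = 1 := by
        rw [hv]
        exact Set.indicator_of_mem (show p.1 - p.2 ∈ {u : ℝ | |u| ≤ τ} from hp) _
      rw [this, one_mul, one_mul]
      exact short p
    · refine le_trans ?_ le_add_self
      push Not at hp
      have hne : p.1 ≠ p.2 := by
        intro h
        rw [h, sub_self, abs_zero] at hp
        linarith
      have hpos : 0 < |p.1 - p.2| := hτ.trans hp
      have hwv : w (p.1 - p.2) = ENNReal.ofReal (|p.1 - p.2| ^ (-γ)) := by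
        rw [hw]
        unfold wt
        exact Set.indicator_of_mem (show p.1 - p.2 ∈ {u : ℝ | τ < |u|} from hp) _
      refine (long p hne).trans ?_
      have e0 : q p ^ (1/2:ℝ) ≤ q p ^ (1/4:ℝ) * (tw (min k l / 4) * (Mk p.1 + Ml p.2) ^ (1/4:ℝ)) := by
        rw [← rpow_quarter]
        apply mul_le_mul_right
        calc q p ^ (1/4:ℝ) ≤ (tw (min k l) * (Mk p.1 + Ml p.2)) ^ (1/4:ℝ) :=
              ENNReal.rpow_le_rpow (qle p) (by norm_num)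
          _ = _ := by
              rw [ENNReal.mul_rpow_of_nonneg _ _ (by norm_num), tw_pow]
              congr 2
              ring
      have e1 : ENNReal.ofReal (|p.1 - p.2| ^ (-D / 2))
          = w (p.1 - p.2) ^ (1/4:ℝ) * w (p.1 - p.2) ^ (1/4:ℝ) * w (p.1 - p.2) ^ (1/4:ℝ) := by
        rw [← ENNReal.rpow_add_of_nonneg _ _ (by norm_num) (by norm_num),
          ← ENNReal.rpow_add_of_nonneg _ _ (by norm_num) (by norm_num), hwv,
          ENNReal.ofReal_rpow_of_pos (by positivity), ← Real.rpow_mul hpos.le]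
        congr 2
        rw [hγ]; ring
      have e2 : (ak p.1 * al p.2) ^ (1/2:ℝ) = (ak p.1 ^ 2) ^ (1/4:ℝ) * (al p.2 ^ 2) ^ (1/4:ℝ) := by
        rw [sq_quarter, sq_quarter, ENNReal.mul_rpow_of_nonneg _ _ (by norm_num)]
      have e3 : (w (p.1 - p.2) * Mk p.1 + w (p.1 - p.2) * Ml p.2) ^ (1/4:ℝ)
          = w (p.1 - p.2) ^ (1/4:ℝ) * (Mk p.1 + Ml p.2) ^ (1/4:ℝ) := by
        rw [← mul_add, ENNReal.mul_rpow_of_nonneg _ _ (by norm_num)]
      rw [e3, ENNReal.mul_rpow_of_nonneg (w (p.1 - p.2)) (ak p.1 ^ 2) (by norm_num),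
        ENNReal.mul_rpow_of_nonneg (w (p.1 - p.2)) (al p.2 ^ 2) (by norm_num), e2]
      calc _ ≤ ENNReal.ofReal (|p.1 - p.2| ^ (-D / 2)) * tw ((k + l) / 2) *
            ((ak p.1 ^ 2) ^ (1/4:ℝ) * (al p.2 ^ 2) ^ (1/4:ℝ)) *
            (q p ^ (1/4:ℝ) * (tw (min k l / 4) * (Mk p.1 + Ml p.2) ^ (1/4:ℝ))) :=
            mul_le_mul_right e0 _
        _ = _ := by
            rw [e1]; ring
  refine (lintegral_mono hpt).trans ?_
  have m1 : Measurable (fun p : ℝ × ℝ => v (p.1 - p.2) * Mk p.1) := by fun_prop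
  have m2 : Measurable (fun p : ℝ × ℝ => v (p.1 - p.2) * Ml p.2) := by fun_prop
  have m3 : Measurable (fun p : ℝ × ℝ => w (p.1 - p.2) * Mk p.1) := by fun_prop
  have m4 : Measurable (fun p : ℝ × ℝ => w (p.1 - p.2) * Ml p.2) := by fun_prop
  have m5 : Measurable (fun p : ℝ × ℝ => w (p.1 - p.2) * ak p.1 ^ 2) := by fun_prop
  have m6 : Measurable (fun p : ℝ × ℝ => w (p.1 - p.2) * al p.2 ^ 2) := by fun_prop
  have m12 : Measurable (fun p : ℝ × ℝ => v (p.1 - p.2) * Mk p.1 + v (p.1 - p.2) * Ml p.2) :=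
    m1.add m2
  rw [lintegral_add_left (m12.const_mul _)]
  apply add_le_add
  · rw [lintegral_const_mul _ m12, lintegral_add_left m1, conv_left v Mk mv mMk,
      conv_right v Ml mv mMl, hvint]
    rw [← mul_add, ← mul_assoc]
  · have m34 : Measurable (fun p : ℝ × ℝ => w (p.1 - p.2) * Mk p.1 + w (p.1 - p.2) * Ml p.2) :=
      m3.add m4
    rw [lintegral_const_mul _ (by fun_prop)]
    rw [mul_assoc (tw ((k + l) / 2) * tw (min k l / 4))]
    apply mul_le_mul_right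
    refine (holder4 volume _ _ _ _ mq.aemeasurable m34.aemeasurable m5.aemeasurable
      m6.aemeasurable).trans ?_
    rw [lintegral_add_left m3, conv_left w Mk mw mMk, conv_right w Ml mw mMl,
      conv_left w (fun t => ak t ^ 2) mw (by fun_prop),
      conv_right w (fun t => al t ^ 2) mw (by fun_prop), ← mul_add,
      ENNReal.mul_rpow_of_nonneg _ _ (by norm_num), ENNReal.mul_rpow_of_nonneg _ _ (by norm_num),
      ENNReal.mul_rpow_of_nonneg _ _ (by norm_num)]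
    have hW : (∫⁻ u, w u) ^ (1/4:ℝ) * (∫⁻ u, w u) ^ (1/4:ℝ) * (∫⁻ u, w u) ^ (1/4:ℝ)
        ≤ (ENNReal.ofReal (6 * τ ^ (1 - γ))) ^ (3/4:ℝ) := by
      rw [← ENNReal.rpow_add_of_nonneg _ _ (by norm_num) (by norm_num),
        ← ENNReal.rpow_add_of_nonneg _ _ (by norm_num) (by norm_num)]
      have : (1/4:ℝ) + 1/4 + 1/4 = 3/4 := by norm_num
      rw [this]
      exact ENNReal.rpow_le_rpow (lint_wt γ τ hγ43 hτ) (by norm_num)
    calc _ = ((∫⁻ u, w u) ^ (1/4:ℝ) * (∫⁻ u, w u) ^ (1/4:ℝ) * (∫⁻ u, w u) ^ (1/4:ℝ)) *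
          ((∫⁻ p, q p) ^ (1/4:ℝ) * ((∫⁻ t, Mk t) + ∫⁻ t, Ml t) ^ (1/4:ℝ) *
          (∫⁻ t, ak t ^ 2) ^ (1/4:ℝ) * (∫⁻ t, al t ^ 2) ^ (1/4:ℝ)) := by ring
      _ ≤ _ := mul_le_mul_left hW _

end Pool.Agent.U517.OS
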