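import Pool.Agent.U517.OS.Core2

/-!
Summation over the pairs of levels and the final algebra.
-/

set_option autoImplicit false

namespace Pool.Agent.U517.OS

open MeasureTheory
open scoped ENNReal

lemma algebra (D m x v n s : ℝ) (hm : 0 < m) (hx : 0 ≤ x) (hv : 0 ≤ v) (hn : 1 ≤ n)
    (hs : 0 < s) (h1 : m ^ 2 ≤ n * x)
    (h2 : ∀ lam : ℝ, 0 < lam → x ≤ 4 * s * lam * m + 6 ^ (3/4:ℝ) * lam ^ (-(D / 2 - 3 / 4)) *
      (x ^ (1/4:ℝ) * (2 * s * m) ^ (1/4:ℝ) * (s * v) ^ (1/4:ℝ) * (s * v) ^ (1/4:ℝ))) :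
    m ^ (D + 1) ≤ (84 * 8 ^ D * s ^ D) * n ^ D * v := by
  have hn0 : 0 < n := by linarith
  have hx0 : 0 < x := by
    by_contra h
    have : x = 0 := le_antisymm (not_lt.mp h) hx
    rw [this, mul_zero] at h1
    have : 0 < m ^ 2 := by positivity
    linarith
  set lam := m / (8 * s * n) with hlam
  have hlam0 : 0 < lam := by positivity
  have h3 := h2 lam hlam0
  have h4 : 4 * s * lam * m ≤ x / 2 := by
    have : 4 * s * lam * m = m ^ 2 / (2 * n) := by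
      rw [hlam]; field_simp; norm_num
    rw [this, div_le_div_iff₀ (by positivity) (by norm_num)]
    nlinarith
  have h5 : x ≤ 2 * (6 ^ (3/4:ℝ) * lam ^ (-(D / 2 - 3 / 4)) *
      (x ^ (1/4:ℝ) * (2 * s * m) ^ (1/4:ℝ) * (s * v) ^ (1/4:ℝ) * (s * v) ^ (1/4:ℝ))) := by
    linarith
  -- fourth power
  have q4 : ∀ y : ℝ, 0 ≤ y → (y ^ (1/4:ℝ)) ^ 4 = y := by
    intro y hy
    rw [← Real.rpow_natCast, ← Real.rpow_mul hy]
    norm_num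
  have h6 : x ^ 4 ≤ 2 ^ 4 * (6 ^ 3 * lam ^ (-(2 * D - 3)) * (x * (2 * s * m) * (s * v) * (s * v))) := by
    have h := pow_le_pow_left₀ hx h5 4
    have e1 : ((6:ℝ) ^ (3/4:ℝ)) ^ 4 = 6 ^ 3 := by
      rw [← Real.rpow_natCast, ← Real.rpow_mul (by norm_num)]
      norm_num
    have e2 : (lam ^ (-(D / 2 - 3 / 4))) ^ 4 = lam ^ (-(2 * D - 3)) := by
      rw [← Real.rpow_natCast, ← Real.rpow_mul hlam0.le]
      congr 1
      push_cast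
      ring
    have e3 : (2 * (6 ^ (3/4:ℝ) * lam ^ (-(D / 2 - 3 / 4)) *
      (x ^ (1/4:ℝ) * (2 * s * m) ^ (1/4:ℝ) * (s * v) ^ (1/4:ℝ) * (s * v) ^ (1/4:ℝ)))) ^ 4
        = 2 ^ 4 * (6 ^ 3 * lam ^ (-(2 * D - 3)) * (x * (2 * s * m) * (s * v) * (s * v))) := by
      rw [mul_pow, mul_pow, mul_pow, mul_pow, mul_pow, mul_pow, e1, e2, q4 x hx,
        q4 (2 * s * m) (by positivity), q4 (s * v) (by positivity)]
    rw [e3] at h
    exact h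
  have h7 : x ^ 3 ≤ 6912 * s ^ 3 * m * v ^ 2 * lam ^ (-(2 * D - 3)) := by
    have : x * x ^ 3 ≤ x * (6912 * s ^ 3 * m * v ^ 2 * lam ^ (-(2 * D - 3))) := by
      calc x * x ^ 3 = x ^ 4 := by ring
        _ ≤ _ := h6
        _ = _ := by ring
    exact le_of_mul_le_mul_left this hx0
  have h8 : m ^ 6 ≤ n ^ 3 * x ^ 3 := by
    calc m ^ 6 = (m ^ 2) ^ 3 := by ring
      _ ≤ (n * x) ^ 3 := pow_le_pow_left₀ (by positivity) h1 3
      _ = n ^ 3 * x ^ 3 := by ring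
  have h9 : m ^ 6 ≤ n ^ 3 * (6912 * s ^ 3 * m * v ^ 2 * lam ^ (-(2 * D - 3))) :=
    h8.trans (mul_le_mul_of_nonneg_left h7 (by positivity))
  have h10 : lam ^ (-(2 * D - 3)) = (8 * s * n) ^ (2 * D - 3) * m ^ (-(2 * D - 3)) := by
    rw [hlam, Real.div_rpow hm.le (by positivity), Real.rpow_neg (by positivity : 0 ≤ 8 * s * n)]
    field_simp
  rw [h10] at h9
  -- multiply by m^(2D-4)
  have h11 : m ^ (2 * D + 2) ≤ 6912 * s ^ 3 * n ^ 3 * (8 * s * n) ^ (2 * D - 3) * v ^ 2 := by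
    have e1 : m ^ (2 * D + 2) = m ^ (2 * D - 4) * m ^ 6 := by
      rw [← Real.rpow_natCast m 6, ← Real.rpow_add hm]
      congr 1; push_cast; ring
    have e2 : m ^ (2 * D - 4) * (m * m ^ (-(2 * D - 3))) = 1 := by
      nth_rewrite 2 [← Real.rpow_one m]
      rw [← Real.rpow_add hm, ← Real.rpow_add hm]
      have : 2 * D - 4 + (1 + -(2 * D - 3)) = 0 := by ring
      rw [this, Real.rpow_zero]
    rw [e1]
    calc m ^ (2 * D - 4) * m ^ 6 ≤ m ^ (2 * D - 4) * (n ^ 3 * (6912 * s ^ 3 * m * v ^ 2 *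
          ((8 * s * n) ^ (2 * D - 3) * m ^ (-(2 * D - 3))))) :=
          mul_le_mul_of_nonneg_left h9 (Real.rpow_nonneg hm.le _)
      _ = (m ^ (2 * D - 4) * (m * m ^ (-(2 * D - 3)))) *
          (6912 * s ^ 3 * n ^ 3 * (8 * s * n) ^ (2 * D - 3) * v ^ 2) := by ring
      _ = _ := by rw [e2, one_mul]
  have h12 : (m ^ (D + 1)) ^ 2 ≤ ((84 * 8 ^ D * s ^ D) * n ^ D * v) ^ 2 := by
    have e1 : (m ^ (D + 1)) ^ 2 = m ^ (2 * D + 2) := by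
      rw [← Real.rpow_natCast, ← Real.rpow_mul hm.le]
      congr 1; push_cast; ring
    have e2 : ∀ y : ℝ, 0 < y → (y ^ D) ^ 2 = y ^ 3 * y ^ (2 * D - 3) := by
      intro y hy
      rw [← Real.rpow_natCast, ← Real.rpow_mul hy.le, ← Real.rpow_natCast y 3, ← Real.rpow_add hy]
      congr 1; push_cast; ring
    rw [e1]
    refine h11.trans ?_
    rw [mul_pow, mul_pow, mul_pow, mul_pow, e2 8 (by norm_num), e2 s hs, e2 n hn0,
      Real.mul_rpow (by positivity) hn0.le, Real.mul_rpow (by norm_num) hs.le]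
    have p1 : 0 < (8:ℝ) ^ (2 * D - 3) := by positivity
    have p2 : 0 < s ^ (2 * D - 3) := Real.rpow_pos_of_pos hs _
    have p3 : 0 < n ^ (2 * D - 3) := Real.rpow_pos_of_pos hn0 _
    have : 0 ≤ s ^ 3 * n ^ 3 * (8 ^ (2 * D - 3) * s ^ (2 * D - 3) * n ^ (2 * D - 3)) * v ^ 2 := by
      positivity
    nlinarith
  exact le_of_sq_le_sq h12 (by positivity) |> fun h => h

/-- the constant `∑_j 2^(-ε|j|)` -/
noncomputable def SS (ε : ℝ) : ℝ≥0∞ := ∑' j : ℤ, tw (-ε * |(j:ℝ)|)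

lemma SS_ne_top (ε : ℝ) (hε : 0 < ε) : SS ε ≠ ∞ := by
  have hgeo : Summable (fun n : ℕ => ((2:ℝ) ^ (-ε)) ^ n) :=
    summable_geometric_of_lt_one (by positivity)
      (Real.rpow_lt_one_of_one_lt_of_neg (by norm_num) (by linarith))
  have hsum : Summable (fun j : ℤ => (2:ℝ) ^ (-ε * |(j:ℝ)|)) := by
    apply Summable.of_nat_of_neg
    · refine hgeo.congr fun n => ?_
      rw [← Real.rpow_natCast, ← Real.rpow_mul (by norm_num)]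
      simp
    · refine hgeo.congr fun n => ?_
      rw [← Real.rpow_natCast, ← Real.rpow_mul (by norm_num)]
      simp
  unfold SS tw
  rw [← ENNReal.ofReal_tsum_of_nonneg (fun j => by positivity) hsum]
  exact ENNReal.ofReal_ne_top

lemma sum_theta (ε : ℝ) (𝒦 : Finset ℤ) (x : ℤ → ℝ≥0∞) :
    ∑ k ∈ 𝒦, ∑ l ∈ 𝒦, tw (-ε * |(k:ℝ) - l|) * x k ≤ SS ε * ∑ k ∈ 𝒦, x k := by
  rw [Finset.mul_sum]
  refine Finset.sum_le_sum fun k _ => ?_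
  rw [← Finset.sum_mul]
  apply mul_le_mul_left
  unfold SS
  have h1 : ∑' j : ℤ, tw (-ε * |(j:ℝ)|) = ∑' l : ℤ, tw (-ε * |(k:ℝ) - l|) := by
    rw [← (Equiv.subLeft k).tsum_eq (fun j : ℤ => tw (-ε * |(j:ℝ)|))]
    refine tsum_congr fun l => ?_
    simp [Equiv.subLeft]
  rw [h1]
  exact ENNReal.sum_le_tsum 𝒦

lemma sum_theta' (ε : ℝ) (𝒦 : Finset ℤ) (x : ℤ → ℝ≥0∞) :
    ∑ k ∈ 𝒦, ∑ l ∈ 𝒦, tw (-ε * |(k:ℝ) - l|) * x l ≤ SS ε * ∑ k ∈ 𝒦, x k := by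
  rw [Finset.sum_comm]
  refine le_trans (le_of_eq ?_) (sum_theta ε 𝒦 x)
  refine Finset.sum_congr rfl fun k _ => Finset.sum_congr rfl fun l _ => ?_
  rw [abs_sub_comm]

lemma sum_theta2 (ε : ℝ) (𝒦 : Finset ℤ) (x : ℤ → ℝ≥0∞) (s : ℝ) (_hs : 0 ≤ s)
    (hSs : SS ε ≤ ENNReal.ofReal s) :
    ∑ k ∈ 𝒦, ∑ l ∈ 𝒦, tw (-ε * |(k:ℝ) - l|) * (x k + x l)
      ≤ ENNReal.ofReal (2 * s) * ∑ k ∈ 𝒦, x k := by
  have h1 : ∑ k ∈ 𝒦, ∑ l ∈ 𝒦, tw (-ε * |(k:ℝ) - l|) * (x k + x l)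
      = (∑ k ∈ 𝒦, ∑ l ∈ 𝒦, tw (-ε * |(k:ℝ) - l|) * x k)
        + ∑ k ∈ 𝒦, ∑ l ∈ 𝒦, tw (-ε * |(k:ℝ) - l|) * x l := by
    simp_rw [mul_add, Finset.sum_add_distrib]
  rw [h1]
  refine (add_le_add ((sum_theta ε 𝒦 x).trans (mul_le_mul_left hSs _))
    ((sum_theta' ε 𝒦 x).trans (mul_le_mul_left hSs _))).trans (le_of_eq ?_)
  rw [← two_mul, ← mul_assoc]
  congr 1
  have : (2 : ℝ≥0∞) = ENNReal.ofReal 2 := by simp
  rw [this, ← ENNReal.ofReal_mul (by positivity)]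

/-- exponent bookkeeping for one pair -/
lemma pair_exp (D : ℝ) (hD : 2 ≤ D) (k l : ℝ) (lam : ℝ) (hlam : 0 < lam) (x y : ℝ≥0∞) :
    tw ((k + l) / 2) * tw (min k l / 4) * (ENNReal.ofReal (6 * (lam * 2 ^ (-((k + l) / 2) -
      1 / (8 * D) * |k - l|)) ^ (1 - 2 * D / 3))) ^ (3/4:ℝ) * (x ^ (1/4:ℝ) * y ^ (1/4:ℝ))
    ≤ ENNReal.ofReal (6 ^ (3/4:ℝ) * lam ^ (-(D / 2 - 3 / 4))) * (tw (-(1 / (8 * D)) * |k - l|) *
      ((tw ((D + 1) * k) * x) ^ (1/4:ℝ) * (tw ((D + 1) * l) * y) ^ (1/4:ℝ))) := by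
  set ε := 1 / (8 * D) with hε
  have hD0 : 0 < D := by linarith
  have h1 : ((6:ℝ) * (lam * 2 ^ (-((k + l) / 2) - ε * |k - l|)) ^ (1 - 2 * D / 3)) ^ (3/4:ℝ)
      = 6 ^ (3/4:ℝ) * lam ^ (-(D / 2 - 3 / 4)) * 2 ^ (((k + l) / 2 + ε * |k - l|) * (D / 2 - 3 / 4)) := by
    have p2 : (0:ℝ) ≤ 2 ^ (-((k + l) / 2) - ε * |k - l|) := Real.rpow_nonneg (by norm_num) _
    have p3 : (0:ℝ) ≤ lam ^ (1 - 2 * D / 3) := Real.rpow_nonneg hlam.le _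
    have p4 : (0:ℝ) ≤ (2 ^ (-((k + l) / 2) - ε * |k - l|)) ^ (1 - 2 * D / 3) :=
      Real.rpow_nonneg p2 _
    rw [Real.mul_rpow hlam.le p2, Real.mul_rpow (by norm_num) (mul_nonneg p3 p4),
      Real.mul_rpow p3 p4, ← Real.rpow_mul hlam.le,
      ← Real.rpow_mul p2, ← Real.rpow_mul (by norm_num), mul_assoc]
    have e1 : (1 - 2 * D / 3) * (3 / 4) = -(D / 2 - 3 / 4) := by ring
    have e2 : (-((k + l) / 2) - ε * |k - l|) * -(D / 2 - 3 / 4)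
        = ((k + l) / 2 + ε * |k - l|) * (D / 2 - 3 / 4) := by ring
    rw [e1, e2]
  rw [ENNReal.ofReal_rpow_of_pos (by positivity), h1, ENNReal.ofReal_mul (by positivity)]
  have h2 : ENNReal.ofReal (2 ^ (((k + l) / 2 + ε * |k - l|) * (D / 2 - 3 / 4)))
      = tw (((k + l) / 2 + ε * |k - l|) * (D / 2 - 3 / 4)) := rfl
  rw [h2, ENNReal.mul_rpow_of_nonneg _ x (by norm_num), ENNReal.mul_rpow_of_nonneg _ y (by norm_num),
    tw_pow, tw_pow]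
  have h3 : tw ((k + l) / 2) * tw (min k l / 4) * tw (((k + l) / 2 + ε * |k - l|) * (D / 2 - 3 / 4))
      ≤ tw (-ε * |k - l|) * (tw ((D + 1) * k * (1/4)) * tw ((D + 1) * l * (1/4))) := by
    rw [← tw_add, ← tw_add, ← tw_add, ← tw_add]
    apply tw_mono
    have hmin : min k l = (k + l) / 2 - |k - l| / 2 := by
      rcases le_total k l with h | h
      · rw [min_eq_left h, abs_of_nonpos (by linarith)]; ring
      · rw [min_eq_right h, abs_of_nonneg (by linarith)]; ring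
    rw [hmin]
    have habs : 0 ≤ |k - l| := abs_nonneg _
    have hεD : ε * D = 1 / 8 := by rw [hε]; field_simp
    have hε0 : 0 < ε := by rw [hε]; positivity
    have hε16 : ε ≤ 1 / 16 := by
      rw [hε, div_le_div_iff₀ (by positivity) (by norm_num)]
      linarith
    nlinarith [mul_nonneg hε0.le habs, mul_le_mul_of_nonneg_right hε16 habs]
  calc _ = (tw ((k + l) / 2) * tw (min k l / 4) * tw (((k + l) / 2 + ε * |k - l|) * (D / 2 - 3 / 4)))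
        * (ENNReal.ofReal (6 ^ (3/4:ℝ) * lam ^ (-(D / 2 - 3 / 4))) * (x ^ (1/4:ℝ) * y ^ (1/4:ℝ))) := by
        ring
    _ ≤ (tw (-ε * |k - l|) * (tw ((D + 1) * k * (1/4)) * tw ((D + 1) * l * (1/4))))
        * (ENNReal.ofReal (6 ^ (3/4:ℝ) * lam ^ (-(D / 2 - 3 / 4))) * (x ^ (1/4:ℝ) * y ^ (1/4:ℝ))) :=
        mul_le_mul_left h3 _
    _ = _ := by ring

/-- **The abstract core estimate.** -/
theorem core (D : ℝ) (hD : 2 ≤ D) : ∃ C : ℝ, 0 < C ∧ ∀ (𝒦 : Finset ℤ) (M a : ℤ → ℝ → ℝ≥0∞)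
    (q r : ℤ → ℤ → ℝ × ℝ → ℝ≥0∞) (n : ℝ), 1 ≤ n →
    (∀ k ∈ 𝒦, ∀ l ∈ 𝒦, PairHyp D k l (M k) (M l) (a k) (a l) (q k l) (r k l)) →
    (∑ k ∈ 𝒦, ∫⁻ t, M k t ≠ ∞) → (∑ k ∈ 𝒦, ∑ l ∈ 𝒦, ∫⁻ p, q k l p ≠ ∞) →
    (∑ k ∈ 𝒦, tw ((D + 1) * k) * ∫⁻ t, a k t ^ 2 ≠ ∞) →
    (∑ k ∈ 𝒦, ∑ l ∈ 𝒦, ∫⁻ p, q k l p ≤ ∑ k ∈ 𝒦, ∑ l ∈ 𝒦, ∫⁻ p, r k l p) →
    ((∑ k ∈ 𝒦, ∫⁻ t, M k t) ^ 2 ≤ ENNReal.ofReal n * ∑ k ∈ 𝒦, ∑ l ∈ 𝒦, ∫⁻ p, q k l p) →
    (∑ k ∈ 𝒦, ∫⁻ t, M k t) ^ (D + 1)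
      ≤ ENNReal.ofReal (C * n ^ D) * ∑ k ∈ 𝒦, tw ((D + 1) * k) * ∫⁻ t, a k t ^ 2 := by
  set ε := 1 / (8 * D) with hε
  have hD0 : 0 < D := by linarith
  have hε0 : 0 < ε := by rw [hε]; positivity
  have hS := SS_ne_top ε hε0
  set s := (SS ε).toReal + 1 with hs
  have hs0 : 0 < s := by
    have := ENNReal.toReal_nonneg (a := SS ε)
    rw [hs]; linarith
  have hSs : SS ε ≤ ENNReal.ofReal s := by
    rw [← ENNReal.ofReal_toReal hS]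
    apply ENNReal.ofReal_le_ofReal
    rw [hs]; linarith
  refine ⟨84 * 8 ^ D * s ^ D, by positivity, ?_⟩
  intro 𝒦 M a q r n hn hpair hM hQ hA hQR hMQ
  set MM := ∑ k ∈ 𝒦, ∫⁻ t, M k t with hMM
  set QQ := ∑ k ∈ 𝒦, ∑ l ∈ 𝒦, ∫⁻ p, q k l p with hQQ
  set AA := ∑ k ∈ 𝒦, tw ((D + 1) * k) * ∫⁻ t, a k t ^ 2 with hAA
  by_cases hM0 : MM = 0
  · rw [hM0, ENNReal.zero_rpow_of_pos (by linarith)]
    exact zero_le
  have hm : 0 < MM.toReal := ENNReal.toReal_pos hM0 hM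
  -- the inequality for every `lam`
  have hlam : ∀ lam : ℝ, 0 < lam → QQ ≤ ENNReal.ofReal (4 * s * lam) * MM +
      ENNReal.ofReal (6 ^ (3/4:ℝ) * lam ^ (-(D / 2 - 3 / 4))) * (QQ ^ (1/4:ℝ) *
        (ENNReal.ofReal (2 * s) * MM) ^ (1/4:ℝ) * (ENNReal.ofReal s * AA) ^ (1/4:ℝ) *
        (ENNReal.ofReal s * AA) ^ (1/4:ℝ)) := by
    intro lam hlam
    refine hQR.trans ?_
    have hterm : ∀ k ∈ 𝒦, ∀ l ∈ 𝒦, ∫⁻ p, r k l p ≤
        ENNReal.ofReal (2 * lam) * (tw (-ε * |(k:ℝ) - l|) * ((∫⁻ t, M k t) + ∫⁻ t, M l t)) +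
        ENNReal.ofReal (6 ^ (3/4:ℝ) * lam ^ (-(D / 2 - 3 / 4))) *
          ((∫⁻ p, q k l p) ^ (1/4:ℝ) *
            (tw (-ε * |(k:ℝ) - l|) * ((∫⁻ t, M k t) + ∫⁻ t, M l t)) ^ (1/4:ℝ) *
            (tw (-ε * |(k:ℝ) - l|) * (tw ((D + 1) * k) * ∫⁻ t, a k t ^ 2)) ^ (1/4:ℝ) *
            (tw (-ε * |(k:ℝ) - l|) * (tw ((D + 1) * l) * ∫⁻ t, a l t ^ 2)) ^ (1/4:ℝ)) := by
      intro k hk l hl
      set τ : ℝ := lam * 2 ^ (-(((k:ℝ) + l) / 2) - ε * |(k:ℝ) - l|) with hτ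
      have hτ0 : 0 < τ := by positivity
      refine (pair_bound D hD k l _ _ _ _ _ _ (hpair k hk l hl) τ hτ0).trans ?_
      apply add_le_add
      · apply le_of_eq
        have : tw (((k:ℝ) + l) / 2) * ENNReal.ofReal (2 * τ)
            = ENNReal.ofReal (2 * lam) * tw (-ε * |(k:ℝ) - l|) := by
          unfold tw
          rw [← ENNReal.ofReal_mul (by positivity), ← ENNReal.ofReal_mul (by positivity), hτ]
          congr 1
          have e : (2:ℝ) ^ (((k:ℝ) + l) / 2) * 2 ^ (-(((k:ℝ) + l) / 2) - ε * |(k:ℝ) - l|)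
              = 2 ^ (-ε * |(k:ℝ) - l|) := by
            rw [← Real.rpow_add (by norm_num)]
            congr 1; ring
          rw [← e]; ring
        rw [this, mul_assoc]
      · have h1 := pair_exp D hD k l lam hlam (∫⁻ t, a k t ^ 2) (∫⁻ t, a l t ^ 2)
        rw [← hε, ← hτ] at h1
        have hth : tw (-ε * |(k:ℝ) - l|) ≤ tw (-ε * |(k:ℝ) - l|) ^ (1/4:ℝ) *
            tw (-ε * |(k:ℝ) - l|) ^ (1/4:ℝ) * tw (-ε * |(k:ℝ) - l|) ^ (1/4:ℝ) := by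
          rw [tw_pow, ← tw_add, ← tw_add]
          apply tw_mono
          nlinarith [mul_nonneg hε0.le (abs_nonneg ((k:ℝ) - l))]
        calc _ = (tw (((k:ℝ) + l) / 2) * tw (min (k:ℝ) l / 4) *
              ENNReal.ofReal (6 * τ ^ (1 - 2 * D / 3)) ^ (3/4:ℝ) *
              ((∫⁻ t, a k t ^ 2) ^ (1/4:ℝ) * (∫⁻ t, a l t ^ 2) ^ (1/4:ℝ))) *
              ((∫⁻ p, q k l p) ^ (1/4:ℝ) * ((∫⁻ t, M k t) + ∫⁻ t, M l t) ^ (1/4:ℝ)) := by ring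
          _ ≤ (ENNReal.ofReal (6 ^ (3/4:ℝ) * lam ^ (-(D / 2 - 3 / 4))) * (tw (-ε * |(k:ℝ) - l|) *
              ((tw ((D + 1) * k) * ∫⁻ t, a k t ^ 2) ^ (1/4:ℝ) *
                (tw ((D + 1) * l) * ∫⁻ t, a l t ^ 2) ^ (1/4:ℝ)))) *
              ((∫⁻ p, q k l p) ^ (1/4:ℝ) * ((∫⁻ t, M k t) + ∫⁻ t, M l t) ^ (1/4:ℝ)) :=
              mul_le_mul_left h1 _
          _ ≤ (ENNReal.ofReal (6 ^ (3/4:ℝ) * lam ^ (-(D / 2 - 3 / 4))) *
              ((tw (-ε * |(k:ℝ) - l|) ^ (1/4:ℝ) *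
            tw (-ε * |(k:ℝ) - l|) ^ (1/4:ℝ) * tw (-ε * |(k:ℝ) - l|) ^ (1/4:ℝ)) *
              ((tw ((D + 1) * k) * ∫⁻ t, a k t ^ 2) ^ (1/4:ℝ) *
                (tw ((D + 1) * l) * ∫⁻ t, a l t ^ 2) ^ (1/4:ℝ)))) *
              ((∫⁻ p, q k l p) ^ (1/4:ℝ) * ((∫⁻ t, M k t) + ∫⁻ t, M l t) ^ (1/4:ℝ)) := by
              gcongr
          _ = _ := by
              rw [ENNReal.mul_rpow_of_nonneg _ ((∫⁻ t, M k t) + ∫⁻ t, M l t) (by norm_num),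
                ENNReal.mul_rpow_of_nonneg (tw (-ε * |(k:ℝ) - l|)) _ (by norm_num),
                ENNReal.mul_rpow_of_nonneg (tw (-ε * |(k:ℝ) - l|)) _ (by norm_num)]
              ring
    refine (Finset.sum_le_sum fun k hk => Finset.sum_le_sum fun l hl => hterm k hk l hl).trans ?_
    simp_rw [Finset.sum_add_distrib, ← Finset.mul_sum]
    apply add_le_add
    · refine (mul_le_mul_right (sum_theta2 ε 𝒦 (fun k => ∫⁻ t, M k t) s hs0.le hSs) _).trans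
        (le_of_eq ?_)
      rw [← mul_assoc, ← ENNReal.ofReal_mul (by positivity)]
      congr 2; ring
    · apply mul_le_mul_right
      rw [← Finset.sum_product']
      refine (holder4_sum (𝒦 ×ˢ 𝒦) _ _ _ _).trans ?_
      simp only [Finset.sum_product]
      gcongr
      · exact sum_theta2 ε 𝒦 (fun k => ∫⁻ t, M k t) s hs0.le hSs
      · exact (sum_theta ε 𝒦 (fun k => tw ((D + 1) * k) * ∫⁻ t, a k t ^ 2)).trans
          (mul_le_mul_left hSs _)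
      · exact (sum_theta' ε 𝒦 (fun k => tw ((D + 1) * k) * ∫⁻ t, a k t ^ 2)).trans
          (mul_le_mul_left hSs _)
  -- real numbers
  have eM : MM = ENNReal.ofReal MM.toReal := (ENNReal.ofReal_toReal hM).symm
  have eQ : QQ = ENNReal.ofReal QQ.toReal := (ENNReal.ofReal_toReal hQ).symm
  have eA : AA = ENNReal.ofReal AA.toReal := (ENNReal.ofReal_toReal hA).symm
  set m := MM.toReal
  set x := QQ.toReal
  set v := AA.toReal
  have hx : 0 ≤ x := ENNReal.toReal_nonneg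
  have hv : 0 ≤ v := ENNReal.toReal_nonneg
  have h1 : m ^ 2 ≤ n * x := by
    rw [eM, eQ, ← ENNReal.ofReal_pow hm.le, ← ENNReal.ofReal_mul (by linarith),
      ENNReal.ofReal_le_ofReal_iff (by positivity)] at hMQ
    exact hMQ
  have h2 : ∀ lam : ℝ, 0 < lam → x ≤ 4 * s * lam * m + 6 ^ (3/4:ℝ) * lam ^ (-(D / 2 - 3 / 4)) *
      (x ^ (1/4:ℝ) * (2 * s * m) ^ (1/4:ℝ) * (s * v) ^ (1/4:ℝ) * (s * v) ^ (1/4:ℝ)) := by
    intro lam hl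
    have h := hlam lam hl
    rw [eM, eQ, eA, ← ENNReal.ofReal_mul (by positivity), ← ENNReal.ofReal_mul (by positivity),
      ← ENNReal.ofReal_mul (by positivity),
      ENNReal.ofReal_rpow_of_nonneg hx (by norm_num),
      ENNReal.ofReal_rpow_of_nonneg (by positivity) (by norm_num),
      ENNReal.ofReal_rpow_of_nonneg (by positivity) (by norm_num),
      ← ENNReal.ofReal_mul (by positivity), ← ENNReal.ofReal_mul (by positivity),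
      ← ENNReal.ofReal_mul (by positivity), ← ENNReal.ofReal_mul (by positivity),
      ← ENNReal.ofReal_add (by positivity) (by positivity),
      ENNReal.ofReal_le_ofReal_iff (by positivity)] at h
    exact h
  have h3 := algebra D m x v n s hm hx hv hn hs0 h1 h2
  rw [eM, eA, ENNReal.ofReal_rpow_of_pos hm, ← ENNReal.ofReal_mul (by positivity)]
  exact ENNReal.ofReal_le_ofReal h3

end Pool.Agent.U517.OS
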