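import Pool.Agent.U517.OS.Glob3

/-!
Duality: optimal potentials.
-/

set_option autoImplicit false

namespace Pool.Agent.U517.OS

open MeasureTheory Complex
open scoped Real ENNReal

variable {V : Type*} [NormedAddCommGroup V] [InnerProductSpace ℝ V]
  [MeasurableSpace V] [BorelSpace V] [FiniteDimensional ℝ V]

/-- the space-time box -/
def Box (V : Type*) [NormedAddCommGroup V] (T : ℝ) : Set (ℝ × V) :=
  Set.Icc (-T) T ×ˢ Metric.closedBall (0:V) T

omit [InnerProductSpace ℝ V] [FiniteDimensional ℝ V] in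
lemma measurableSet_Box (T : ℝ) : MeasurableSet (Box V T) :=
  measurableSet_Icc.prod measurableSet_closedBall

lemma exists_level (v : ℝ≥0∞) (h0 : v ≠ 0) (h1 : v ≠ ∞) :
    ∃ k : ℤ, tw k ≤ v ∧ v < tw ((k:ℝ) + 1) := by
  have hv : 0 < v.toReal := ENNReal.toReal_pos h0 h1
  obtain ⟨k, hk1, hk2⟩ := exists_mem_Ico_zpow hv (by norm_num : (1:ℝ) < 2)
  refine ⟨k, ?_, ?_⟩
  · unfold tw
    rw [ENNReal.ofReal_le_iff_le_toReal h1, Real.rpow_intCast]
    exact hk1
  · unfold tw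
    rw [ENNReal.lt_ofReal_iff_toReal_lt h1]
    have : ((k:ℝ) + 1) = ((k + 1 : ℤ) : ℝ) := by push_cast; ring
    rw [this, Real.rpow_intCast]
    exact hk2

/-- the integral at time `t` -/
noncomputable def II (r : ℝ × V → ℝ≥0∞) (q : ℝ) (t : ℝ) : ℝ≥0∞ := ∫⁻ x, r (t, x) ^ q

lemma measurable_II {r : ℝ × V → ℝ≥0∞} (hr : Measurable r) (q : ℝ) : Measurable (II r q) := by
  unfold II
  have : Measurable (fun z : ℝ × V => r z ^ q) := hr.pow_const q
  exact this.lintegral_prod_right'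

/-- the optimal potential -/
noncomputable def VV (r : ℝ × V → ℝ≥0∞) (D : ℝ) (z : ℝ × V) : ℝ≥0∞ :=
  r z ^ (2 / (D - 1)) * (II r ((D + 1) / (D - 1)) z.1) ^ (-1 / D)

lemma measurable_VV {r : ℝ × V → ℝ≥0∞} (hr : Measurable r) (D : ℝ) : Measurable (VV r D) := by
  unfold VV
  exact (hr.pow_const _).mul (((measurable_II hr _).comp measurable_fst).pow_const _)

/-- the level sets of the optimal potential -/
def SL (r : ℝ × V → ℝ≥0∞) (D T : ℝ) (k : ℤ) : Set (ℝ × V) :=
  {z | tw k ≤ VV r D z ∧ VV r D z < tw ((k:ℝ) + 1)} ∩ Box V T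

lemma lev_SL {r : ℝ × V → ℝ≥0∞} (hr : Measurable r) (D T : ℝ) (k : ℤ) : Lev (SL r D T k) := by
  refine ⟨?_, T, ?_⟩
  · have hm := measurable_VV hr D
    exact ((measurableSet_le measurable_const hm).inter (measurableSet_lt hm measurable_const)).inter
      (measurableSet_Box T)
  · exact Set.inter_subset_right

lemma SL_disjoint (r : ℝ × V → ℝ≥0∞) (D T : ℝ) {k l : ℤ} (h : k ≠ l) :
    Disjoint (SL r D T k) (SL r D T l) := by
  wlog hkl : k < l generalizing k l with H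
  · exact (H h.symm (lt_of_le_of_ne (not_lt.mp hkl) h.symm)).symm
  rw [Set.disjoint_left]
  rintro z ⟨⟨_, h2⟩, _⟩ ⟨⟨h3, _⟩, _⟩
  have h4 : tw ((k:ℝ) + 1) ≤ tw l := by
    apply tw_mono
    exact_mod_cast hkl
  exact absurd (h2.trans_le (h4.trans h3)) (lt_irrefl _)

lemma claimA {r : ℝ × V → ℝ≥0∞} (hr : Measurable r) {D : ℝ} (hD : 2 ≤ D) (T t : ℝ)
    (hI : II r ((D + 1) / (D - 1)) t ≠ ∞) (𝒦 : Finset ℤ) :
    ∑ k ∈ 𝒦, tw ((D + 1) * k) * (ak (SL r D T k) t) ^ 2
      ≤ (II r ((D + 1) / (D - 1)) t) ^ ((D - 1) / D) := by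
  have hD1 : 0 < D - 1 := by linarith
  have hD0 : 0 < D := by linarith
  set q := (D + 1) / (D - 1) with hq
  by_cases hI0 : II r q t = 0
  · have : ∀ k ∈ 𝒦, tw ((D + 1) * k) * (ak (SL r D T k) t) ^ 2 = 0 := by
      intro k _
      have he : Prod.mk t ⁻¹' (SL r D T k) = ∅ := by
        ext x
        simp only [Set.mem_preimage, Set.mem_empty_iff_false, iff_false]
        rintro ⟨⟨h1, h2⟩, _⟩
        have hneg : -1 / D < 0 := div_neg_of_neg_of_pos (by norm_num) hD0
        have e1 : VV r D (t, x) = r (t, x) ^ (2 / (D - 1)) * ∞ := by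
          unfold VV
          simp only
          rw [← hq, hI0, ENNReal.zero_rpow_of_neg hneg]
        rw [e1] at h1 h2
        by_cases h0 : r (t, x) ^ (2 / (D - 1)) = 0
        · rw [h0, zero_mul] at h1
          exact tw_ne_zero _ (le_antisymm h1 zero_le)
        · rw [ENNReal.mul_top h0] at h2
          exact absurd h2 not_top_lt
      unfold ak
      rw [he]
      simp
    rw [Finset.sum_eq_zero this]
    exact zero_le
  set I := II r q t with hIdef
  set J : ℤ → ℝ≥0∞ := fun k => ∫⁻ x in Prod.mk t ⁻¹' (SL r D T k), r (t, x) ^ q with hJ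
  have hms : ∀ k, MeasurableSet (Prod.mk t ⁻¹' (SL r D T k)) := fun k =>
    measurable_prodMk_left (lev_SL hr D T k).meas
  have hneg : I ^ (-(D + 1) / (2 * D)) ≠ ∞ := by
    apply ENNReal.rpow_ne_top_of_ne_zero hI0 hI
  have h1 : ∀ k : ℤ, tw ((D + 1) / 2 * k) * ak (SL r D T k) t ≤ I ^ (-(D + 1) / (2 * D)) * J k := by
    intro k
    rw [hJ]
    simp only
    rw [← lintegral_const_mul' _ _ hneg]
    unfold ak
    rw [← setLIntegral_const]
    refine setLIntegral_mono' (hms k) fun x hx => ?_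
    have h2 : tw k ≤ VV r D (t, x) := hx.1.1
    have h3 : tw ((D + 1) / 2 * k) = (tw k) ^ ((D + 1) / 2) := by
      rw [tw_pow]; congr 1; ring
    rw [h3]
    refine (ENNReal.rpow_le_rpow h2 (by linarith)).trans (le_of_eq ?_)
    unfold VV
    simp only
    rw [← hq, ← hIdef, ENNReal.mul_rpow_of_nonneg _ _ (by linarith), ← ENNReal.rpow_mul,
      ← ENNReal.rpow_mul, mul_comm]
    congr 2
    · field_simp
    · rw [hq]; field_simp
  have h2 : ∀ k : ℤ, tw ((D + 1) * k) * (ak (SL r D T k) t) ^ 2 ≤ I ^ (-(D + 1) / D) * (J k) ^ 2 := by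
    intro k
    have e1 : tw ((D + 1) * k) * (ak (SL r D T k) t) ^ 2
        = (tw ((D + 1) / 2 * k) * ak (SL r D T k) t) ^ 2 := by
      rw [mul_pow, ← ENNReal.rpow_natCast (tw ((D + 1) / 2 * k)), tw_pow]
      congr 2
      push_cast; ring
    have e2 : I ^ (-(D + 1) / D) * (J k) ^ 2 = (I ^ (-(D + 1) / (2 * D)) * J k) ^ 2 := by
      rw [mul_pow, ← ENNReal.rpow_natCast (I ^ (-(D + 1) / (2 * D))), ← ENNReal.rpow_mul]
      congr 2
      push_cast
      field_simp
    rw [e1, e2]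
    exact pow_le_pow_left₀ zero_le (h1 k) 2
  have h3 : ∑ k ∈ 𝒦, J k ≤ I := by
    rw [hJ]
    simp only
    rw [← lintegral_biUnion_finset]
    · exact setLIntegral_le_lintegral _ _
    · intro k _ l _ hkl
      exact (SL_disjoint r D T hkl).preimage _
    · exact fun k _ => hms k
  have h4 : ∀ k, J k ≤ I := fun k => setLIntegral_le_lintegral _ _
  calc ∑ k ∈ 𝒦, tw ((D + 1) * k) * (ak (SL r D T k) t) ^ 2
      ≤ ∑ k ∈ 𝒦, I ^ (-(D + 1) / D) * (J k) ^ 2 := Finset.sum_le_sum fun k _ => h2 k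
    _ ≤ ∑ k ∈ 𝒦, I ^ (-(D + 1) / D) * (I * J k) := by
        refine Finset.sum_le_sum fun k _ => ?_
        rw [sq]
        gcongr
        exact h4 k
    _ = I ^ (-(D + 1) / D) * (I * ∑ k ∈ 𝒦, J k) := by
        rw [← Finset.mul_sum, ← Finset.mul_sum]
    _ ≤ I ^ (-(D + 1) / D) * (I * I) := by gcongr
    _ = I ^ ((D - 1) / D) := by
        have e1 : I * I = I ^ (2:ℝ) := by
          rw [show (2:ℝ) = ((2:ℕ):ℝ) by norm_num, ENNReal.rpow_natCast, sq]
        rw [e1, ← ENNReal.rpow_add _ _ hI0 hI]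
        congr 1
        field_simp
        ring

lemma claimB {r : ℝ × V → ℝ≥0∞} (hr : Measurable r) {D : ℝ} (hD : 2 ≤ D) (T t : ℝ)
    (hI : II r ((D + 1) / (D - 1)) t ≠ ∞) (hfin : ∀ z, r z ≠ ∞) (hsupp : ∀ z, z ∉ Box V T → r z = 0) :
    (II r ((D + 1) / (D - 1)) t) ^ ((D - 1) / D)
      ≤ 2 * ∑' k : ℤ, ∫⁻ x, bk (SL r D T k) k (t, x) * r (t, x) := by
  have hD1 : 0 < D - 1 := by linarith
  have hD0 : 0 < D := by linarith
  set q := (D + 1) / (D - 1) with hq
  by_cases hI0 : II r q t = 0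
  · rw [hI0, ENNReal.zero_rpow_of_pos (by positivity)]
    exact zero_le
  have hneg : (II r q t) ^ (-1 / D) ≠ ∞ := ENNReal.rpow_ne_top_of_ne_zero hI0 hI
  have hneg0 : (II r q t) ^ (-1 / D) ≠ 0 := by
    rw [Ne, ENNReal.rpow_eq_zero_iff]
    rintro (⟨h, _⟩ | ⟨h, _⟩)
    · exact hI0 h
    · exact hI h
  have e1 : (II r q t) ^ ((D - 1) / D) = ∫⁻ x, VV r D (t, x) * r (t, x) := by
    have a1 : (II r q t) ^ ((D - 1) / D) = (II r q t) ^ (-1 / D) * II r q t := by
      nth_rewrite 3 [← ENNReal.rpow_one (II r q t)]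
      rw [← ENNReal.rpow_add _ _ hI0 hI]
      congr 1
      field_simp
      ring
    rw [a1]
    nth_rewrite 2 [II]
    rw [← lintegral_const_mul' _ _ hneg]
    refine lintegral_congr fun x => ?_
    unfold VV
    simp only
    rw [← hq]
    have a2 : r (t, x) ^ q = r (t, x) ^ (2 / (D - 1)) * r (t, x) := by
      nth_rewrite 3 [← ENNReal.rpow_one (r (t, x))]
      rw [← ENNReal.rpow_add_of_nonneg _ _ (by positivity) (by norm_num)]
      congr 1
      rw [hq]
      field_simp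
      ring
    rw [a2]
    ring
  rw [e1]
  have hm : ∀ k : ℤ, AEMeasurable (fun x : V => bk (SL r D T k) k (t, x) * r (t, x)) := by
    intro k
    have h1 := (measurable_bk (lev_SL hr D T k).meas (k:ℝ)).comp (measurable_prodMk_left (x := t))
    have h2 := hr.comp (measurable_prodMk_left (x := t))
    exact (h1.mul h2).aemeasurable
  rw [← lintegral_tsum hm, ← lintegral_const_mul' _ _ (by norm_num)]
  refine lintegral_mono fun x => ?_
  simp only
  by_cases h0 : r (t, x) = 0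
  · rw [h0, mul_zero]; exact zero_le
  have hbox : (t, x) ∈ Box V T := by
    by_contra h
    exact h0 (hsupp _ h)
  have hV : VV r D (t, x) = r (t, x) ^ (2 / (D - 1)) * (II r q t) ^ (-1 / D) := rfl
  have hr1 : r (t, x) ^ (2 / (D - 1)) ≠ 0 := by
    rw [Ne, ENNReal.rpow_eq_zero_iff]
    rintro (⟨h, _⟩ | ⟨h, _⟩)
    · exact h0 h
    · exact hfin _ h
  have hr2 : r (t, x) ^ (2 / (D - 1)) ≠ ∞ := ENNReal.rpow_ne_top_of_nonneg (by positivity) (hfin _)
  obtain ⟨k, hk1, hk2⟩ := exists_level (VV r D (t, x)) (by rw [hV]; exact mul_ne_zero hr1 hneg0)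
    (by rw [hV]; exact ENNReal.mul_ne_top hr2 hneg)
  have hmem : (t, x) ∈ SL r D T k := ⟨⟨hk1, hk2⟩, hbox⟩
  have hb : bk (SL r D T k) k (t, x) = tw k := by
    unfold bk
    rw [Set.indicator_of_mem hmem]
  calc VV r D (t, x) * r (t, x) ≤ tw ((k:ℝ) + 1) * r (t, x) := by gcongr
    _ = 2 * (bk (SL r D T k) k (t, x) * r (t, x)) := by
        rw [hb, tw_add]
        have : tw 1 = 2 := by unfold tw; simp
        rw [this]; ring
    _ ≤ _ := by
        gcongr
        exact ENNReal.le_tsum (f := fun k : ℤ => bk (SL r D T k) k (t, x) * r (t, x)) k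

end Pool.Agent.U517.OS
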