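import Pool.Agent.U517.OS.Dual

/-!
The bound for nice data on a box.
-/

set_option autoImplicit false

namespace Pool.Agent.U517.OS

open MeasureTheory Complex
open scoped Real ENNReal

variable {V : Type*} [NormedAddCommGroup V] [InnerProductSpace ℝ V]
  [MeasurableSpace V] [BorelSpace V] [FiniteDimensional ℝ V]

lemma final_alg (D C n x : ℝ) (hD : 2 ≤ D) (hC : 0 < C) (hn : 1 ≤ n) (hx : 0 ≤ x)
    (h : x ^ (D + 1) ≤ 2 ^ (D + 1) * (C * n ^ D * x)) :
    x ≤ (2 ^ (D + 1) * C) ^ (1 / D) * n := by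
  rcases hx.eq_or_lt with h0 | h0
  · rw [← h0]; positivity
  have h1 : x ^ D ≤ (2 ^ (D + 1) * C) * n ^ D := by
    rw [Real.rpow_add h0, Real.rpow_one] at h
    have : x ^ D * x ≤ ((2 ^ (D + 1) * C) * n ^ D) * x := by
      calc x ^ D * x ≤ _ := h
        _ = _ := by ring
    exact le_of_mul_le_mul_right this h0
  have h2 : ((2 ^ (D + 1) * C) ^ (1 / D) * n) ^ D = (2 ^ (D + 1) * C) * n ^ D := by
    rw [Real.mul_rpow (by positivity) (by positivity), ← Real.rpow_mul (by positivity)]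
    congr 1
    rw [one_div_mul_cancel (by linarith), Real.rpow_one]
  rw [← h2] at h1
  exact (Real.rpow_le_rpow_iff hx (by positivity) (by linarith)).mp h1

lemma rho_le {ι : Type*} [Fintype ι] (F : ι → V → ℂ) (z : ℝ × V) :
    rho F z ≤ ∑ j, (ENNReal.ofReal (∫ ξ, ‖F j ξ‖)) ^ 2 := by
  unfold rho
  refine Finset.sum_le_sum fun j _ => ?_
  rw [← ofReal_norm]
  exact pow_le_pow_left₀ zero_le (ENNReal.ofReal_le_ofReal (norm_uu_le z)) 2

/-- The bound on a box. -/
theorem box_bound (hd : 2 ≤ Module.finrank ℝ V) : ∃ C : ℝ, 0 < C ∧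
    ∀ (ι : Type) [Fintype ι] (F : ι → V → ℂ), Nice F → ∀ n : ℝ, 1 ≤ n →
      (Fintype.card ι : ℝ) ≤ n → ∀ T : ℝ,
      ∫⁻ t, (II ((Box V T).indicator (rho F)) (((Module.finrank ℝ V : ℝ) + 1) /
        ((Module.finrank ℝ V : ℝ) - 1)) t) ^ (((Module.finrank ℝ V : ℝ) - 1) /
        (Module.finrank ℝ V : ℝ)) ≤ ENNReal.ofReal (C * n) := by
  obtain ⟨C, hC, h⟩ := nice_core (V := V) hd
  set D : ℝ := (Module.finrank ℝ V : ℝ) with hDdef
  have hD : 2 ≤ D := by rw [hDdef]; exact_mod_cast hd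
  have hD1 : 0 < D - 1 := by linarith
  have hD0 : 0 < D := by linarith
  refine ⟨(2 ^ (D + 1) * C) ^ (1 / D), by positivity, fun ι _ F hF n hn hcard T => ?_⟩
  set r : ℝ × V → ℝ≥0∞ := (Box V T).indicator (rho F) with hrdef
  set q : ℝ := (D + 1) / (D - 1) with hq
  have hq0 : 0 < q := by rw [hq]; positivity
  set s : ℝ := (D - 1) / D with hs
  have hs0 : 0 < s := by rw [hs]; positivity
  have mr : Measurable r := (measurable_rho hF).indicator (measurableSet_Box T)
  set c : ℝ≥0∞ := ∑ j, (ENNReal.ofReal (∫ ξ, ‖F j ξ‖)) ^ 2 with hc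
  have hcfin : c ≠ ∞ := ENNReal.sum_ne_top.mpr fun j _ => ENNReal.pow_ne_top ENNReal.ofReal_ne_top
  have hrle : ∀ z, r z ≤ c := by
    intro z
    by_cases hz : z ∈ Box V T
    · rw [hrdef, Set.indicator_of_mem hz]; exact rho_le F z
    · rw [hrdef, Set.indicator_of_notMem hz]; exact zero_le
  have hfin : ∀ z, r z ≠ ∞ := fun z => ((hrle z).trans_lt hcfin.lt_top).ne
  have hsupp : ∀ z, z ∉ Box V T → r z = 0 := fun z hz => by
    rw [hrdef, Set.indicator_of_notMem hz]
  have hrrho : ∀ z, r z ≤ rho F z := fun z => Set.indicator_le_self _ _ z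
  set cI : ℝ≥0∞ := c ^ q * volume (Metric.closedBall (0:V) T) with hcI
  have hcIfin : cI ≠ ∞ := ENNReal.mul_ne_top (ENNReal.rpow_ne_top_of_nonneg hq0.le hcfin)
    measure_closedBall_lt_top.ne
  have hIle : ∀ t, II r q t ≤ (Set.Icc (-T) T).indicator (fun _ => cI) t := by
    intro t
    unfold II
    have h1 : ∀ x, r (t, x) ^ q ≤ (Metric.closedBall (0:V) T).indicator (fun _ =>
        (Set.Icc (-T) T).indicator (fun _ => c ^ q) t) x := by
      intro x
      by_cases hz : (t, x) ∈ Box V T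
      · rw [Set.indicator_of_mem hz.2, Set.indicator_of_mem hz.1]
        exact ENNReal.rpow_le_rpow (hrle _) hq0.le
      · rw [hsupp _ hz, ENNReal.zero_rpow_of_pos hq0]
        exact zero_le
    refine (lintegral_mono h1).trans (le_of_eq ?_)
    rw [lintegral_indicator measurableSet_closedBall, lintegral_const, Measure.restrict_apply_univ]
    by_cases ht : t ∈ Set.Icc (-T) T
    · rw [Set.indicator_of_mem ht, Set.indicator_of_mem ht]
    · rw [Set.indicator_of_notMem ht, Set.indicator_of_notMem ht, zero_mul]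
  have hIfin : ∀ t, II r q t ≠ ∞ := by
    intro t
    refine ((hIle t).trans_lt ?_).ne
    refine lt_of_le_of_lt (Set.indicator_le_self' (fun _ _ => zero_le) t) hcIfin.lt_top
  set X : ℝ≥0∞ := ∫⁻ t, (II r q t) ^ s with hX
  have hXfin : X ≠ ∞ := by
    have h1 : ∀ t, (II r q t) ^ s ≤ (Set.Icc (-T) T).indicator (fun _ => cI ^ s) t := by
      intro t
      by_cases ht : t ∈ Set.Icc (-T) T
      · rw [Set.indicator_of_mem ht]
        have := hIle t
        rw [Set.indicator_of_mem ht] at this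
        exact ENNReal.rpow_le_rpow this hs0.le
      · rw [Set.indicator_of_notMem ht]
        have := hIle t
        rw [Set.indicator_of_notMem ht] at this
        rw [le_antisymm this zero_le, ENNReal.zero_rpow_of_pos hs0]
    refine ((lintegral_mono h1).trans_lt ?_).ne
    rw [lintegral_indicator measurableSet_Icc, lintegral_const, Measure.restrict_apply_univ]
    exact ENNReal.mul_lt_top (ENNReal.rpow_lt_top_of_nonneg hs0.le hcIfin) measure_Icc_lt_top
  have mbr : ∀ k : ℤ, Measurable (fun z : ℝ × V => bk (SL r D T k) k z * r z) := fun k =>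
    (measurable_bk (lev_SL mr D T k).meas _).mul mr
  have hXle : X ≤ 2 * ∑' k : ℤ, ∫⁻ t, Mk F (SL r D T k) k t := by
    calc X ≤ ∫⁻ t, 2 * ∑' k : ℤ, ∫⁻ x, bk (SL r D T k) k (t, x) * r (t, x) :=
          lintegral_mono fun t => claimB mr hD T t (hIfin t) hfin hsupp
      _ = 2 * ∑' k : ℤ, ∫⁻ t, ∫⁻ x, bk (SL r D T k) k (t, x) * r (t, x) := by
          rw [lintegral_const_mul' _ _ (by norm_num), lintegral_tsum]
          intro k
          exact ((mbr k).lintegral_prod_right').aemeasurable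
      _ ≤ _ := by
          gcongr with k t
          unfold Mk
          refine lintegral_mono fun x => ?_
          exact mul_le_mul_right (hrrho _) _
  have hMle : ∑' k : ℤ, ∫⁻ t, Mk F (SL r D T k) k t
      ≤ (ENNReal.ofReal (C * n ^ D) * X) ^ (1 / (D + 1)) := by
    rw [ENNReal.tsum_eq_iSup_sum]
    refine iSup_le fun 𝒦 => ?_
    have h1 := h ι F hF 𝒦 (fun k => SL r D T k) (fun k => lev_SL mr D T k) n hn hcard
    have h2 : ∑ k ∈ 𝒦, tw ((D + 1) * k) * ∫⁻ t, ak (SL r D T k) t ^ 2 ≤ X := by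
      have h3 : ∀ k ∈ 𝒦, tw ((D + 1) * k) * ∫⁻ t, ak (SL r D T k) t ^ 2
          = ∫⁻ t, tw ((D + 1) * k) * ak (SL r D T k) t ^ 2 := by
        intro k _
        rw [lintegral_const_mul' _ _ (tw_ne_top _)]
      have h4 : ∀ k ∈ 𝒦, Measurable (fun t => tw ((D + 1) * k) * ak (SL r D T k) t ^ 2) :=
        fun k _ => ((measurable_ak (lev_SL mr D T k).meas).pow_const 2).const_mul _
      rw [Finset.sum_congr rfl h3, ← lintegral_finsetSum _ h4]
      exact lintegral_mono fun t => claimA mr hD T t (hIfin t) 𝒦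
    have h5 : (∑ k ∈ 𝒦, ∫⁻ t, Mk F (SL r D T k) k t) ^ (D + 1)
        ≤ ENNReal.ofReal (C * n ^ D) * X := h1.trans (mul_le_mul_right h2 _)
    rw [one_div, ENNReal.le_rpow_inv_iff (by linarith)]
    exact h5
  have hfinal : X ^ (D + 1) ≤ 2 ^ (D + 1) * (ENNReal.ofReal (C * n ^ D) * X) := by
    have h1 : X ≤ 2 * (ENNReal.ofReal (C * n ^ D) * X) ^ (1 / (D + 1)) :=
      hXle.trans (mul_le_mul_right hMle _)
    calc X ^ (D + 1) ≤ (2 * (ENNReal.ofReal (C * n ^ D) * X) ^ (1 / (D + 1))) ^ (D + 1) :=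
          ENNReal.rpow_le_rpow h1 (by linarith)
      _ = _ := by
          rw [ENNReal.mul_rpow_of_nonneg _ _ (by linarith), ← ENNReal.rpow_mul,
            one_div_mul_cancel (by linarith), ENNReal.rpow_one]
  have hreal : X.toReal ^ (D + 1) ≤ 2 ^ (D + 1) * (C * n ^ D * X.toReal) := by
    have h1 := ENNReal.toReal_mono (by
      exact ENNReal.mul_ne_top (ENNReal.rpow_ne_top_of_nonneg (by linarith) (by norm_num))
        (ENNReal.mul_ne_top ENNReal.ofReal_ne_top hXfin)) hfinal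
    rw [← ENNReal.toReal_rpow, ENNReal.toReal_mul, ENNReal.toReal_mul, ← ENNReal.toReal_rpow,
      ENNReal.toReal_ofReal (by positivity)] at h1
    simpa using h1
  have h6 := final_alg D C n X.toReal hD hC hn ENNReal.toReal_nonneg hreal
  rw [← ENNReal.ofReal_toReal hXfin]
  exact ENNReal.ofReal_le_ofReal h6

end Pool.Agent.U517.OS
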