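import Pool.Agent.U517.OS.Kern
import Pool.Agent.H153R4.Pl

/-!
Free Schrödinger evolutions of data with integrable Fourier transform.
-/

set_option autoImplicit false

namespace Pool.Agent.U517.OS

open MeasureTheory Complex
open scoped Real ENNReal ComplexConjugate RealInnerProductSpace FourierTransform

variable {V : Type*} [NormedAddCommGroup V] [InnerProductSpace ℝ V]
  [MeasurableSpace V] [BorelSpace V] [FiniteDimensional ℝ V]

/-- the evolution with initial Fourier transform `F` -/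
noncomputable def uu (F : V → ℂ) (z : ℝ × V) : ℂ := ∫ ξ, F ξ * ex z ξ

lemma aesm_mul_ex {F : V → ℂ} (hF : Integrable F) (z : ℝ × V) :
    AEStronglyMeasurable (fun ξ => F ξ * ex z ξ) volume := by
  apply hF.aestronglyMeasurable.mul
  apply Continuous.aestronglyMeasurable
  unfold ex
  fun_prop

lemma integrable_mul_ex {F : V → ℂ} (hF : Integrable F) (z : ℝ × V) :
    Integrable (fun ξ => F ξ * ex z ξ) := by
  refine hF.norm.mono' (aesm_mul_ex hF z) (Filter.Eventually.of_forall fun ξ => ?_)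
  rw [norm_mul, norm_ex, mul_one]

lemma continuous_uu {F : V → ℂ} (hF : Integrable F) : Continuous (uu F) := by
  unfold uu
  apply continuous_of_dominated (bound := fun ξ => ‖F ξ‖)
  · exact fun z => aesm_mul_ex hF z
  · intro z
    refine Filter.Eventually.of_forall fun ξ => ?_
    rw [norm_mul, norm_ex, mul_one]
  · exact hF.norm
  · refine Filter.Eventually.of_forall fun ξ => ?_
    unfold ex
    fun_prop

lemma norm_uu_le {F : V → ℂ} (z : ℝ × V) : ‖uu F z‖ ≤ ∫ ξ, ‖F ξ‖ := by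
  unfold uu
  refine (norm_integral_le_integral_norm _).trans (le_of_eq ?_)
  refine integral_congr_ae (Filter.Eventually.of_forall fun ξ => ?_)
  simp [norm_mul, norm_ex]

lemma uu_sum {ι : Type*} [Fintype ι] (F : ι → V → ℂ) (hF : ∀ j, Integrable (F j)) (c : ι → ℂ)
    (z : ℝ × V) : uu (fun ξ => ∑ j, c j * F j ξ) z = ∑ j, c j * uu (F j) z := by
  unfold uu
  have h1 : ∀ ξ, (∑ j, c j * F j ξ) * ex z ξ = ∑ j, c j * (F j ξ * ex z ξ) := by
    intro ξ
    rw [Finset.sum_mul]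
    refine Finset.sum_congr rfl fun j _ => by ring
  simp_rw [h1]
  rw [integral_finsetSum _ (fun j _ => (integrable_mul_ex (hF j) z).const_mul _)]
  simp_rw [integral_const_mul]

lemma plancherel_uu {F : V → ℂ} (h1 : Integrable F) (h2 : MemLp F 2) (t : ℝ) :
    ∫⁻ x, ‖uu F (t, x)‖ₑ ^ 2 = ∫⁻ ξ, ‖F ξ‖ₑ ^ 2 := by
  set g : V → ℂ := fun ξ => F ξ * ex (t, (0 : V)) ξ with hg
  have hg1 : Integrable g := integrable_mul_ex h1 _
  have hgn : ∀ ξ, ‖g ξ‖ = ‖F ξ‖ := by
    intro ξ; rw [hg]; simp [norm_mul, norm_ex]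
  have hg2 : MemLp g 2 := h2.congr_norm hg1.aestronglyMeasurable
    (Filter.Eventually.of_forall fun ξ => (hgn ξ).symm)
  have h3 : ∀ x, uu F (t, x) = 𝓕 g (-x) := by
    intro x
    unfold uu
    rw [Real.fourier_eq' g (-x)]
    refine integral_congr_ae (Filter.Eventually.of_forall fun ξ => ?_)
    simp only [hg, smul_eq_mul]
    unfold ex
    have e1 : Complex.exp (((2 * π * ⟪x, ξ⟫ - 4 * π ^ 2 * t * ‖ξ‖ ^ 2 : ℝ) : ℂ) * I)
        = Complex.exp (((-2 * π * ⟪ξ, -x⟫ : ℝ) : ℂ) * I)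
          * Complex.exp (((2 * π * ⟪(0:V), ξ⟫ - 4 * π ^ 2 * t * ‖ξ‖ ^ 2 : ℝ) : ℂ) * I) := by
      rw [← Complex.exp_add]
      congr 1
      rw [inner_neg_right, inner_zero_left, real_inner_comm x ξ]
      push_cast
      ring
    rw [e1]
    ring
  simp_rw [h3]
  rw [lintegral_neg_eq_self (fun x => ‖𝓕 g x‖ₑ ^ 2), Pool.Agent.H153R4.plancherel g hg1 hg2]
  refine lintegral_congr fun ξ => ?_
  rw [← ofReal_norm, ← ofReal_norm, hgn]

/-- The families of data we work with. -/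
structure Nice {ι : Type*} [Fintype ι] (F : ι → V → ℂ) : Prop where
  int : ∀ j, Integrable (F j)
  l2 : ∀ j, MemLp (F j) 2
  so : ∀ c : ι → ℂ, ∫⁻ ξ, ‖∑ j, c j * F j ξ‖ₑ ^ 2 ≤ ∑ j, ‖c j‖ₑ ^ 2

variable {ι : Type*} [Fintype ι] {F : ι → V → ℂ}

lemma Nice.slice (h : Nice F) (t : ℝ) (c : ι → ℂ) :
    ∫⁻ x, ‖∑ j, c j * uu (F j) (t, x)‖ₑ ^ 2 ≤ ∑ j, ‖c j‖ₑ ^ 2 := by
  have h1 : ∀ x, ∑ j, c j * uu (F j) (t, x) = uu (fun ξ => ∑ j, c j * F j ξ) (t, x) := by
    intro x
    rw [uu_sum F h.int c]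
  simp_rw [h1]
  rw [plancherel_uu]
  · exact h.so c
  · exact integrable_finsetSum _ fun j _ => (h.int j).const_mul _
  · exact memLp_finsetSum _ fun j _ => (h.l2 j).const_mul _

end Pool.Agent.U517.OS
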