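import Pool.Agent.U517.OS.Trunc

/-!
The bound for finitely many orthonormal functions.
-/

set_option autoImplicit false

namespace Pool.Agent.U517.OS

open MeasureTheory Complex Filter
open scoped Real ENNReal ComplexConjugate RealInnerProductSpace FourierTransform Topology

variable {V : Type*} [NormedAddCommGroup V] [InnerProductSpace ℝ V]
  [MeasurableSpace V] [BorelSpace V] [FiniteDimensional ℝ V]

lemma liminf_rpow (u : ℕ → ℝ≥0∞) (s : ℝ) (hs : 0 < s) :
    (liminf u atTop) ^ s = liminf (fun n => u n ^ s) atTop := by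
  have h : liminf (fun n => ENNReal.orderIsoRpow s hs (u n)) atTop =
      ENNReal.orderIsoRpow s hs (liminf u atTop) := by
    refine (OrderIso.liminf_apply (ENNReal.orderIsoRpow s hs) ?_ ?_ ?_ ?_).symm <;> isBoundedDefault
  exact h.symm

/-- The bound for finitely many orthonormal functions. -/
theorem fin_bound (hd : 2 ≤ Module.finrank ℝ V) : ∃ C : ℝ, 0 < C ∧
    ∀ (ι : Type) [Fintype ι] (f : ι → Lp ℂ 2 (volume : Measure V)), Orthonormal ℂ f →
      ∀ n : ℝ, 1 ≤ n → (Fintype.card ι : ℝ) ≤ n →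
      ∫⁻ t, (∫⁻ x, (∑ j, dens (f j) (t, x)) ^ (((Module.finrank ℝ V : ℝ) + 1) /
        ((Module.finrank ℝ V : ℝ) - 1))) ^ (((Module.finrank ℝ V : ℝ) - 1) /
        (Module.finrank ℝ V : ℝ)) ≤ ENNReal.ofReal (C * n) := by
  obtain ⟨C, hC, h⟩ := box_bound (V := V) hd
  set D : ℝ := (Module.finrank ℝ V : ℝ) with hDdef
  have hD : 2 ≤ D := by rw [hDdef]; exact_mod_cast hd
  have hD1 : 0 < D - 1 := by linarith
  have hD0 : 0 < D := by linarith
  refine ⟨C, hC, fun ι _ f hf n hn hcard => ?_⟩
  set q : ℝ := (D + 1) / (D - 1) with hq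
  have hq0 : 0 < q := by rw [hq]; positivity
  set s : ℝ := (D - 1) / D with hs
  have hs0 : 0 < s := by rw [hs]; positivity
  set M : ℕ → ℕ := fun l => Finset.univ.sup fun j => mm (f j) l with hM
  have hMj : ∀ j l, mm (f j) l ≤ M l := fun j l =>
    Finset.le_sup (f := fun j => mm (f j) l) (Finset.mem_univ j)
  set F : ℕ → ι → V → ℂ := fun l j => tr (M l) (𝓕 (f j) : Lp ℂ 2 (volume : Measure V)) with hF
  have nF : ∀ l, Nice (F l) := fun l => nice_tr hf (M l)
  set r : ℕ → ℝ × V → ℝ≥0∞ := fun l => (Box V l).indicator (rho (F l)) with hr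
  have mr : ∀ l, Measurable (r l) := fun l => (measurable_rho (nF l)).indicator (measurableSet_Box _)
  have hlim : ∀ t, ∀ᵐ x : V, (∑ j, dens (f j) (t, x)) ^ q = liminf (fun l => r l (t, x) ^ q) atTop := by
    intro t
    have h1 : ∀ᵐ x : V, ∀ j, Tendsto (fun l => us (M l) (f j) (t, x)) atTop (𝓝 (schro t (f j) x)) := by
      rw [ae_all_iff]
      exact fun j => us_ae_tendsto (f j) M (hMj j) t
    have h2 : ∀ᵐ x : V, ∀ j, dens (f j) (t, x) = ‖schro t (f j) x‖ₑ ^ 2 := by
      rw [ae_all_iff]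
      exact fun j => dens_ae (f j) t
    filter_upwards [h1, h2] with x hx1 hx2
    simp_rw [hx2]
    have h3 : Tendsto (fun l => rho (F l) (t, x)) atTop (𝓝 (∑ j, ‖schro t (f j) x‖ₑ ^ 2)) := by
      unfold rho
      apply tendsto_finsetSum
      intro j _
      exact ((ENNReal.continuous_pow 2).tendsto _).comp (hx1 j).enorm
    have h4 : Tendsto (fun l => r l (t, x)) atTop (𝓝 (∑ j, ‖schro t (f j) x‖ₑ ^ 2)) := by
      apply h3.congr'
      obtain ⟨N, hN⟩ := exists_nat_ge (max |t| ‖x‖)
      filter_upwards [eventually_ge_atTop N] with l hl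
      have hl' : (N:ℝ) ≤ l := by exact_mod_cast hl
      have : (t, x) ∈ Box V l := by
        refine ⟨?_, ?_⟩
        · rw [Set.mem_Icc, ← abs_le]
          exact (le_max_left _ _).trans (hN.trans hl')
        · rw [mem_closedBall_zero_iff]
          exact (le_max_right _ _).trans (hN.trans hl')
      rw [hr]
      simp only
      rw [Set.indicator_of_mem this]
    exact (((ENNReal.continuous_rpow_const (y := q)).tendsto _).comp h4).liminf_eq.symm
  have hpt : ∀ t, (∫⁻ x, (∑ j, dens (f j) (t, x)) ^ q) ^ s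
      ≤ liminf (fun l => (II (r l) q t) ^ s) atTop := by
    intro t
    rw [← liminf_rpow _ _ hs0]
    apply ENNReal.rpow_le_rpow _ hs0.le
    rw [lintegral_congr_ae (hlim t)]
    unfold II
    apply lintegral_liminf_le
    intro l
    exact ((mr l).comp (measurable_prodMk_left (x := t))).pow_const q
  calc ∫⁻ t, (∫⁻ x, (∑ j, dens (f j) (t, x)) ^ q) ^ s
      ≤ ∫⁻ t, liminf (fun l => (II (r l) q t) ^ s) atTop := lintegral_mono hpt
    _ ≤ liminf (fun l => ∫⁻ t, (II (r l) q t) ^ s) atTop := by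
        apply lintegral_liminf_le
        intro l
        exact (measurable_II (mr l) q).pow_const s
    _ ≤ ENNReal.ofReal (C * n) := by
        refine Filter.liminf_le_of_frequently_le' (Filter.Frequently.of_forall fun l => ?_)
        exact h ι (F l) (nF l) n hn hcard l

end Pool.Agent.U517.OS
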