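import Pool.Agent.U517.OS.Core2

/-!
Mixed norms, Minkowski's inequality for countable sums, and the Lorentz summation.
-/

set_option autoImplicit false

namespace Pool.Agent.U517.OS

open MeasureTheory Filter
open scoped ENNReal

/-- finite Minkowski inequality -/
lemma mink_fin {α κ : Type*} [MeasurableSpace α] (μ : Measure α) (q : ℝ) (hq : 1 ≤ q)
    (g : κ → α → ℝ≥0∞) (hg : ∀ k, Measurable (g k)) (A : Finset κ) :
    (∫⁻ x, (∑ k ∈ A, g k x) ^ q ∂μ) ^ (1 / q) ≤ ∑ k ∈ A, (∫⁻ x, (g k x) ^ q ∂μ) ^ (1 / q) := by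
  classical
  have hq0 : 0 < q := by linarith
  induction A using Finset.induction_on with
  | empty =>
    simp only [Finset.sum_empty]
    rw [ENNReal.zero_rpow_of_pos hq0, lintegral_zero, ENNReal.zero_rpow_of_pos (by positivity)]
  | insert k A hk ih =>
    rw [Finset.sum_insert hk]
    have h1 := ENNReal.lintegral_Lp_add_le (μ := μ) (p := q) (f := g k) (g := fun x => ∑ k ∈ A, g k x)
      (hg k).aemeasurable (Finset.measurable_fun_sum _ fun k _ => hg k).aemeasurable hq
    have h2 : ∀ x, ∑ l ∈ insert k A, g l x = (g k + fun x => ∑ k ∈ A, g k x) x := by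
      intro x
      rw [Finset.sum_insert hk]; rfl
    simp_rw [h2]
    exact h1.trans (by gcongr)

/-- Minkowski's inequality for countable sums. -/
lemma mink {α κ : Type*} [MeasurableSpace α] [Countable κ] (μ : Measure α) (q : ℝ) (hq : 1 ≤ q)
    (g : κ → α → ℝ≥0∞) (hg : ∀ k, Measurable (g k)) :
    (∫⁻ x, (∑' k, g k x) ^ q ∂μ) ^ (1 / q) ≤ ∑' k, (∫⁻ x, (g k x) ^ q ∂μ) ^ (1 / q) := by
  have hq0 : 0 < q := by linarith
  rw [one_div, ENNReal.rpow_inv_le_iff hq0]
  have h1 : ∀ x, (∑' k, g k x) ^ q = ⨆ A : Finset κ, (∑ k ∈ A, g k x) ^ q := by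
    intro x
    rw [ENNReal.tsum_eq_iSup_sum]
    exact (ENNReal.orderIsoRpow q hq0).map_iSup _
  simp_rw [h1]
  rw [lintegral_iSup_directed]
  · refine iSup_le fun A => ?_
    rw [← ENNReal.rpow_inv_le_iff hq0, ← one_div]
    exact (mink_fin μ q hq g hg A).trans (ENNReal.sum_le_tsum _)
  · intro A
    exact ((Finset.measurable_fun_sum _ fun k _ => hg k).pow_const q).aemeasurable
  · apply Monotone.directed_le
    intro A B hAB x
    exact ENNReal.rpow_le_rpow (Finset.sum_le_sum_of_subset hAB) hq0.le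

variable {V : Type*} [MeasureSpace V] [SFinite (volume : Measure V)]

/-- the norm in the space variable -/
noncomputable def nq (q : ℝ) (g : ℝ × V → ℝ≥0∞) (t : ℝ) : ℝ≥0∞ := (∫⁻ x, g (t, x) ^ q) ^ (1 / q)

/-- the mixed norm -/
noncomputable def NN (p q : ℝ) (g : ℝ × V → ℝ≥0∞) : ℝ≥0∞ := (∫⁻ t, (nq q g t) ^ p) ^ (1 / p)

lemma measurable_nq (q : ℝ) {g : ℝ × V → ℝ≥0∞} (hg : Measurable g) : Measurable (nq q g) := by
  unfold nq
  exact ((hg.pow_const q).lintegral_prod_right').pow_const _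

omit [SFinite (volume : Measure V)] in
lemma NN_mono (p q : ℝ) (hp : 0 < p) (hq : 0 < q) {g h : ℝ × V → ℝ≥0∞}
    (hgh : ∀ t, ∀ᵐ x : V, g (t, x) ≤ h (t, x)) : NN p q g ≤ NN p q h := by
  unfold NN nq
  apply ENNReal.rpow_le_rpow _ (by positivity)
  refine lintegral_mono fun t => ?_
  apply ENNReal.rpow_le_rpow _ hp.le
  apply ENNReal.rpow_le_rpow _ (by positivity)
  refine lintegral_mono_ae ?_
  filter_upwards [hgh t] with x hx
  exact ENNReal.rpow_le_rpow hx hq.le

lemma NN_tsum {κ : Type*} [Countable κ] (p q : ℝ) (hp : 1 ≤ p) (hq : 1 ≤ q)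
    (g : κ → ℝ × V → ℝ≥0∞) (hg : ∀ k, Measurable (g k)) :
    NN p q (fun z => ∑' k, g k z) ≤ ∑' k, NN p q (g k) := by
  have h1 : ∀ t, nq q (fun z => ∑' k, g k z) t ≤ ∑' k, nq q (g k) t := by
    intro t
    unfold nq
    exact mink volume q hq (fun k x => g k (t, x)) (fun k => (hg k).comp measurable_prodMk_left)
  unfold NN
  calc (∫⁻ t, (nq q (fun z => ∑' k, g k z) t) ^ p) ^ (1 / p)
      ≤ (∫⁻ t, (∑' k, nq q (g k) t) ^ p) ^ (1 / p) := by
        apply ENNReal.rpow_le_rpow _ (by positivity)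
        refine lintegral_mono fun t => ?_
        exact ENNReal.rpow_le_rpow (h1 t) (by linarith)
    _ ≤ _ := mink volume p hp (fun k => nq q (g k)) (fun k => measurable_nq q (hg k))

omit [SFinite (volume : Measure V)] in
lemma NN_const_mul (p q : ℝ) (hp : 0 < p) (hq : 0 < q) (c : ℝ≥0∞) (hc : c ≠ ∞)
    (g : ℝ × V → ℝ≥0∞) : NN p q (fun z => c * g z) = c * NN p q g := by
  have h1 : ∀ t, nq q (fun z => c * g z) t = c * nq q g t := by
    intro t
    unfold nq
    have : ∀ x, (c * g (t, x)) ^ q = c ^ q * g (t, x) ^ q := fun x =>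
      ENNReal.mul_rpow_of_nonneg _ _ hq.le
    simp_rw [this]
    rw [lintegral_const_mul' _ _ (ENNReal.rpow_ne_top_of_nonneg hq.le hc),
      ENNReal.mul_rpow_of_nonneg _ _ (by positivity), ← ENNReal.rpow_mul,
      mul_one_div_cancel hq.ne', ENNReal.rpow_one]
  unfold NN
  simp_rw [h1]
  have : ∀ t, (c * nq q g t) ^ p = c ^ p * (nq q g t) ^ p := fun x =>
      ENNReal.mul_rpow_of_nonneg _ _ hp.le
  simp_rw [this]
  rw [lintegral_const_mul' _ _ (ENNReal.rpow_ne_top_of_nonneg hp.le hc),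
    ENNReal.mul_rpow_of_nonneg _ _ (by positivity), ← ENNReal.rpow_mul,
    mul_one_div_cancel hp.ne', ENNReal.rpow_one]

/-! ### the Lorentz norm -/

/-- decreasing rearrangement: `rearr a n` is the `(n+1)`-st largest of the numbers `|a j|` -/
noncomputable def rearr {ι : Type*} (a : ι → ℂ) (n : ℕ) : ℝ≥0∞ :=
  sInf {s : ℝ≥0∞ | {j | s < ‖a j‖ₑ}.encard ≤ n}

/-- The Lorentz norm `∑_{n ≥ 1} n^{1/α-1} a*_n` of `ℓ^{α,1}`. -/
noncomputable def lorentz {ι : Type*} (α : ℝ) (a : ι → ℂ) : ℝ≥0∞ :=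
  ∑' n : ℕ, ((n : ℝ≥0∞) + 1) ^ (1 / α - 1) * rearr a n

lemma tsum_Iic (m : ℤ) : ∑' k : ℤ, (if k ≤ m then tw k else 0) = 2 * tw m := by
  have hinj : Function.Injective (fun i : ℕ => m - (i:ℤ)) := by
    intro i j h
    simp only at h
    omega
  rw [← hinj.tsum_eq]
  · have h1 : ∀ i : ℕ, (if m - (i:ℤ) ≤ m then tw ((m - (i:ℤ) : ℤ)) else 0) = tw m * (2⁻¹ : ℝ≥0∞) ^ i := by
      intro i
      rw [if_pos (by omega)]
      push_cast
      rw [sub_eq_add_neg, tw_add]
      congr 1
      unfold tw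
      rw [Real.rpow_neg (by norm_num), Real.rpow_natCast, ENNReal.ofReal_inv_of_pos (by positivity),
        ENNReal.ofReal_pow (by norm_num), ENNReal.inv_pow]
      norm_num
    simp_rw [h1]
    rw [ENNReal.tsum_mul_left, ENNReal.tsum_geometric, mul_comm]
    congr 1
    rw [ENNReal.one_sub_inv_two, inv_inv]
  · intro k hk
    rw [Function.mem_support] at hk
    have : k ≤ m := by
      by_contra h
      rw [if_neg h] at hk
      exact hk rfl
    refine ⟨(m - k).toNat, ?_⟩
    simp only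
    omega

lemma exists_level' (v : ℝ≥0∞) (h0 : v ≠ 0) (h1 : v ≠ ∞) :
    ∃ k : ℤ, tw k ≤ v ∧ v < tw ((k:ℝ) + 1) := by
  have hv : 0 < v.toReal := ENNReal.toReal_pos h0 h1
  obtain ⟨k, hk1, hk2⟩ := exists_mem_Ico_zpow hv (by norm_num : (1:ℝ) < 2)
  refine ⟨k, ?_, ?_⟩
  · unfold tw
    rw [ENNReal.ofReal_le_iff_le_toReal h1, Real.rpow_intCast]
    exact hk1
  · unfold tw
    rw [ENNReal.lt_ofReal_iff_toReal_lt h1]
    have : ((k:ℝ) + 1) = ((k + 1 : ℤ) : ℝ) := by push_cast; ring
    rw [this, Real.rpow_intCast]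
    exact hk2

lemma tsum_levels_le (v : ℝ≥0∞) : ∑' k : ℤ, (if tw k ≤ v then tw k else 0) ≤ 2 * v := by
  rcases eq_or_ne v ∞ with h | h
  · rw [h, ENNReal.mul_top (by norm_num)]; exact le_top
  rcases eq_or_ne v 0 with h0 | h0
  · have : ∀ k : ℤ, (if tw k ≤ v then tw k else 0) = 0 := by
      intro k
      rw [if_neg]
      rw [h0]
      exact fun h => tw_ne_zero _ (le_antisymm h zero_le)
    simp_rw [this]
    simp
  obtain ⟨m, h1, h2⟩ := exists_level' v h0 h
  calc ∑' k : ℤ, (if tw k ≤ v then tw k else 0) ≤ ∑' k : ℤ, (if k ≤ m then tw k else 0) := by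
        refine ENNReal.tsum_le_tsum fun k => ?_
        by_cases hk : tw k ≤ v
        · have : k ≤ m := by
            by_contra hlt
            have h3 : tw ((m:ℝ) + 1) ≤ tw k := by
              apply tw_mono
              have : m + 1 ≤ k := by omega
              exact_mod_cast this
            exact absurd (h2.trans_le (h3.trans hk)) (lt_irrefl _)
          rw [if_pos hk, if_pos this]
        · rw [if_neg hk]; exact zero_le
    _ = 2 * tw m := tsum_Iic m
    _ ≤ 2 * v := by gcongr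

lemma le_rearr {ι : Type*} (a : ι → ℂ) (n : ℕ) (s : ℝ≥0∞) (h : (n : ℕ∞) < {j | s < ‖a j‖ₑ}.encard) :
    s ≤ rearr a n := by
  unfold rearr
  apply le_sInf
  intro s' hs'
  by_contra hlt
  push Not at hlt
  have h1 : {j | s < ‖a j‖ₑ} ⊆ {j | s' < ‖a j‖ₑ} := fun j hj => hlt.trans hj
  exact absurd (h.trans_le ((Set.encard_le_encard h1).trans hs')) (lt_irrefl _)

lemma pow_le_fin (p : ℝ) (hp : 1 ≤ p) (N : ℕ∞) (m : ℕ) (hm : (m:ℕ∞) ≤ N) :
    (m : ℝ≥0∞) ^ (1 / p) ≤ ∑' n : ℕ, (if (n:ℕ∞) < N then ((n : ℝ≥0∞) + 1) ^ (1 / p - 1) else 0) := by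
  have hp0 : 0 < p := by linarith
  have hexp : 1 / p - 1 ≤ 0 := by
    rw [sub_nonpos, div_le_one hp0]; exact hp
  rcases Nat.eq_zero_or_pos m with h0 | h0
  · rw [h0, Nat.cast_zero, ENNReal.zero_rpow_of_pos (by positivity)]
    exact zero_le
  have hm0 : (m : ℝ≥0∞) ≠ 0 := by exact_mod_cast h0.ne'
  have h1 : (m : ℝ≥0∞) ^ (1 / p) = ∑ n ∈ Finset.range m, (m : ℝ≥0∞) ^ (1 / p - 1) := by
    rw [Finset.sum_const, Finset.card_range, nsmul_eq_mul]
    nth_rewrite 2 [← ENNReal.rpow_one (m : ℝ≥0∞)]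
    rw [← ENNReal.rpow_add _ _ hm0 (ENNReal.natCast_ne_top m)]
    congr 1
    ring
  rw [h1]
  refine le_trans ?_ (ENNReal.sum_le_tsum (Finset.range m))
  refine Finset.sum_le_sum fun n hn => ?_
  have hn' : n < m := Finset.mem_range.mp hn
  have h2 : (n:ℕ∞) < N := lt_of_lt_of_le (by exact_mod_cast hn') hm
  rw [if_pos h2]
  rw [← neg_neg (1 / p - 1), ENNReal.rpow_neg, ENNReal.rpow_neg (_ + 1)]
  apply ENNReal.inv_le_inv.mpr
  apply ENNReal.rpow_le_rpow _ (by linarith)
  exact_mod_cast hn'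

lemma pow_le_sum (p : ℝ) (hp : 1 ≤ p) (N : ℕ∞) :
    (N : ℝ≥0∞) ^ (1 / p) ≤ ∑' n : ℕ, (if (n:ℕ∞) < N then ((n : ℝ≥0∞) + 1) ^ (1 / p - 1) else 0) := by
  have hp0 : 0 < p := by linarith
  rcases eq_or_ne N ⊤ with h | h
  · by_contra hlt
    push Not at hlt
    set R := ∑' n : ℕ, (if (n:ℕ∞) < N then ((n : ℝ≥0∞) + 1) ^ (1 / p - 1) else 0) with hR
    have hRtop : R ≠ ∞ := (hlt.trans_le le_top).ne
    obtain ⟨m, hm⟩ := ENNReal.exists_nat_gt (ENNReal.rpow_ne_top_of_nonneg hp0.le hRtop)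
    have h1 := pow_le_fin p hp N m (by rw [h]; exact le_top)
    rw [← hR, one_div, ENNReal.rpow_inv_le_iff hp0] at h1
    exact absurd (hm.trans_le h1) (lt_irrefl _)
  · obtain ⟨m, rfl⟩ := ENat.ne_top_iff_exists.mp h
    exact pow_le_fin p hp _ m le_rfl

/-- The Lorentz summation. -/
theorem lorentz_sum {ι : Type} [Countable ι] (p q : ℝ) (hp : 1 ≤ p) (hq : 1 ≤ q)
    (w : ι → ℝ × V → ℝ≥0∞) (hw : ∀ j, Measurable (w j)) (C : ℝ≥0∞)
    (hfin : ∀ J : Finset ι, NN p q (fun z => ∑ j ∈ J, w j z) ≤ C * (J.card : ℝ≥0∞) ^ (1 / p))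
    (a : ι → ℂ) : NN p q (fun z => ∑' j, ‖a j‖ₑ * w j z) ≤ 8 * C * lorentz p a := by
  classical
  have hp0 : 0 < p := by linarith
  have hq0 : 0 < q := by linarith
  set J : ℤ → Set ι := fun k => {j | tw k < ‖a j‖ₑ} with hJ
  set R : ℤ → ℝ × V → ℝ≥0∞ := fun k z => ∑' j, (if j ∈ J k then w j z else 0) with hR
  have mR : ∀ k, Measurable (R k) := by
    intro k
    apply Measurable.ennreal_tsum
    intro j
    by_cases h : j ∈ J k
    · simp only [h, if_true]; exact hw j
    · simp only [h, if_false]; exact measurable_const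
  have hb : ∀ j, ‖a j‖ₑ ≤ 4 * ∑' k : ℤ, (if j ∈ J k then tw k else 0) := by
    intro j
    rcases eq_or_ne ‖a j‖ₑ 0 with h0 | h0
    · exact h0.le.trans zero_le
    obtain ⟨m, h1, h2⟩ := exists_level' ‖a j‖ₑ h0 enorm_ne_top
    have hmem : j ∈ J (m - 1) := by
      rw [hJ]
      change tw ((m - 1 : ℤ) : ℝ) < ‖a j‖ₑ
      refine lt_of_lt_of_le ?_ h1
      unfold tw
      rw [ENNReal.ofReal_lt_ofReal_iff (by positivity)]
      apply Real.rpow_lt_rpow_of_exponent_lt (by norm_num)
      push_cast; linarith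
    calc ‖a j‖ₑ ≤ tw ((m:ℝ) + 1) := h2.le
      _ = 4 * tw ((m - 1 : ℤ) : ℝ) := by
          have : (m:ℝ) + 1 = 2 + ((m - 1 : ℤ) : ℝ) := by push_cast; ring
          rw [this, tw_add]
          congr 1
          unfold tw
          norm_num
      _ ≤ _ := by
          gcongr
          refine le_trans (le_of_eq ?_) (ENNReal.le_tsum (m - 1))
          rw [if_pos hmem]
  have h1 : ∀ z, ∑' j, ‖a j‖ₑ * w j z ≤ 4 * ∑' k : ℤ, tw k * R k z := by
    intro z
    calc ∑' j, ‖a j‖ₑ * w j z ≤ ∑' j, (4 * ∑' k : ℤ, (if j ∈ J k then tw k else 0)) * w j z := by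
          gcongr with j
          exact hb j
      _ = 4 * ∑' j, ∑' k : ℤ, (if j ∈ J k then tw k else 0) * w j z := by
          rw [← ENNReal.tsum_mul_left]
          refine tsum_congr fun j => ?_
          rw [ENNReal.tsum_mul_right, mul_assoc]
      _ = 4 * ∑' k : ℤ, tw k * R k z := by
          rw [ENNReal.tsum_comm]
          congr 1
          refine tsum_congr fun k => ?_
          rw [hR]
          simp only
          rw [← ENNReal.tsum_mul_left]
          refine tsum_congr fun j => ?_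
          by_cases h : j ∈ J k
          · rw [if_pos h, if_pos h]
          · rw [if_neg h, if_neg h, zero_mul, mul_zero]
  have h2 : NN p q (fun z => ∑' j, ‖a j‖ₑ * w j z) ≤ 4 * ∑' k : ℤ, tw k * NN p q (R k) := by
    calc NN p q (fun z => ∑' j, ‖a j‖ₑ * w j z) ≤ NN p q (fun z => 4 * ∑' k : ℤ, tw k * R k z) :=
          NN_mono p q hp0 hq0 fun t => Eventually.of_forall fun x => h1 _
      _ = 4 * NN p q (fun z => ∑' k : ℤ, tw k * R k z) :=
          NN_const_mul p q hp0 hq0 4 (by norm_num) _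
      _ ≤ 4 * ∑' k : ℤ, NN p q (fun z => tw k * R k z) := by
          gcongr
          exact NN_tsum p q hp hq _ fun k => (mR k).const_mul _
      _ = _ := by
          congr 1
          refine tsum_congr fun k => ?_
          exact NN_const_mul p q hp0 hq0 (tw k) (tw_ne_top _) _
  have h3 : ∀ k, NN p q (R k) ≤ C * (((J k).encard : ℕ∞) : ℝ≥0∞) ^ (1 / p) := by
    intro k
    by_cases hf : (J k).Finite
    · have h4 : R k = fun z => ∑ j ∈ hf.toFinset, w j z := by
        funext z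
        rw [hR]
        simp only
        rw [tsum_eq_sum (s := hf.toFinset)]
        · refine Finset.sum_congr rfl fun j hj => ?_
          rw [if_pos (hf.mem_toFinset.mp hj)]
        · intro j hj
          rw [if_neg (fun h => hj (hf.mem_toFinset.mpr h))]
      rw [h4, hf.encard_eq_coe_toFinset_card]
      exact hfin hf.toFinset
    · have h5 : (J k).encard = ⊤ := Set.Infinite.encard_eq hf
      rw [h5]
      rcases eq_or_ne C 0 with hC | hC
      · -- all finite sums vanish in norm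
        have h6 : ∀ j, NN p q (w j) = 0 := by
          intro j
          have := hfin {j}
          simp only [Finset.sum_singleton, hC, zero_mul] at this
          exact le_antisymm this zero_le
        have h7 : NN p q (R k) ≤ ∑' j, NN p q (fun z => if j ∈ J k then w j z else 0) := by
          rw [hR]
          apply NN_tsum p q hp hq
          intro j
          by_cases h : j ∈ J k
          · simp only [h, if_true]; exact hw j
          · simp only [h, if_false]; exact measurable_const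
        have h8 : ∀ j, NN p q (fun z => if j ∈ J k then w j z else 0) = 0 := by
          intro j
          apply le_antisymm _ zero_le
          refine le_trans ?_ (h6 j).le
          apply NN_mono p q hp0 hq0
          intro t
          refine Eventually.of_forall fun x => ?_
          change (if j ∈ J k then w j (t, x) else 0) ≤ w j (t, x)
          by_cases h : j ∈ J k
          · rw [if_pos h]
          · rw [if_neg h]; exact zero_le
        refine h7.trans ?_
        simp_rw [h8]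
        simp
      · rw [ENat.toENNReal_top, ENNReal.top_rpow_of_pos (by positivity), ENNReal.mul_top hC]
        exact le_top
  calc NN p q (fun z => ∑' j, ‖a j‖ₑ * w j z) ≤ 4 * ∑' k : ℤ, tw k * NN p q (R k) := h2
    _ ≤ 4 * ∑' k : ℤ, tw k * (C * ∑' n : ℕ, (if (n:ℕ∞) < (J k).encard then
        ((n : ℝ≥0∞) + 1) ^ (1 / p - 1) else 0)) := by
        gcongr with k
        exact (h3 k).trans (mul_le_mul_right (pow_le_sum p hp _) _)
    _ = 4 * C * ∑' n : ℕ, ((n : ℝ≥0∞) + 1) ^ (1 / p - 1) *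
        ∑' k : ℤ, (if (n:ℕ∞) < (J k).encard then tw k else 0) := by
        rw [mul_assoc 4 C]
        congr 1
        rw [← ENNReal.tsum_mul_left]
        have : ∀ k : ℤ, tw k * (C * ∑' n : ℕ, (if (n:ℕ∞) < (J k).encard then
            ((n : ℝ≥0∞) + 1) ^ (1 / p - 1) else 0)) = ∑' n : ℕ, C * (((n : ℝ≥0∞) + 1) ^ (1 / p - 1) *
            (if (n:ℕ∞) < (J k).encard then tw k else 0)) := by
          intro k
          rw [← ENNReal.tsum_mul_left, ← ENNReal.tsum_mul_left]
          refine tsum_congr fun n => ?_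
          by_cases h : (n:ℕ∞) < (J k).encard
          · rw [if_pos h, if_pos h]; ring
          · rw [if_neg h, if_neg h]; ring
        simp_rw [this]
        rw [ENNReal.tsum_comm]
        refine tsum_congr fun n => ?_
        rw [ENNReal.tsum_mul_left, ENNReal.tsum_mul_left]
    _ ≤ 4 * C * ∑' n : ℕ, ((n : ℝ≥0∞) + 1) ^ (1 / p - 1) * (2 * rearr a n) := by
        gcongr with n
        refine le_trans ?_ (tsum_levels_le (rearr a n))
        refine ENNReal.tsum_le_tsum fun k => ?_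
        by_cases h : (n:ℕ∞) < (J k).encard
        · rw [if_pos h, if_pos (le_rearr a n _ h)]
        · rw [if_neg h]; exact zero_le
    _ = 8 * C * lorentz p a := by
        unfold lorentz
        have : ∀ n : ℕ, ((n : ℝ≥0∞) + 1) ^ (1 / p - 1) * (2 * rearr a n)
            = 2 * (((n : ℝ≥0∞) + 1) ^ (1 / p - 1) * rearr a n) := fun n => by ring
        simp_rw [this]
        rw [ENNReal.tsum_mul_left]
        ring

end Pool.Agent.U517.OS
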