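import Pool.Agent.U517.OS.FinB
import Pool.Agent.U517.OS.Lor

/-!
The endpoint orthonormal Strichartz estimate.
-/

set_option autoImplicit false

namespace Pool.Agent.U517.OS

open MeasureTheory Complex Filter
open scoped Real ENNReal ComplexConjugate RealInnerProductSpace FourierTransform Topology

variable {V : Type*} [NormedAddCommGroup V] [InnerProductSpace ℝ V]
  [MeasurableSpace V] [BorelSpace V] [FiniteDimensional ℝ V]

lemma summable_of_enorm {ι : Type*} {h : ι → ℂ} (hh : ∑' j, ‖h j‖ₑ ≠ ∞) : Summable h := by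
  have h1 : Summable (fun j => ‖h j‖) := by
    have h2 := ENNReal.summable_toReal hh
    refine h2.congr fun j => ?_
    rw [toReal_enorm]
  exact h1.of_norm

lemma enorm_tsum_ne_top {ι : Type*} {h : ι → ℂ} (hh : Summable h) : ∑' j, ‖h j‖ₑ ≠ ∞ := by
  have h1 : Summable (fun j => ‖h j‖₊) := by
    have := hh.norm
    rw [← NNReal.summable_coe]
    exact this
  exact ENNReal.tsum_coe_ne_top_iff_summable.mpr h1

/-- measurability of a countable complex series -/
lemma measurable_tsum_complex {X ι : Type*} [MeasurableSpace X] [Countable ι] {h : ι → X → ℂ}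
    (hh : ∀ j, Measurable (h j)) : Measurable (fun x => ∑' j, h j x) := by
  classical
  set A : Set X := {x | ∑' j, ‖h j x‖ₑ < ∞} with hA
  have mA : MeasurableSet A :=
    measurableSet_lt (Measurable.ennreal_tsum fun j => (hh j).enorm) measurable_const
  have : Countable (Finset ι) := inferInstance
  apply measurable_of_tendsto_metrizable' (atTop : Filter (Finset ι))
    (f := fun s x => A.indicator (fun x => ∑ j ∈ s, h j x) x)
  · intro s
    exact (Finset.measurable_fun_sum _ fun j _ => hh j).indicator mA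
  · rw [tendsto_pi_nhds]
    intro x
    by_cases hx : x ∈ A
    · have h1 : Summable (fun j => h j x) := summable_of_enorm (ne_of_lt hx)
      have h2 := h1.hasSum
      simp only [Set.indicator_of_mem hx]
      exact h2
    · have h1 : ¬ Summable (fun j => h j x) := fun hs => hx (enorm_tsum_ne_top hs).lt_top
      simp only [Set.indicator_of_notMem hx]
      rw [tsum_eq_zero_of_not_summable h1]
      exact tendsto_const_nhds

/-- The bound in terms of the jointly measurable versions. -/
theorem dens_bound (hd : 2 ≤ Module.finrank ℝ V) : ∃ C : ℝ, 0 < C ∧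
    ∀ (ι : Type) [Countable ι] (f : ι → Lp ℂ 2 (volume : Measure V)), Orthonormal ℂ f →
      ∀ a : ι → ℂ, NN (((Module.finrank ℝ V : ℝ) + 1) / (Module.finrank ℝ V : ℝ))
        (((Module.finrank ℝ V : ℝ) + 1) / ((Module.finrank ℝ V : ℝ) - 1))
        (fun z => ∑' j, ‖a j‖ₑ * dens (f j) z)
        ≤ ENNReal.ofReal C * lorentz (((Module.finrank ℝ V : ℝ) + 1) / (Module.finrank ℝ V : ℝ)) a := by
  obtain ⟨C, hC, h⟩ := fin_bound (V := V) hd
  set D : ℝ := (Module.finrank ℝ V : ℝ) with hDdef
  have hD : 2 ≤ D := by rw [hDdef]; exact_mod_cast hd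
  have hD1 : 0 < D - 1 := by linarith
  have hD0 : 0 < D := by linarith
  set p : ℝ := (D + 1) / D with hp
  set q : ℝ := (D + 1) / (D - 1) with hq
  have hp1 : 1 ≤ p := by rw [hp, le_div_iff₀ hD0]; linarith
  have hq1 : 1 ≤ q := by rw [hq, le_div_iff₀ hD1]; linarith
  have hp0 : 0 < p := by linarith
  have hq0 : 0 < q := by linarith
  refine ⟨8 * C ^ (1 / p), by positivity, fun ι _ f hf a => ?_⟩
  have hfin : ∀ J : Finset ι, NN p q (fun z => ∑ j ∈ J, dens (f j) z)
      ≤ ENNReal.ofReal (C ^ (1 / p)) * (J.card : ℝ≥0∞) ^ (1 / p) := by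
    intro J
    rcases J.eq_empty_or_nonempty with h0 | h0
    · rw [h0]
      simp only [Finset.sum_empty]
      have : NN p q (fun _ : ℝ × V => (0 : ℝ≥0∞)) = 0 := by
        unfold NN nq
        simp only
        rw [ENNReal.zero_rpow_of_pos hq0, lintegral_zero, ENNReal.zero_rpow_of_pos (by positivity),
          ENNReal.zero_rpow_of_pos hp0, lintegral_zero, ENNReal.zero_rpow_of_pos (by positivity)]
      rw [this]
      exact zero_le
    have hcard : (1:ℝ) ≤ (J.card : ℝ) := by exact_mod_cast h0.card_pos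
    have h1 := h J (fun j => f j) (hf.comp _ Subtype.val_injective) (J.card : ℝ) hcard
      (by rw [Fintype.card_coe])
    have h2 : NN p q (fun z => ∑ j ∈ J, dens (f j) z)
        = (∫⁻ t, (∫⁻ x, (∑ j : J, dens (f j) (t, x)) ^ q) ^ ((D - 1) / D)) ^ (1 / p) := by
      unfold NN nq
      congr 1
      refine lintegral_congr fun t => ?_
      rw [← ENNReal.rpow_mul]
      have e1 : 1 / q * p = (D - 1) / D := by
        rw [hp, hq]; field_simp
      rw [e1]
      congr 1
      refine lintegral_congr fun x => ?_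
      congr 1
      exact (Finset.sum_coe_sort J (fun j => dens (f j) (t, x))).symm
    rw [h2]
    refine (ENNReal.rpow_le_rpow h1 (by positivity)).trans (le_of_eq ?_)
    rw [ENNReal.ofReal_mul hC.le, ENNReal.mul_rpow_of_nonneg _ _ (by positivity),
      ENNReal.ofReal_rpow_of_pos hC, ENNReal.ofReal_natCast]
  have h3 := lorentz_sum p q hp1 hq1 (fun j => dens (f j)) (fun j => measurable_dens (f j))
    (ENNReal.ofReal (C ^ (1 / p))) hfin a
  refine h3.trans (le_of_eq ?_)
  rw [ENNReal.ofReal_mul (by norm_num)]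
  norm_num

/-- The endpoint estimate. -/
theorem endpoint (hd : 2 ≤ Module.finrank ℝ V) : ∃ C : ℝ, 0 < C ∧
    ∀ (ι : Type) [Countable ι] (f : ι → Lp ℂ 2 (volume : Measure V)), Orthonormal ℂ f →
      ∀ a : ι → ℂ,
      lorentz (((Module.finrank ℝ V : ℝ) + 1) / (Module.finrank ℝ V : ℝ)) a < ∞ →
      (∃ ρ : ℝ × V → ℂ, Measurable ρ ∧ ∀ t, ∀ᵐ x : V, ρ (t, x) =
        ∑' j, a j * ((‖schro t (f j) x‖ ^ 2 : ℝ) : ℂ)) ∧
      (∀ᵐ t : ℝ, ∀ᵐ x : V, Summable (fun j => a j * ((‖schro t (f j) x‖ ^ 2 : ℝ) : ℂ))) ∧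
      (∫⁻ t, ((∫⁻ x, ‖∑' j, a j * ((‖schro t (f j) x‖ ^ 2 : ℝ) : ℂ)‖ₑ ^
        (((Module.finrank ℝ V : ℝ) + 1) / ((Module.finrank ℝ V : ℝ) - 1))) ^
        (1 / (((Module.finrank ℝ V : ℝ) + 1) / ((Module.finrank ℝ V : ℝ) - 1)))) ^
        (((Module.finrank ℝ V : ℝ) + 1) / (Module.finrank ℝ V : ℝ))) ^
        (1 / (((Module.finrank ℝ V : ℝ) + 1) / (Module.finrank ℝ V : ℝ)))
        ≤ ENNReal.ofReal C * lorentz (((Module.finrank ℝ V : ℝ) + 1) / (Module.finrank ℝ V : ℝ)) a := by
  obtain ⟨C, hC, h⟩ := dens_bound (V := V) hd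
  set D : ℝ := (Module.finrank ℝ V : ℝ) with hDdef
  have hD : 2 ≤ D := by rw [hDdef]; exact_mod_cast hd
  have hD1 : 0 < D - 1 := by linarith
  have hD0 : 0 < D := by linarith
  set p : ℝ := (D + 1) / D with hp
  set q : ℝ := (D + 1) / (D - 1) with hq
  have hp0 : 0 < p := by rw [hp]; positivity
  have hq0 : 0 < q := by rw [hq]; positivity
  refine ⟨C, hC, fun ι _ f hf a ha => ?_⟩
  have hall : ∀ t, ∀ᵐ x : V, ∀ j, dens (f j) (t, x) = ‖schro t (f j) x‖ₑ ^ 2 := by
    intro t
    rw [ae_all_iff]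
    exact fun j => dens_ae (f j) t
  have hterm : ∀ t x j, ‖a j * ((‖schro t (f j) x‖ ^ 2 : ℝ) : ℂ)‖ₑ = ‖a j‖ₑ * ‖schro t (f j) x‖ₑ ^ 2 := by
    intro t x j
    rw [enorm_mul]
    congr 1
    rw [← ofReal_norm, Complex.norm_real, Real.norm_eq_abs, abs_of_nonneg (by positivity),
      ENNReal.ofReal_pow (norm_nonneg _), ofReal_norm]
  have hNN := h ι f hf a
  refine ⟨?_, ?_, ?_⟩
  · refine ⟨fun z => ∑' j, a j * (((dens (f j) z).toReal : ℝ) : ℂ), ?_, ?_⟩
    · apply measurable_tsum_complex
      intro j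
      exact (Complex.measurable_ofReal.comp (measurable_dens (f j)).ennreal_toReal).const_mul _
    · intro t
      filter_upwards [hall t] with x hx
      refine tsum_congr fun j => ?_
      rw [hx j, ENNReal.toReal_pow, toReal_enorm]
  · -- almost everywhere convergence
    have mw : Measurable (fun z : ℝ × V => ∑' j, ‖a j‖ₑ * dens (f j) z) :=
      Measurable.ennreal_tsum fun j => (measurable_dens (f j)).const_mul _
    have hlt : NN p q (fun z => ∑' j, ‖a j‖ₑ * dens (f j) z) < ∞ :=
      hNN.trans_lt (ENNReal.mul_lt_top ENNReal.ofReal_lt_top ha)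
    have h1 : ∫⁻ t, (nq q (fun z => ∑' j, ‖a j‖ₑ * dens (f j) z) t) ^ p ≠ ∞ := by
      intro htop
      unfold NN at hlt
      rw [htop, ENNReal.top_rpow_of_pos (by positivity)] at hlt
      exact lt_irrefl _ hlt
    have h2 := ae_lt_top ((measurable_nq q mw).pow_const p) h1
    filter_upwards [h2] with t ht
    have h3 : ∫⁻ x, (∑' j, ‖a j‖ₑ * dens (f j) (t, x)) ^ q ≠ ∞ := by
      intro htop
      unfold nq at ht
      rw [htop, ENNReal.top_rpow_of_pos (by positivity), ENNReal.top_rpow_of_pos hp0] at ht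
      exact lt_irrefl _ ht
    have h4 := ae_lt_top ((mw.comp (measurable_prodMk_left (x := t))).pow_const q) h3
    filter_upwards [h4, hall t] with x hx hx2
    apply summable_of_enorm
    intro htop
    simp only [Function.comp_apply] at hx
    have h5 : ∑' j, ‖a j‖ₑ * dens (f j) (t, x) = ∞ := by
      rw [← htop]
      refine tsum_congr fun j => ?_
      rw [hterm, hx2 j]
    rw [h5, ENNReal.top_rpow_of_pos hq0] at hx
    exact lt_irrefl _ hx
  · refine le_trans ?_ hNN
    unfold NN nq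
    apply ENNReal.rpow_le_rpow _ (by positivity)
    refine lintegral_mono fun t => ?_
    apply ENNReal.rpow_le_rpow _ hp0.le
    apply ENNReal.rpow_le_rpow _ (by positivity)
    refine lintegral_mono_ae ?_
    filter_upwards [hall t] with x hx
    apply ENNReal.rpow_le_rpow _ hq0.le
    refine enorm_tsum_le_tsum_enorm.trans (le_of_eq ?_)
    refine tsum_congr fun j => ?_
    rw [hterm, hx j]

end Pool.Agent.U517.OS
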