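import Pool.Agent.U517.OS.Hat
import Pool.Agent.U517.OS.Core3

/-!
The hypotheses of the core estimate for fixed times.
-/

set_option autoImplicit false

namespace Pool.Agent.U517.OS

open MeasureTheory Complex
open scoped Real ENNReal ComplexConjugate RealInnerProductSpace FourierTransform

variable {V : Type*} [NormedAddCommGroup V] [InnerProductSpace ℝ V]
  [MeasurableSpace V] [BorelSpace V] [FiniteDimensional ℝ V]

/-- the value `2^k` on `S` -/
noncomputable def wk (S : Set (ℝ × V)) (k : ℝ) (z : ℝ × V) : ℝ := S.indicator (fun _ => (2:ℝ) ^ k) z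

/-- the value `2^k` on `S`, in `[0,∞]` -/
noncomputable def bk (S : Set (ℝ × V)) (k : ℝ) (z : ℝ × V) : ℝ≥0∞ := S.indicator (fun _ => tw k) z

omit [InnerProductSpace ℝ V] [MeasurableSpace V] [BorelSpace V] [FiniteDimensional ℝ V] in
lemma wk_nonneg (S : Set (ℝ × V)) (k : ℝ) (z : ℝ × V) : 0 ≤ wk S k z := by
  unfold wk
  exact Set.indicator_nonneg (fun _ _ => by positivity) z

omit [InnerProductSpace ℝ V] [MeasurableSpace V] [BorelSpace V] [FiniteDimensional ℝ V] in
lemma ofReal_wk (S : Set (ℝ × V)) (k : ℝ) (z : ℝ × V) : ENNReal.ofReal (wk S k z) = bk S k z := by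
  unfold wk bk tw
  by_cases h : z ∈ S
  · rw [Set.indicator_of_mem h, Set.indicator_of_mem h]
  · rw [Set.indicator_of_notMem h, Set.indicator_of_notMem h, ENNReal.ofReal_zero]

omit [InnerProductSpace ℝ V] [MeasurableSpace V] [BorelSpace V] [FiniteDimensional ℝ V] in
lemma bk_le (S : Set (ℝ × V)) (k : ℝ) (z : ℝ × V) : bk S k z ≤ tw k := by
  unfold bk
  by_cases h : z ∈ S
  · rw [Set.indicator_of_mem h]
  · rw [Set.indicator_of_notMem h]; exact zero_le

omit [InnerProductSpace ℝ V] [MeasurableSpace V] [BorelSpace V] [FiniteDimensional ℝ V] in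
lemma bk_sq (S : Set (ℝ × V)) (k : ℝ) (z : ℝ × V) : bk S k z ^ 2 = tw k * bk S k z := by
  unfold bk
  by_cases h : z ∈ S
  · rw [Set.indicator_of_mem h, sq]
  · rw [Set.indicator_of_notMem h]; simp

/-- measurable and bounded sets -/
structure Lev (S : Set (ℝ × V)) : Prop where
  meas : MeasurableSet S
  bdd : ∃ T : ℝ, S ⊆ Set.Icc (-T) T ×ˢ Metric.closedBall 0 T

lemma measurable_wk {S : Set (ℝ × V)} (hS : MeasurableSet S) (k : ℝ) : Measurable (wk S k) :=
  measurable_const.indicator hS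

lemma measurable_bk {S : Set (ℝ × V)} (hS : MeasurableSet S) (k : ℝ) : Measurable (bk S k) :=
  measurable_const.indicator hS

variable {ι : Type*} [Fintype ι]

/-- the density -/
noncomputable def rho (F : ι → V → ℂ) (z : ℝ × V) : ℝ≥0∞ := ∑ j, ‖uu (F j) z‖ₑ ^ 2

/-- the density matrix -/
noncomputable def Gam (F : ι → V → ℂ) (z z' : ℝ × V) : ℂ := ∑ j, uu (F j) z * conj (uu (F j) z')

/-- mass of the level at time `t` -/
noncomputable def Mk (F : ι → V → ℂ) (S : Set (ℝ × V)) (k : ℝ) (t : ℝ) : ℝ≥0∞ :=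
  ∫⁻ x, bk S k (t, x) * rho F (t, x)

/-- size of the level set at time `t` -/
noncomputable def ak (S : Set (ℝ × V)) (t : ℝ) : ℝ≥0∞ := volume (Prod.mk t ⁻¹' S)

/-- the Hilbert-Schmidt quantity -/
noncomputable def qk (F : ι → V → ℂ) (S : Set (ℝ × V)) (k : ℝ) (S' : Set (ℝ × V)) (l : ℝ)
    (p : ℝ × ℝ) : ℝ≥0∞ :=
  ∫⁻ w : V × V, bk S k (p.1, w.1) * bk S' l (p.2, w.2) * ‖Gam F (p.1, w.1) (p.2, w.2)‖ₑ ^ 2

/-- the interaction of two levels -/
noncomputable def rk (F : ι → V → ℂ) (ε : ℝ) (S : Set (ℝ × V)) (k : ℝ) (S' : Set (ℝ × V)) (l : ℝ)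
    (p : ℝ × ℝ) : ℝ≥0∞ :=
  ‖∫ w : V × V, ((wk S k (p.1, w.1) * wk S' l (p.2, w.2) : ℝ) : ℂ) *
    Gam F (p.1, w.1) (p.2, w.2) * gk ε ((p.2, w.2) - (p.1, w.1))‖ₑ

variable {F : ι → V → ℂ}

lemma measurable_rho (hF : Nice F) : Measurable (rho F) := by
  unfold rho
  have := fun j => (continuous_uu (hF.int j)).measurable
  fun_prop

lemma continuous_Gam (hF : Nice F) : Continuous (fun p : (ℝ × V) × (ℝ × V) => Gam F p.1 p.2) := by
  unfold Gam
  have h : ∀ j, Continuous (uu (F j)) := fun j => continuous_uu (hF.int j)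
  refine continuous_finsetSum _ fun j _ => ?_
  have h1 := (h j).comp (continuous_fst : Continuous (Prod.fst : (ℝ × V) × (ℝ × V) → ℝ × V))
  have h2 := (h j).comp (continuous_snd : Continuous (Prod.snd : (ℝ × V) × (ℝ × V) → ℝ × V))
  exact h1.mul (Complex.continuous_conj.comp h2)

lemma measurable_Mk (hF : Nice F) {S : Set (ℝ × V)} (hS : MeasurableSet S) (k : ℝ) :
    Measurable (Mk F S k) := by
  unfold Mk
  have : Measurable (fun z : ℝ × V => bk S k z * rho F z) :=
    (measurable_bk hS k).mul (measurable_rho hF)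
  exact this.lintegral_prod_right'

lemma measurable_ak {S : Set (ℝ × V)} (hS : MeasurableSet S) : Measurable (ak S) :=
  measurable_measure_prodMk_left hS

lemma measurable_qk (hF : Nice F) {S S' : Set (ℝ × V)} (hS : MeasurableSet S)
    (hS' : MeasurableSet S') (k l : ℝ) : Measurable (qk F S k S' l) := by
  unfold qk
  have h0 : Measurable (fun q : (ℝ × ℝ) × (V × V) => bk S k (q.1.1, q.2.1) * bk S' l (q.1.2, q.2.2) *
      ‖Gam F (q.1.1, q.2.1) (q.1.2, q.2.2)‖ₑ ^ 2) := by
    have h1 : Measurable (fun q : (ℝ × ℝ) × (V × V) => bk S k (q.1.1, q.2.1)) :=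
      (measurable_bk hS k).comp (by fun_prop)
    have h2 : Measurable (fun q : (ℝ × ℝ) × (V × V) => bk S' l (q.1.2, q.2.2)) :=
      (measurable_bk hS' l).comp (by fun_prop)
    have h3 : Measurable (fun q : (ℝ × ℝ) × (V × V) => Gam F (q.1.1, q.2.1) (q.1.2, q.2.2)) :=
      (continuous_Gam hF).measurable.comp (g := fun p : (ℝ × V) × (ℝ × V) => Gam F p.1 p.2)
        (f := fun q : (ℝ × ℝ) × (V × V) => ((q.1.1, q.2.1), (q.1.2, q.2.2))) (by fun_prop)
    fun_prop
  exact h0.lintegral_prod_right'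

/-! ### the weighted solutions at a fixed time -/

lemma slice_finite {S : Set (ℝ × V)} (hS : Lev S) (t : ℝ) : volume (Prod.mk t ⁻¹' S) < ∞ := by
  obtain ⟨T, hT⟩ := hS.bdd
  have : Prod.mk t ⁻¹' S ⊆ Metric.closedBall 0 T := fun x hx => (hT hx).2
  exact (measure_mono this).trans_lt measure_closedBall_lt_top

lemma integrable_wk_slice {S : Set (ℝ × V)} (hS : Lev S) (k t : ℝ) :
    Integrable (fun x : V => wk S k (t, x)) := by
  have h1 : (fun x : V => wk S k (t, x)) = (Prod.mk t ⁻¹' S).indicator (fun _ => (2:ℝ) ^ k) := by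
    ext x
    rfl
  rw [h1, integrable_indicator_iff (measurable_prodMk_left hS.meas)]
  exact integrableOn_const (slice_finite hS t).ne

lemma integrable_loc {S : Set (ℝ × V)} (hS : Lev S) (k t : ℝ) {G : V → ℂ} (hG : Integrable G) :
    Integrable (fun x : V => (wk S k (t, x) : ℂ) * uu G (t, x)) := by
  refine (integrable_wk_slice hS k t).ofReal.mul_bdd (c := ∫ ξ, ‖G ξ‖) ?_
    (Filter.Eventually.of_forall fun x => norm_uu_le _)
  exact ((continuous_uu hG).comp (Continuous.prodMk_right t)).aestronglyMeasurable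

lemma memLp_loc {S : Set (ℝ × V)} (hS : Lev S) (k t : ℝ) {G : V → ℂ} (hG : Integrable G) :
    MemLp (fun x : V => (wk S k (t, x) : ℂ) * uu G (t, x)) 2 := by
  have h1 := integrable_loc hS k t hG
  rw [memLp_two_iff_integrable_sq_norm h1.aestronglyMeasurable]
  have h2 : Integrable (fun x : V => ((2:ℝ) ^ k * ∫ ξ, ‖G ξ‖) *
      ‖(wk S k (t, x) : ℂ) * uu G (t, x)‖) := h1.norm.const_mul _
  refine h2.mono' (h1.aestronglyMeasurable.norm.pow 2) (Filter.Eventually.of_forall fun x => ?_)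
  rw [Real.norm_eq_abs, abs_of_nonneg (by positivity), sq]
  apply mul_le_mul_of_nonneg_right _ (norm_nonneg _)
  rw [norm_mul]
  apply mul_le_mul _ (norm_uu_le _) (norm_nonneg _) (by positivity)
  rw [Complex.norm_real, Real.norm_eq_abs, abs_of_nonneg (wk_nonneg _ _ _)]
  unfold wk
  by_cases h : (t, x) ∈ S
  · rw [Set.indicator_of_mem h]
  · rw [Set.indicator_of_notMem h]; positivity

lemma lint_loc {S : Set (ℝ × V)} (k t : ℝ) (G : V → ℂ) :
    ∫⁻ x, ‖(wk S k (t, x) : ℂ) * uu G (t, x)‖ₑ ^ 2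
      = tw k * ∫⁻ x, bk S k (t, x) * ‖uu G (t, x)‖ₑ ^ 2 := by
  rw [← lintegral_const_mul' _ _ (tw_ne_top k)]
  refine lintegral_congr fun x => ?_
  rw [enorm_mul, mul_pow, ← mul_assoc, ← bk_sq]
  congr 2
  rw [← ofReal_wk, ← ofReal_norm, Complex.norm_real, Real.norm_eq_abs, abs_of_nonneg (wk_nonneg _ _ _)]

lemma amgm (x : ℝ) (a b : ℝ≥0∞) : a * b ≤ tw x * a ^ 2 + tw (-x) * b ^ 2 := by
  have h1 : tw (x / 2) * tw (-(x / 2)) = 1 := by
    rw [← tw_add]; simp [tw_zero]
  have h2 : a * b = (tw (x / 2) * a) * (tw (-(x / 2)) * b) := by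
    calc a * b = (tw (x / 2) * tw (-(x / 2))) * (a * b) := by rw [h1, one_mul]
      _ = _ := by ring
  have h3 : (tw (x / 2) * a) ^ 2 = tw x * a ^ 2 := by
    rw [mul_pow, ← ENNReal.rpow_natCast (tw (x / 2)), tw_pow]
    congr 2
    push_cast; ring
  have h4 : (tw (-(x / 2)) * b) ^ 2 = tw (-x) * b ^ 2 := by
    rw [mul_pow, ← ENNReal.rpow_natCast (tw (-(x / 2))), tw_pow]
    congr 2
    push_cast; ring
  rw [h2, ← h3, ← h4]
  set A := tw (x / 2) * a
  set B := tw (-(x / 2)) * b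
  rcases le_total A B with h | h
  · refine le_trans ?_ le_add_self
    rw [sq]
    exact mul_le_mul_left h B
  · refine le_trans ?_ le_self_add
    rw [sq]
    exact mul_le_mul_right h A

/-- The short time bound. -/
lemma rk_short (hF : Nice F) {ε : ℝ} (hε : 0 < ε) {S S' : Set (ℝ × V)} (hS : Lev S) (hS' : Lev S')
    (k l : ℝ) (p : ℝ × ℝ) :
    rk F ε S k S' l p ≤ tw ((k + l) / 2) * (Mk F S k p.1 + Mk F S' l p.2) := by
  obtain ⟨t, s⟩ := p
  set α : ι → V → ℂ := fun j x => (wk S k (t, x) : ℂ) * uu (F j) (t, x) with hα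
  set β : ι → V → ℂ := fun j y => (wk S' l (s, y) : ℂ) * uu (F j) (s, y) with hβ
  have iα : ∀ j, Integrable (α j) := fun j => integrable_loc hS k t (hF.int j)
  have iβ : ∀ j, Integrable (β j) := fun j => integrable_loc hS' l s (hF.int j)
  have mα : ∀ j, MemLp (α j) 2 := fun j => memLp_loc hS k t (hF.int j)
  have mβ : ∀ j, MemLp (β j) 2 := fun j => memLp_loc hS' l s (hF.int j)
  have hprod : ∀ j, Integrable (fun w : V × V => α j w.1 * conj (β j w.2) *
      gk ε ((s, w.2) - (t, w.1))) := by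
    intro j
    have hβc : Integrable (fun y => conj (β j y)) := by
      refine (iβ j).norm.mono' (Complex.continuous_conj.comp_aestronglyMeasurable (iβ j).1)
        (Filter.Eventually.of_forall fun y => ?_)
      rw [RCLike.norm_conj]
    have h1 : Integrable (fun w : V × V => α j w.1 * conj (β j w.2)) := (iα j).mul_prod hβc
    refine h1.mul_bdd (c := ∫ ξ : V, Real.exp (-ε * ‖ξ‖ ^ 2)) ?_
      (Filter.Eventually.of_forall fun w => ?_)
    · apply Continuous.aestronglyMeasurable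
      have : Continuous (fun w : V × V => gk ε ((s, w.2) - (t, w.1))) := by
        unfold gk
        apply continuous_of_dominated (bound := fun ξ => Real.exp (-ε * ‖ξ‖ ^ 2))
        · exact fun w => (integrable_ex_gauss hε _).1
        · intro w
          refine Filter.Eventually.of_forall fun ξ => ?_
          rw [norm_mul, norm_ex, one_mul, Complex.norm_real, Real.norm_eq_abs,
            abs_of_pos (Real.exp_pos _)]
        · exact integrable_gauss hε
        · refine Filter.Eventually.of_forall fun ξ => ?_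
          unfold ex
          fun_prop
      exact this
    · unfold gk
      refine (norm_integral_le_integral_norm _).trans (le_of_eq ?_)
      refine integral_congr_ae (Filter.Eventually.of_forall fun ξ => ?_)
      simp only
      rw [norm_mul, norm_ex, one_mul, Complex.norm_real, Real.norm_eq_abs,
        abs_of_pos (Real.exp_pos _)]
  have h1 : rk F ε S k S' l (t, s) = ‖∑ j, ∫ ξ, hat t (α j) ξ * conj (hat s (β j) ξ) *
      (Real.exp (-ε * ‖ξ‖ ^ 2) : ℝ)‖ₑ := by
    unfold rk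
    congr 1
    rw [Finset.sum_congr rfl (fun j _ => (kernel_formula hε t s (iα j) (iβ j)).symm),
      ← integral_finsetSum _ (fun j _ => hprod j)]
    refine integral_congr_ae (Filter.Eventually.of_forall fun w => ?_)
    simp only [hα, hβ]
    unfold Gam
    rw [Finset.mul_sum, Finset.sum_mul]
    refine Finset.sum_congr rfl fun j _ => ?_
    simp only [map_mul, Complex.conj_ofReal]
    push_cast
    ring
  rw [h1]
  refine (enorm_sum_le _ _).trans ?_
  have h2 : ∀ j, ‖∫ ξ, hat t (α j) ξ * conj (hat s (β j) ξ) * (Real.exp (-ε * ‖ξ‖ ^ 2) : ℝ)‖ₑ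
      ≤ tw ((k + l) / 2) * ((∫⁻ x, bk S k (t, x) * ‖uu (F j) (t, x)‖ₑ ^ 2) +
        ∫⁻ x, bk S' l (s, x) * ‖uu (F j) (s, x)‖ₑ ^ 2) := by
    intro j
    refine (enorm_integral_le_lintegral_enorm _).trans ?_
    have h3 : ∀ ξ, ‖hat t (α j) ξ * conj (hat s (β j) ξ) * (Real.exp (-ε * ‖ξ‖ ^ 2) : ℝ)‖ₑ
        ≤ tw ((l - k) / 2) * ‖hat t (α j) ξ‖ₑ ^ 2 + tw (-((l - k) / 2)) * ‖hat s (β j) ξ‖ₑ ^ 2 := by
      intro ξ
      rw [enorm_mul, enorm_mul]
      have e1 : ‖((Real.exp (-ε * ‖ξ‖ ^ 2) : ℝ) : ℂ)‖ₑ ≤ 1 := by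
        rw [← ofReal_norm, Complex.norm_real, Real.norm_eq_abs, abs_of_pos (Real.exp_pos _)]
        rw [ENNReal.ofReal_le_one, Real.exp_le_one_iff]
        nlinarith [sq_nonneg ‖ξ‖]
      have e2 : ‖conj (hat s (β j) ξ)‖ₑ = ‖hat s (β j) ξ‖ₑ := by
        rw [← ofReal_norm, ← ofReal_norm, RCLike.norm_conj]
      rw [e2]
      calc _ ≤ ‖hat t (α j) ξ‖ₑ * ‖hat s (β j) ξ‖ₑ * 1 := mul_le_mul_right e1 _
        _ ≤ _ := by rw [mul_one]; exact amgm _ _ _
    refine (lintegral_mono h3).trans ?_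
    rw [lintegral_add_left, lintegral_const_mul' _ _ (tw_ne_top _),
      lintegral_const_mul' _ _ (tw_ne_top _), lint_hat t (iα j) (mα j), lint_hat s (iβ j) (mβ j),
      lint_loc k t (F j), lint_loc l s (F j), ← mul_assoc, ← mul_assoc, ← tw_add, ← tw_add, mul_add]
    · apply le_of_eq
      congr 2
      · congr 1; ring
      · congr 1; ring
    · have := (measurable_hat t (iα j)).measurable
      fun_prop
  refine (Finset.sum_le_sum fun j _ => h2 j).trans (le_of_eq ?_)
  rw [← Finset.mul_sum, Finset.sum_add_distrib]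
  congr 1
  have h4 : ∀ (S : Set (ℝ × V)) (k t : ℝ) (_ : Lev S), ∑ j, ∫⁻ x, bk S k (t, x) * ‖uu (F j) (t, x)‖ₑ ^ 2
      = Mk F S k t := by
    intro S k t hS
    unfold Mk rho
    rw [← lintegral_finsetSum]
    · refine lintegral_congr fun x => ?_
      rw [Finset.mul_sum]
    · intro j _
      have h1 := (measurable_bk hS.meas k).comp (measurable_prodMk_left (x := t))
      have h2 := (continuous_uu (hF.int j)).measurable.comp (measurable_prodMk_left (x := t))
      exact h1.mul (h2.enorm.pow_const 2)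
  rw [h4 S k t hS, h4 S' l s hS']

end Pool.Agent.U517.OS
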