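import Pool.Agent.U517.OS.Fix

/-!
Long time bound, bound of the Hilbert-Schmidt quantity.
-/

set_option autoImplicit false

namespace Pool.Agent.U517.OS

open MeasureTheory Complex
open scoped Real ENNReal ComplexConjugate RealInnerProductSpace FourierTransform

variable {V : Type*} [NormedAddCommGroup V] [InnerProductSpace ℝ V]
  [MeasurableSpace V] [BorelSpace V] [FiniteDimensional ℝ V]
  {ι : Type*} [Fintype ι] {F : ι → V → ℂ}

lemma lint_bk_slice {S : Set (ℝ × V)} (hS : Lev S) (k t : ℝ) :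
    ∫⁻ x, bk S k (t, x) = tw k * ak S t := by
  have h1 : (fun x : V => bk S k (t, x)) = (Prod.mk t ⁻¹' S).indicator (fun _ => tw k) := by
    ext x
    rfl
  rw [h1, lintegral_indicator (measurable_prodMk_left hS.meas), lintegral_const]
  unfold ak
  simp

lemma measurable_w (hF : Nice F) {S S' : Set (ℝ × V)} (hS : Lev S) (hS' : Lev S') (k l t s : ℝ) :
    Measurable (fun w : V × V => bk S k (t, w.1) * bk S' l (s, w.2)) ∧
    Measurable (fun w : V × V => ‖Gam F (t, w.1) (s, w.2)‖ₑ) := by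
  constructor
  · have h1 : Measurable (fun w : V × V => bk S k (t, w.1)) := (measurable_bk hS.meas k).comp (by fun_prop)
    have h2 : Measurable (fun w : V × V => bk S' l (s, w.2)) :=
      (measurable_bk hS'.meas l).comp (by fun_prop)
    exact h1.mul h2
  · have h3 : Measurable (fun w : V × V => Gam F (t, w.1) (s, w.2)) :=
      (continuous_Gam hF).measurable.comp (g := fun p : (ℝ × V) × (ℝ × V) => Gam F p.1 p.2)
        (f := fun w : V × V => ((t, w.1), (s, w.2))) (by fun_prop)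
    fun_prop

/-- The long time bound. -/
lemma rk_long (hF : Nice F) {ε : ℝ} (hε : 0 < ε) {S S' : Set (ℝ × V)} (hS : Lev S) (hS' : Lev S')
    (k l : ℝ) (p : ℝ × ℝ) (hp : p.1 ≠ p.2) :
    rk F ε S k S' l p ≤ ENNReal.ofReal (|p.1 - p.2| ^ (-(Module.finrank ℝ V : ℝ) / 2)) *
      tw ((k + l) / 2) * (ak S p.1 * ak S' p.2) ^ (1/2:ℝ) * (qk F S k S' l p) ^ (1/2:ℝ) := by
  obtain ⟨t, s⟩ := p
  simp only at hp ⊢
  have habs : 0 < |t - s| := abs_pos.mpr (sub_ne_zero.mpr hp)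
  have hgk : ∀ w : V × V, ‖gk ε ((s, w.2) - (t, w.1))‖ₑ
      ≤ ENNReal.ofReal (|t - s| ^ (-(Module.finrank ℝ V : ℝ) / 2)) := by
    intro w
    rw [← ofReal_norm]
    apply ENNReal.ofReal_le_ofReal
    refine (norm_gk_le hε _ (by simpa using sub_ne_zero.mpr hp.symm)).trans ?_
    have e1 : |((s, w.2) - (t, w.1) : ℝ × V).1| = |t - s| := by
      simp [abs_sub_comm]
    rw [e1]
    apply Real.rpow_le_rpow_of_nonpos habs
    · have : 1 ≤ 4 * π := by linarith [Real.pi_gt_three]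
      nlinarith
    · have : (0:ℝ) ≤ (Module.finrank ℝ V : ℝ) := Nat.cast_nonneg _
      linarith
  obtain ⟨m1, m2⟩ := measurable_w hF hS hS' k l t s
  have m3 : Measurable (fun w : V × V => bk S k (t, w.1) * bk S' l (s, w.2) *
      ‖Gam F (t, w.1) (s, w.2)‖ₑ ^ 2) := m1.mul (m2.pow_const 2)
  have h1 : rk F ε S k S' l (t, s) ≤ ENNReal.ofReal (|t - s| ^ (-(Module.finrank ℝ V : ℝ) / 2)) *
      ∫⁻ w : V × V, (bk S k (t, w.1) * bk S' l (s, w.2)) ^ (1/2:ℝ) *
        (bk S k (t, w.1) * bk S' l (s, w.2) * ‖Gam F (t, w.1) (s, w.2)‖ₑ ^ 2) ^ (1/2:ℝ) := by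
    unfold rk
    refine (enorm_integral_le_lintegral_enorm _).trans ?_
    rw [← lintegral_const_mul' _ _ ENNReal.ofReal_ne_top]
    refine lintegral_mono fun w => ?_
    simp only
    rw [enorm_mul, enorm_mul, ENNReal.mul_rpow_of_nonneg _ (‖Gam F (t, w.1) (s, w.2)‖ₑ ^ 2)
      (by norm_num)]
    have e2 : (‖Gam F (t, w.1) (s, w.2)‖ₑ ^ 2) ^ (1/2:ℝ) = ‖Gam F (t, w.1) (s, w.2)‖ₑ := by
      rw [← ENNReal.rpow_natCast, ← ENNReal.rpow_mul]; norm_num
    have e3 : ‖((wk S k (t, w.1) * wk S' l (s, w.2) : ℝ) : ℂ)‖ₑ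
        = bk S k (t, w.1) * bk S' l (s, w.2) := by
      rw [← ofReal_norm, Complex.norm_real, Real.norm_eq_abs,
        abs_of_nonneg (mul_nonneg (wk_nonneg _ _ _) (wk_nonneg _ _ _)),
        ENNReal.ofReal_mul (wk_nonneg _ _ _), ofReal_wk, ofReal_wk]
    rw [e2, e3]
    have e4 : (bk S k (t, w.1) * bk S' l (s, w.2)) ^ (1/2:ℝ) *
        (bk S k (t, w.1) * bk S' l (s, w.2)) ^ (1/2:ℝ) = bk S k (t, w.1) * bk S' l (s, w.2) := by
      rw [← ENNReal.rpow_add_of_nonneg _ _ (by norm_num) (by norm_num)]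
      norm_num
    calc _ ≤ bk S k (t, w.1) * bk S' l (s, w.2) * ‖Gam F (t, w.1) (s, w.2)‖ₑ *
          ENNReal.ofReal (|t - s| ^ (-(Module.finrank ℝ V : ℝ) / 2)) := mul_le_mul_right (hgk w) _
      _ = ENNReal.ofReal (|t - s| ^ (-(Module.finrank ℝ V : ℝ) / 2)) *
          (((bk S k (t, w.1) * bk S' l (s, w.2)) ^ (1/2:ℝ) *
          (bk S k (t, w.1) * bk S' l (s, w.2)) ^ (1/2:ℝ)) * ‖Gam F (t, w.1) (s, w.2)‖ₑ) := by
        rw [e4]; ring
      _ = _ := by ring
  refine h1.trans ?_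
  rw [mul_assoc, mul_assoc]
  apply mul_le_mul_right
  have hH := ENNReal.lintegral_mul_le_Lp_mul_Lq (volume : Measure (V × V))
    (Real.holderConjugate_iff.mpr ⟨by norm_num, by norm_num⟩ : (2:ℝ).HolderConjugate 2)
    (f := fun w => (bk S k (t, w.1) * bk S' l (s, w.2)) ^ (1/2:ℝ))
    (g := fun w => (bk S k (t, w.1) * bk S' l (s, w.2) * ‖Gam F (t, w.1) (s, w.2)‖ₑ ^ 2) ^ (1/2:ℝ))
    (m1.pow_const _).aemeasurable (m3.pow_const _).aemeasurable
  refine hH.trans ?_
  have e5 : ∀ x : ℝ≥0∞, (x ^ (1/2:ℝ)) ^ (2:ℝ) = x := by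
    intro x
    rw [← ENNReal.rpow_mul]; norm_num
  simp only [e5]
  have e6 : ∫⁻ w : V × V, bk S k (t, w.1) * bk S' l (s, w.2)
      = (tw k * ak S t) * (tw l * ak S' s) := by
    rw [← lint_bk_slice hS k t, ← lint_bk_slice hS' l s, Measure.volume_eq_prod]
    exact lintegral_prod_mul
      ((measurable_bk hS.meas k).comp (measurable_prodMk_left (x := t))).aemeasurable
      ((measurable_bk hS'.meas l).comp (measurable_prodMk_left (x := s))).aemeasurable
  have e7 : ((tw k * ak S t) * (tw l * ak S' s)) ^ (1/2:ℝ)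
      = tw ((k + l) / 2) * (ak S t * ak S' s) ^ (1/2:ℝ) := by
    have : (tw k * ak S t) * (tw l * ak S' s) = tw (k + l) * (ak S t * ak S' s) := by
      rw [tw_add]; ring
    rw [this, ENNReal.mul_rpow_of_nonneg _ _ (by norm_num), tw_pow]
    congr 2; ring
  rw [e6, e7]
  unfold qk
  rw [mul_assoc]

lemma qk_le_left (hF : Nice F) {S S' : Set (ℝ × V)} (hS : Lev S) (hS' : Lev S')
    (k l : ℝ) (p : ℝ × ℝ) : qk F S k S' l p ≤ tw k * Mk F S' l p.2 := by
  obtain ⟨t, s⟩ := p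
  obtain ⟨m1, m2⟩ := measurable_w hF hS hS' k l t s
  have m3 : Measurable (fun w : V × V => bk S k (t, w.1) * bk S' l (s, w.2) *
      ‖Gam F (t, w.1) (s, w.2)‖ₑ ^ 2) := m1.mul (m2.pow_const 2)
  unfold qk Mk
  simp only
  rw [Measure.volume_eq_prod, lintegral_prod_symm _ m3.aemeasurable,
    ← lintegral_const_mul' _ _ (tw_ne_top k)]
  refine lintegral_mono fun y => ?_
  simp only
  have h1 : ∀ x, bk S k (t, x) * bk S' l (s, y) * ‖Gam F (t, x) (s, y)‖ₑ ^ 2
      ≤ (tw k * bk S' l (s, y)) * ‖∑ j, conj (uu (F j) (s, y)) * uu (F j) (t, x)‖ₑ ^ 2 := by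
    intro x
    have : Gam F (t, x) (s, y) = ∑ j, conj (uu (F j) (s, y)) * uu (F j) (t, x) := by
      unfold Gam
      refine Finset.sum_congr rfl fun j _ => mul_comm _ _
    rw [this]
    exact mul_le_mul_left (mul_le_mul_left (bk_le _ _ _) _) _
  refine (lintegral_mono h1).trans ?_
  rw [lintegral_const_mul', mul_assoc]
  · apply mul_le_mul_right
    apply mul_le_mul_right
    refine (hF.slice t _).trans (le_of_eq ?_)
    unfold rho
    refine Finset.sum_congr rfl fun j _ => ?_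
    rw [← ofReal_norm, ← ofReal_norm, RCLike.norm_conj]
  · exact ENNReal.mul_ne_top (tw_ne_top _) ((bk_le S' l (s, y)).trans_lt (tw_ne_top l).lt_top).ne

lemma qk_symm {S S' : Set (ℝ × V)} (k l t s : ℝ) :
    qk F S k S' l (t, s) = qk F S' l S k (s, t) := by
  unfold qk
  simp only
  rw [Measure.volume_eq_prod, ← lintegral_prod_swap]
  refine lintegral_congr fun w => ?_
  obtain ⟨x, y⟩ := w
  simp only [Prod.swap]
  have : ‖Gam F (t, y) (s, x)‖ₑ = ‖Gam F (s, x) (t, y)‖ₑ := by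
    rw [← ofReal_norm, ← ofReal_norm, ← RCLike.norm_conj (Gam F (s, x) (t, y))]
    congr 2
    unfold Gam
    rw [map_sum]
    refine Finset.sum_congr rfl fun j _ => ?_
    rw [map_mul, Complex.conj_conj, mul_comm]
  rw [this, mul_comm (bk S k (t, y))]

lemma qk_le (hF : Nice F) {S S' : Set (ℝ × V)} (hS : Lev S) (hS' : Lev S')
    (k l : ℝ) (p : ℝ × ℝ) : qk F S k S' l p ≤ tw (min k l) * (Mk F S k p.1 + Mk F S' l p.2) := by
  obtain ⟨t, s⟩ := p
  rcases le_total k l with h | h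
  · rw [min_eq_left h]
    exact (qk_le_left hF hS hS' k l (t, s)).trans (mul_le_mul_right le_add_self _)
  · rw [min_eq_right h, qk_symm]
    exact (qk_le_left hF hS' hS l k (s, t)).trans (mul_le_mul_right le_self_add _)

theorem pairHyp (hF : Nice F) {ε : ℝ} (hε : 0 < ε) {S S' : Set (ℝ × V)} (hS : Lev S) (hS' : Lev S')
    (k l : ℝ) : PairHyp (Module.finrank ℝ V : ℝ) k l (Mk F S k) (Mk F S' l) (ak S) (ak S')
      (qk F S k S' l) (rk F ε S k S' l) where
  mMk := measurable_Mk hF hS.meas k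
  mMl := measurable_Mk hF hS'.meas l
  mak := measurable_ak hS.meas
  mal := measurable_ak hS'.meas
  mq := measurable_qk hF hS.meas hS'.meas k l
  short := rk_short hF hε hS hS' k l
  long := rk_long hF hε hS hS' k l
  qle := qk_le hF hS hS' k l

end Pool.Agent.U517.OS
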