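import Pool.Agent.U517.OS.Fix2

/-!
Global identities: the extension operator and the space-time Fourier transform.
-/

set_option autoImplicit false

namespace Pool.Agent.U517.OS

open MeasureTheory Complex
open scoped Real ENNReal ComplexConjugate RealInnerProductSpace FourierTransform

variable {V : Type*} [NormedAddCommGroup V] [InnerProductSpace ℝ V]
  [MeasurableSpace V] [BorelSpace V] [FiniteDimensional ℝ V]

/-- space-time Fourier transform restricted to the paraboloid -/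
noncomputable def Hat (α : ℝ × V → ℂ) (ξ : V) : ℂ := ∫ z, α z * conj (ex z ξ)

lemma continuous_Hat {α : ℝ × V → ℂ} (h1 : Integrable α) : Continuous (Hat α) := by
  unfold Hat
  apply continuous_of_dominated (bound := fun x => ‖α x‖)
  · intro ξ
    apply h1.aestronglyMeasurable.mul
    apply Continuous.aestronglyMeasurable
    unfold ex
    fun_prop
  · intro ξ
    refine Filter.Eventually.of_forall fun x => ?_
    rw [norm_mul, RCLike.norm_conj, norm_ex, mul_one]
  · exact h1.norm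
  · refine Filter.Eventually.of_forall fun x => ?_
    unfold ex
    fun_prop

lemma integrable_conj' {X : Type*} [MeasurableSpace X] {μ : Measure X} {β : X → ℂ}
    (hβ : Integrable β μ) : Integrable (fun y => conj (β y)) μ := by
  refine hβ.norm.mono' (Complex.continuous_conj.comp_aestronglyMeasurable hβ.1)
    (Filter.Eventually.of_forall fun y => ?_)
  rw [RCLike.norm_conj]

/-- The kernel formula in space-time. -/
lemma kernel_formula' {ε : ℝ} (hε : 0 < ε) {α β : ℝ × V → ℂ} (hα : Integrable α)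
    (hβ : Integrable β) :
    ∫ w : (ℝ × V) × (ℝ × V), α w.1 * conj (β w.2) * gk ε (w.2 - w.1)
      = ∫ ξ, Hat α ξ * conj (Hat β ξ) * (Real.exp (-ε * ‖ξ‖ ^ 2) : ℝ) := by
  have hβc : Integrable (fun y => conj (β y)) := integrable_conj' hβ
  have hαβ : Integrable (fun w : (ℝ × V) × (ℝ × V) => α w.1 * conj (β w.2)) := hα.mul_prod hβc
  have hg : Integrable (fun ξ : V => ((Real.exp (-ε * ‖ξ‖ ^ 2) : ℝ) : ℂ)) :=
    (integrable_gauss hε).ofReal
  have hbig : Integrable (fun p : V × ((ℝ × V) × (ℝ × V)) =>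
      ((Real.exp (-ε * ‖p.1‖ ^ 2) : ℝ) : ℂ) * (α p.2.1 * conj (β p.2.2))) := hg.mul_prod hαβ
  have hunim : Continuous (fun p : V × ((ℝ × V) × (ℝ × V)) => conj (ex p.2.1 p.1) * ex p.2.2 p.1) := by
    unfold ex; fun_prop
  have hint : Integrable (fun p : V × ((ℝ × V) × (ℝ × V)) => (((Real.exp (-ε * ‖p.1‖ ^ 2) : ℝ) : ℂ) *
      (α p.2.1 * conj (β p.2.2))) * (conj (ex p.2.1 p.1) * ex p.2.2 p.1)) := by
    refine hbig.norm.mono' (hbig.1.mul hunim.aestronglyMeasurable)
      (Filter.Eventually.of_forall fun p => ?_)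
    rw [norm_mul, norm_mul (conj _), RCLike.norm_conj, norm_ex, norm_ex, mul_one, mul_one]
  have h1 : ∀ ξ, Hat α ξ * conj (Hat β ξ) * (Real.exp (-ε * ‖ξ‖ ^ 2) : ℝ)
      = ∫ w : (ℝ × V) × (ℝ × V), (((Real.exp (-ε * ‖ξ‖ ^ 2) : ℝ) : ℂ) * (α w.1 * conj (β w.2))) *
        (conj (ex w.1 ξ) * ex w.2 ξ) := by
    intro ξ
    have e1 : conj (Hat β ξ) = ∫ y, conj (β y) * ex y ξ := by
      unfold Hat
      rw [← integral_conj]
      refine integral_congr_ae (Filter.Eventually.of_forall fun y => ?_)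
      simp
    rw [e1]
    unfold Hat
    rw [← integral_prod_mul (fun x => α x * conj (ex x ξ)) (fun y => conj (β y) * ex y ξ),
      ← integral_mul_const]
    refine integral_congr_ae (Filter.Eventually.of_forall fun w => ?_)
    simp only
    ring
  simp_rw [h1]
  rw [integral_integral_swap (f := fun (ξ : V) (w : (ℝ × V) × (ℝ × V)) =>
    (((Real.exp (-ε * ‖ξ‖ ^ 2) : ℝ) : ℂ) * (α w.1 * conj (β w.2))) *
        (conj (ex w.1 ξ) * ex w.2 ξ)) hint]
  refine integral_congr_ae (Filter.Eventually.of_forall fun w => ?_)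
  simp only
  unfold gk
  rw [← integral_const_mul]
  refine integral_congr_ae (Filter.Eventually.of_forall fun ξ => ?_)
  simp only
  rw [← conj_ex_mul_ex]
  ring

lemma integrable_kernel {ε : ℝ} (hε : 0 < ε) {h : (ℝ × V) × (ℝ × V) → ℂ} (hh : Integrable h) :
    Integrable (fun w : (ℝ × V) × (ℝ × V) => h w * gk ε (w.2 - w.1)) := by
  refine hh.mul_bdd (c := ∫ ξ : V, Real.exp (-ε * ‖ξ‖ ^ 2)) ?_
    (Filter.Eventually.of_forall fun w => ?_)
  · apply Continuous.aestronglyMeasurable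
    unfold gk
    apply continuous_of_dominated (bound := fun ξ => Real.exp (-ε * ‖ξ‖ ^ 2))
    · exact fun w => (integrable_ex_gauss hε _).1
    · intro w
      refine Filter.Eventually.of_forall fun ξ => ?_
      rw [norm_mul, norm_ex, one_mul, Complex.norm_real, Real.norm_eq_abs,
        abs_of_pos (Real.exp_pos _)]
    · exact integrable_gauss hε
    · refine Filter.Eventually.of_forall fun ξ => ?_
      unfold ex
      fun_prop
  · unfold gk
    refine (norm_integral_le_integral_norm _).trans (le_of_eq ?_)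
    refine integral_congr_ae (Filter.Eventually.of_forall fun ξ => ?_)
    simp only
    rw [norm_mul, norm_ex, one_mul, Complex.norm_real, Real.norm_eq_abs,
      abs_of_pos (Real.exp_pos _)]

/-- duality between restriction and extension -/
lemma ext_formula {α : ℝ × V → ℂ} (hα : Integrable α) {G : V → ℂ} (hG : Integrable G) :
    ∫ ξ, conj (G ξ) * Hat α ξ = ∫ z, α z * conj (uu G z) := by
  have hbig : Integrable (fun p : V × (ℝ × V) => conj (G p.1) * α p.2) :=
    (integrable_conj' hG).mul_prod hα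
  have hunim : Continuous (fun p : V × (ℝ × V) => conj (ex p.2 p.1)) := by
    unfold ex; fun_prop
  have hint : Integrable (fun p : V × (ℝ × V) => (conj (G p.1) * α p.2) * conj (ex p.2 p.1)) := by
    refine hbig.norm.mono' (hbig.1.mul hunim.aestronglyMeasurable)
      (Filter.Eventually.of_forall fun p => ?_)
    rw [norm_mul, RCLike.norm_conj, norm_ex, mul_one]
  have h1 : ∀ ξ, conj (G ξ) * Hat α ξ = ∫ z, (conj (G ξ) * α z) * conj (ex z ξ) := by
    intro ξ
    unfold Hat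
    rw [← integral_const_mul]
    refine integral_congr_ae (Filter.Eventually.of_forall fun z => ?_)
    simp only
    ring
  simp_rw [h1]
  rw [integral_integral_swap (f := fun (ξ : V) (z : ℝ × V) => (conj (G ξ) * α z) * conj (ex z ξ)) hint]
  refine integral_congr_ae (Filter.Eventually.of_forall fun z => ?_)
  simp only
  unfold uu
  rw [← integral_conj, ← integral_const_mul]
  refine integral_congr_ae (Filter.Eventually.of_forall fun ξ => ?_)
  simp only [map_mul]
  ring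

/-! ### Bessel's inequality -/

lemma enorm_conj' (z : ℂ) : ‖conj z‖ₑ = ‖z‖ₑ := by
  rw [← ofReal_norm, ← ofReal_norm, RCLike.norm_conj]

lemma bessel {ι : Type*} [Fintype ι] {F : ι → V → ℂ} (hF : Nice F) {g : V → ℂ}
    (hg : AEStronglyMeasurable g volume) :
    ∑ i, ‖∫ ξ, conj (F i ξ) * g ξ‖ₑ ^ 2 ≤ ∫⁻ ξ, ‖g ξ‖ₑ ^ 2 := by
  by_cases hfin : ∫⁻ ξ, ‖g ξ‖ₑ ^ 2 = ∞
  · rw [hfin]; exact le_top
  have hg2 : MemLp g 2 := by
    refine ⟨hg, ?_⟩
    rw [eLpNorm_lt_top_iff_lintegral_rpow_enorm_lt_top (by norm_num) (by norm_num)]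
    simpa using lt_top_iff_ne_top.mpr hfin
  set c : ι → ℂ := fun i => ∫ ξ, conj (F i ξ) * g ξ with hc
  set h : V → ℂ := fun ξ => ∑ i, c i * F i ξ with hh
  have hmem : MemLp h 2 := memLp_finsetSum _ fun j _ => (hF.l2 j).const_mul _
  have hint : ∀ i, Integrable (fun ξ => conj (F i ξ) * g ξ) := by
    intro i
    have h1 : MemLp (fun ξ => conj (F i ξ)) 2 :=
      (hF.l2 i).congr_norm (Complex.continuous_conj.comp_aestronglyMeasurable (hF.l2 i).1)
        (Filter.Eventually.of_forall fun ξ => (RCLike.norm_conj _).symm)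
    exact h1.integrable_mul hg2
  have e1 : ∫ ξ, conj (h ξ) * g ξ = ((∑ i, ‖c i‖ ^ 2 : ℝ) : ℂ) := by
    have : ∀ ξ, conj (h ξ) * g ξ = ∑ i, conj (c i) * (conj (F i ξ) * g ξ) := by
      intro ξ
      simp only [hh, map_sum, map_mul, Finset.sum_mul]
      refine Finset.sum_congr rfl fun i _ => by ring
    simp_rw [this]
    rw [integral_finsetSum _ (fun i _ => (hint i).const_mul _)]
    push_cast
    refine Finset.sum_congr rfl fun i _ => ?_
    rw [integral_const_mul]
    change conj (c i) * c i = _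
    rw [mul_comm, Complex.mul_conj, Complex.normSq_eq_norm_sq]
    push_cast
    rfl
  have e2 : ∑ i, ‖c i‖ₑ ^ 2 = ENNReal.ofReal (∑ i, ‖c i‖ ^ 2) := by
    rw [ENNReal.ofReal_sum_of_nonneg (fun i _ => by positivity)]
    refine Finset.sum_congr rfl fun i _ => ?_
    rw [← ofReal_norm, ENNReal.ofReal_pow (norm_nonneg _)]
  have hs0 : 0 ≤ ∑ i, ‖c i‖ ^ 2 := Finset.sum_nonneg fun i _ => by positivity
  have e3 : ∑ i, ‖c i‖ₑ ^ 2 ≤ (∫⁻ ξ, ‖h ξ‖ₑ ^ 2) ^ (1/2:ℝ) * (∫⁻ ξ, ‖g ξ‖ₑ ^ 2) ^ (1/2:ℝ) := by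
    have a1 : ∑ i, ‖c i‖ₑ ^ 2 = ‖∫ ξ, conj (h ξ) * g ξ‖ₑ := by
      rw [e1, e2, ← ofReal_norm, Complex.norm_real, Real.norm_eq_abs, abs_of_nonneg hs0]
    rw [a1]
    refine (enorm_integral_le_lintegral_enorm _).trans ?_
    have a2 : ∀ ξ, ‖conj (h ξ) * g ξ‖ₑ = ((fun ξ => ‖h ξ‖ₑ) * (fun ξ => ‖g ξ‖ₑ)) ξ := by
      intro ξ
      rw [enorm_mul, enorm_conj']
      rfl
    simp_rw [a2]
    refine (ENNReal.lintegral_mul_le_Lp_mul_Lq volume
      (Real.holderConjugate_iff.mpr ⟨by norm_num, by norm_num⟩ : (2:ℝ).HolderConjugate 2)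
      hmem.1.enorm hg.enorm).trans (le_of_eq ?_)
    simp
  have e4 := hF.so c
  set s := ∑ i, ‖c i‖ₑ ^ 2 with hs
  have hstop : s ≠ ∞ := by rw [e2]; exact ENNReal.ofReal_ne_top
  rcases eq_or_ne s 0 with h0 | h0
  · rw [h0]; exact zero_le
  have e5 : s ^ 2 ≤ s * ∫⁻ ξ, ‖g ξ‖ₑ ^ 2 := by
    calc s ^ 2 ≤ ((∫⁻ ξ, ‖h ξ‖ₑ ^ 2) ^ (1/2:ℝ) * (∫⁻ ξ, ‖g ξ‖ₑ ^ 2) ^ (1/2:ℝ)) ^ 2 := by
          gcongr
      _ = (∫⁻ ξ, ‖h ξ‖ₑ ^ 2) * (∫⁻ ξ, ‖g ξ‖ₑ ^ 2) := by
          rw [mul_pow, ← ENNReal.rpow_natCast, ← ENNReal.rpow_natCast, ← ENNReal.rpow_mul,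
            ← ENNReal.rpow_mul]
          norm_num
      _ ≤ _ := by gcongr
  rw [sq] at e5
  exact (ENNReal.mul_le_mul_iff_right h0 hstop).mp e5

end Pool.Agent.U517.OS
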