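import Mathlib

/-!
Rearrangement of the variables `((t,x),(s,y))` into `((t,s),(x,y))`.
-/

set_option autoImplicit false

namespace Pool.Agent.U517.OS

open MeasureTheory
open scoped ENNReal

variable {V : Type*} [MeasurableSpace V] (μ : Measure V) [SFinite μ]

/-- `((t,s),(x,y)) ↦ ((t,x),(s,y))` -/
def shuf (w : (ℝ × ℝ) × (V × V)) : (ℝ × V) × (ℝ × V) := ((w.1.1, w.2.1), (w.1.2, w.2.2))

omit [MeasurableSpace V] in
lemma shuf_apply (t s : ℝ) (x y : V) : shuf ((t, s), (x, y)) = ((t, x), (s, y)) := rfl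

lemma measurable_shuf : Measurable (shuf : (ℝ × ℝ) × (V × V) → (ℝ × V) × (ℝ × V)) := by
  unfold shuf; fun_prop

lemma lint_shuf (g : (ℝ × V) × (ℝ × V) → ℝ≥0∞) (hg : Measurable g) :
    ∫⁻ z, g z ∂(((volume : Measure ℝ).prod μ).prod ((volume : Measure ℝ).prod μ))
      = ∫⁻ p : ℝ × ℝ, ∫⁻ w : V × V, g ((p.1, w.1), (p.2, w.2)) ∂(μ.prod μ) := by
  rw [lintegral_prod _ hg.aemeasurable]
  have h1 : Measurable (fun z : ℝ × V => ∫⁻ z', g (z, z') ∂((volume : Measure ℝ).prod μ)) :=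
    hg.lintegral_prod_right'
  rw [lintegral_prod _ h1.aemeasurable]
  have h2 : Measurable (fun q : (ℝ × ℝ) × (V × V) => g ((q.1.1, q.2.1), (q.1.2, q.2.2))) :=
    hg.comp measurable_shuf
  have h3 : Measurable (fun p : ℝ × ℝ => ∫⁻ w : V × V, g ((p.1, w.1), (p.2, w.2)) ∂(μ.prod μ)) :=
    h2.lintegral_prod_right'
  rw [Measure.volume_eq_prod, lintegral_prod _ h3.aemeasurable]
  refine lintegral_congr fun t => ?_
  have e1 : ∀ x : V, ∫⁻ z', g ((t, x), z') ∂((volume : Measure ℝ).prod μ)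
      = ∫⁻ s, ∫⁻ y, g ((t, x), (s, y)) ∂μ := by
    intro x
    rw [lintegral_prod _ (by fun_prop)]
  have e2 : ∀ s : ℝ, ∫⁻ w : V × V, g ((t, w.1), (s, w.2)) ∂(μ.prod μ)
      = ∫⁻ x, ∫⁻ y, g ((t, x), (s, y)) ∂μ ∂μ := by
    intro s
    rw [lintegral_prod _ (by fun_prop)]
  simp_rw [e1]
  simp_rw [e2]
  rw [lintegral_lintegral_swap]
  apply Measurable.aemeasurable
  have : Measurable (fun q : (V × ℝ) × V => g ((t, q.1.1), (q.1.2, q.2))) := by fun_prop
  exact this.lintegral_prod_right'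

lemma mp_shuf : MeasurePreserving (shuf : (ℝ × ℝ) × (V × V) → (ℝ × V) × (ℝ × V))
    ((volume : Measure (ℝ × ℝ)).prod (μ.prod μ))
    (((volume : Measure ℝ).prod μ).prod ((volume : Measure ℝ).prod μ)) := by
  refine ⟨measurable_shuf, ?_⟩
  ext s hs
  rw [Measure.map_apply measurable_shuf hs]
  have h1 := lint_shuf μ (s.indicator 1) (measurable_one.indicator hs)
  rw [lintegral_indicator_one hs] at h1
  rw [h1, ← lintegral_indicator_one (measurable_shuf hs), lintegral_prod _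
    ((measurable_one.indicator (measurable_shuf hs)).aemeasurable)]
  rfl

lemma norm_int_shuf (f : (ℝ × V) × (ℝ × V) → ℂ)
    (hf : Integrable f (((volume : Measure ℝ).prod μ).prod ((volume : Measure ℝ).prod μ))) :
    ‖∫ z, f z ∂(((volume : Measure ℝ).prod μ).prod ((volume : Measure ℝ).prod μ))‖ₑ
      ≤ ∫⁻ p : ℝ × ℝ, ‖∫ w : V × V, f ((p.1, w.1), (p.2, w.2)) ∂(μ.prod μ)‖ₑ := by
  have hmp := mp_shuf μ
  have h1 : ∫ z, f z ∂(((volume : Measure ℝ).prod μ).prod ((volume : Measure ℝ).prod μ))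
      = ∫ w, f (shuf w) ∂((volume : Measure (ℝ × ℝ)).prod (μ.prod μ)) := by
    rw [← hmp.map_eq]
    rw [integral_map measurable_shuf.aemeasurable]
    rw [hmp.map_eq]
    exact hf.aestronglyMeasurable
  have h2 : Integrable (fun w => f (shuf w)) ((volume : Measure (ℝ × ℝ)).prod (μ.prod μ)) :=
    hmp.integrable_comp_of_integrable hf
  rw [h1, integral_prod _ h2]
  exact enorm_integral_le_lintegral_enorm _

end Pool.Agent.U517.OS
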