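import Pool.Agent.U517.OS.Glob
import Pool.Agent.U517.OS.Rearr

/-!
The potential, and the three global inequalities.
-/

set_option autoImplicit false

namespace Pool.Agent.U517.OS

open MeasureTheory Complex
open scoped Real ENNReal ComplexConjugate RealInnerProductSpace FourierTransform

variable {V : Type*} [NormedAddCommGroup V] [InnerProductSpace ℝ V]
  [MeasurableSpace V] [BorelSpace V] [FiniteDimensional ℝ V]
  {ι : Type*} [Fintype ι] {F : ι → V → ℂ}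

/-- the potential -/
noncomputable def WW (𝒦 : Finset ℤ) (S : ℤ → Set (ℝ × V)) (z : ℝ × V) : ℝ := ∑ k ∈ 𝒦, wk (S k) k z

/-- the potential in `[0,∞]` -/
noncomputable def BB (𝒦 : Finset ℤ) (S : ℤ → Set (ℝ × V)) (z : ℝ × V) : ℝ≥0∞ :=
  ∑ k ∈ 𝒦, bk (S k) k z

variable (𝒦 : Finset ℤ) (S : ℤ → Set (ℝ × V))

omit [InnerProductSpace ℝ V] [MeasurableSpace V] [BorelSpace V] [FiniteDimensional ℝ V] in
lemma WW_nonneg (z : ℝ × V) : 0 ≤ WW 𝒦 S z := Finset.sum_nonneg fun _ _ => wk_nonneg _ _ _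

omit [InnerProductSpace ℝ V] [MeasurableSpace V] [BorelSpace V] [FiniteDimensional ℝ V] in
lemma ofReal_WW (z : ℝ × V) : ENNReal.ofReal (WW 𝒦 S z) = BB 𝒦 S z := by
  unfold WW BB
  rw [ENNReal.ofReal_sum_of_nonneg (fun _ _ => wk_nonneg _ _ _)]
  exact Finset.sum_congr rfl fun _ _ => ofReal_wk _ _ _

lemma lev_finite {S : Set (ℝ × V)} (hS : Lev S) : volume S < ∞ := by
  obtain ⟨T, hT⟩ := hS.bdd
  refine (measure_mono hT).trans_lt ?_
  rw [Measure.volume_eq_prod, Measure.prod_prod]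
  exact ENNReal.mul_lt_top measure_Icc_lt_top measure_closedBall_lt_top

lemma integrable_wk {S : Set (ℝ × V)} (hS : Lev S) (k : ℝ) : Integrable (wk S k) := by
  have h1 : wk S k = S.indicator (fun _ => (2:ℝ) ^ k) := rfl
  rw [h1, integrable_indicator_iff hS.meas]
  exact integrableOn_const (lev_finite hS).ne

variable {𝒦 S}

lemma integrable_WW (hS : ∀ k, Lev (S k)) : Integrable (WW 𝒦 S) :=
  integrable_finsetSum _ fun k _ => integrable_wk (hS k) _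

lemma measurable_BB (hS : ∀ k, Lev (S k)) : Measurable (BB 𝒦 S) :=
  Finset.measurable_fun_sum _ fun k _ => measurable_bk (hS k).meas _

lemma integrable_W_mul (hS : ∀ k, Lev (S k)) {g : ℝ × V → ℂ} (hg : Continuous g) (c : ℝ)
    (hc : ∀ z, ‖g z‖ ≤ c) : Integrable (fun z => (WW 𝒦 S z : ℂ) * g z) :=
  (integrable_WW hS).ofReal.mul_bdd (c := c) hg.aestronglyMeasurable (Filter.Eventually.of_forall hc)

lemma integrable_al (hF : Nice F) (hS : ∀ k, Lev (S k)) (j : ι) :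
    Integrable (fun z => (WW 𝒦 S z : ℂ) * uu (F j) z) :=
  integrable_W_mul hS (continuous_uu (hF.int j)) _ (fun z => norm_uu_le z)

/-- the Gram matrix -/
noncomputable def GG (F : ι → V → ℂ) (𝒦 : Finset ℤ) (S : ℤ → Set (ℝ × V)) (i j : ι) : ℂ :=
  ∫ z, (WW 𝒦 S z : ℂ) * (conj (uu (F i) z) * uu (F j) z)

lemma integrable_GG (hF : Nice F) (hS : ∀ k, Lev (S k)) (i j : ι) :
    Integrable (fun z => (WW 𝒦 S z : ℂ) * (conj (uu (F i) z) * uu (F j) z)) := by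
  refine integrable_W_mul hS ?_ ((∫ ξ, ‖F i ξ‖) * ∫ ξ, ‖F j ξ‖) (fun z => ?_)
  · exact (Complex.continuous_conj.comp (continuous_uu (hF.int i))).mul (continuous_uu (hF.int j))
  · rw [norm_mul, RCLike.norm_conj]
    exact mul_le_mul (norm_uu_le z) (norm_uu_le z) (norm_nonneg _)
      ((norm_nonneg _).trans (norm_uu_le z))

lemma GG_conj (i j : ι) : conj (GG F 𝒦 S i j) = GG F 𝒦 S j i := by
  unfold GG
  rw [← integral_conj]
  refine integral_congr_ae (Filter.Eventually.of_forall fun z => ?_)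
  simp only [map_mul, Complex.conj_ofReal, Complex.conj_conj]
  ring

/-- Bessel for the Gram matrix. -/
lemma GG_bessel (hF : Nice F) (hS : ∀ k, Lev (S k)) (j : ι) :
    ∑ i, ‖GG F 𝒦 S i j‖ₑ ^ 2 ≤ ∫⁻ ξ, ‖Hat (fun z => (WW 𝒦 S z : ℂ) * uu (F j) z) ξ‖ₑ ^ 2 := by
  have h1 := bessel hF (g := Hat (fun z => (WW 𝒦 S z : ℂ) * uu (F j) z))
    (continuous_Hat (integrable_al hF hS j)).aestronglyMeasurable
  refine le_trans (le_of_eq ?_) h1
  refine Finset.sum_congr rfl fun i _ => ?_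
  rw [ext_formula (integrable_al hF hS j) (hF.int i)]
  unfold GG
  congr 3
  funext z
  ring

/-! ### the mass -/

lemma GG_diag (j : ι) : GG F 𝒦 S j j = ((∫ z, WW 𝒦 S z * ‖uu (F j) z‖ ^ 2 : ℝ) : ℂ) := by
  unfold GG
  rw [← integral_complex_ofReal]
  refine integral_congr_ae (Filter.Eventually.of_forall fun z => ?_)
  simp only
  rw [mul_comm (conj _), Complex.mul_conj, Complex.normSq_eq_norm_sq]
  push_cast
  rfl

lemma mass_eq (hF : Nice F) (hS : ∀ k, Lev (S k)) :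
    ∑ k ∈ 𝒦, ∫⁻ t, Mk F (S k) k t = ENNReal.ofReal (∑ j, ∫ z, WW 𝒦 S z * ‖uu (F j) z‖ ^ 2) := by
  have hint : ∀ j, Integrable (fun z => WW 𝒦 S z * ‖uu (F j) z‖ ^ 2) := by
    intro j
    have h1 := (integrable_GG hF hS (𝒦 := 𝒦) j j).re
    refine h1.congr (Filter.Eventually.of_forall fun z => ?_)
    change (((WW 𝒦 S z : ℝ) : ℂ) * (conj (uu (F j) z) * uu (F j) z)).re = _
    rw [Complex.re_ofReal_mul, mul_comm (conj _), Complex.mul_conj, Complex.normSq_eq_norm_sq,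
      Complex.ofReal_re]
  have h1 : ∀ k ∈ 𝒦, ∫⁻ t, Mk F (S k) k t = ∫⁻ z : ℝ × V, bk (S k) k z * rho F z := by
    intro k _
    unfold Mk
    rw [Measure.volume_eq_prod, lintegral_prod]
    exact ((measurable_bk (hS k).meas _).mul (measurable_rho hF)).aemeasurable
  have mm : ∀ k ∈ 𝒦, Measurable (fun z : ℝ × V => bk (S k) k z * rho F z) := fun k _ =>
    (measurable_bk (hS k).meas _).mul (measurable_rho hF)
  rw [Finset.sum_congr rfl h1, ← lintegral_finsetSum _ mm,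
    ← integral_finsetSum _ (fun j _ => hint j),
    ofReal_integral_eq_lintegral_ofReal (integrable_finsetSum _ fun j _ => hint j)]
  · refine lintegral_congr fun z => ?_
    rw [← Finset.sum_mul, ← Finset.mul_sum, ENNReal.ofReal_mul (WW_nonneg _ _ _), ofReal_WW]
    unfold BB rho
    congr 1
    rw [ENNReal.ofReal_sum_of_nonneg (fun _ _ => by positivity)]
    refine Finset.sum_congr rfl fun j _ => ?_
    rw [← ofReal_norm, ENNReal.ofReal_pow (norm_nonneg _)]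
  · exact Filter.Eventually.of_forall fun z =>
      Finset.sum_nonneg fun j _ => mul_nonneg (WW_nonneg _ _ _) (by positivity)

/-! ### the Hilbert-Schmidt norm -/

lemma measurable_q4 (hF : Nice F) {S S' : Set (ℝ × V)} (hS : Lev S) (hS' : Lev S') (k l : ℝ) :
    Measurable (fun w : (ℝ × V) × (ℝ × V) => bk S k w.1 * bk S' l w.2 * ‖Gam F w.1 w.2‖ₑ ^ 2) := by
  have h1 : Measurable (fun w : (ℝ × V) × (ℝ × V) => bk S k w.1) :=
    (measurable_bk hS.meas k).comp measurable_fst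
  have h2 : Measurable (fun w : (ℝ × V) × (ℝ × V) => bk S' l w.2) :=
    (measurable_bk hS'.meas l).comp measurable_snd
  have h3 : Measurable (fun w : (ℝ × V) × (ℝ × V) => Gam F w.1 w.2) :=
    (continuous_Gam hF).measurable
  exact (h1.mul h2).mul (h3.enorm.pow_const 2)

lemma integral_WWG (hF : Nice F) (hS : ∀ k, Lev (S k)) :
    Integrable (fun w : (ℝ × V) × (ℝ × V) => WW 𝒦 S w.1 * WW 𝒦 S w.2 * ‖Gam F w.1 w.2‖ ^ 2) ∧
    ∫ w : (ℝ × V) × (ℝ × V), WW 𝒦 S w.1 * WW 𝒦 S w.2 * ‖Gam F w.1 w.2‖ ^ 2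
      = ∑ i, ∑ j, ‖GG F 𝒦 S i j‖ ^ 2 := by
  have hpt : ∀ w : (ℝ × V) × (ℝ × V), ((WW 𝒦 S w.1 * WW 𝒦 S w.2 * ‖Gam F w.1 w.2‖ ^ 2 : ℝ) : ℂ)
      = ∑ i, ∑ j, ((WW 𝒦 S w.1 : ℂ) * (conj (uu (F j) w.1) * uu (F i) w.1)) *
        ((WW 𝒦 S w.2 : ℂ) * (conj (uu (F i) w.2) * uu (F j) w.2)) := by
    intro w
    have h1 : ((‖Gam F w.1 w.2‖ ^ 2 : ℝ) : ℂ) = Gam F w.1 w.2 * conj (Gam F w.1 w.2) := by
      rw [Complex.mul_conj, Complex.normSq_eq_norm_sq]
    rw [Complex.ofReal_mul, h1]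
    unfold Gam
    rw [map_sum, Finset.sum_mul_sum, Finset.mul_sum]
    refine Finset.sum_congr rfl fun i _ => ?_
    rw [Finset.mul_sum]
    refine Finset.sum_congr rfl fun j _ => ?_
    simp only [map_mul, Complex.conj_conj]
    push_cast
    ring
  have hi : ∀ i j, Integrable (fun w : (ℝ × V) × (ℝ × V) =>
      ((WW 𝒦 S w.1 : ℂ) * (conj (uu (F j) w.1) * uu (F i) w.1)) *
        ((WW 𝒦 S w.2 : ℂ) * (conj (uu (F i) w.2) * uu (F j) w.2))) := fun i j =>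
    (integrable_GG hF hS j i).mul_prod (integrable_GG hF hS i j)
  have hint : Integrable (fun w : (ℝ × V) × (ℝ × V) =>
      ((WW 𝒦 S w.1 * WW 𝒦 S w.2 * ‖Gam F w.1 w.2‖ ^ 2 : ℝ) : ℂ)) := by
    simp_rw [hpt]
    exact integrable_finsetSum _ fun i _ => integrable_finsetSum _ fun j _ => hi i j
  refine ⟨?_, ?_⟩
  · exact hint.re.congr (Filter.Eventually.of_forall fun w => Complex.ofReal_re _)
  · apply Complex.ofReal_injective
    rw [← integral_complex_ofReal]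
    simp_rw [hpt]
    rw [integral_finsetSum _ (fun i _ => integrable_finsetSum _ fun j _ => hi i j)]
    rw [Complex.ofReal_sum]
    refine Finset.sum_congr rfl fun i _ => ?_
    rw [integral_finsetSum _ (fun j _ => hi i j), Complex.ofReal_sum]
    refine Finset.sum_congr rfl fun j _ => ?_
    rw [Measure.volume_eq_prod]
    rw [integral_prod_mul (fun z : ℝ × V => (WW 𝒦 S z : ℂ) * (conj (uu (F j) z) * uu (F i) z))
      (fun z : ℝ × V => (WW 𝒦 S z : ℂ) * (conj (uu (F i) z) * uu (F j) z))]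
    change GG F 𝒦 S j i * GG F 𝒦 S i j = _
    rw [← GG_conj i j, mul_comm, Complex.mul_conj, Complex.normSq_eq_norm_sq]

lemma hs_eq (hF : Nice F) (hS : ∀ k, Lev (S k)) :
    ∑ k ∈ 𝒦, ∑ l ∈ 𝒦, ∫⁻ p, qk F (S k) k (S l) l p
      = ENNReal.ofReal (∑ i, ∑ j, ‖GG F 𝒦 S i j‖ ^ 2) := by
  obtain ⟨h1, h2⟩ := integral_WWG (𝒦 := 𝒦) hF hS
  rw [← h2, ofReal_integral_eq_lintegral_ofReal h1 (Filter.Eventually.of_forall fun w =>
    mul_nonneg (mul_nonneg (WW_nonneg _ _ _) (WW_nonneg _ _ _)) (by positivity))]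
  have h3 : ∀ k ∈ 𝒦, ∀ l ∈ 𝒦, ∫⁻ p, qk F (S k) k (S l) l p
      = ∫⁻ w : (ℝ × V) × (ℝ × V), bk (S k) k w.1 * bk (S l) l w.2 * ‖Gam F w.1 w.2‖ₑ ^ 2 := by
    intro k _ l _
    have := lint_shuf (volume : Measure V) _ (measurable_q4 hF (hS k) (hS l) k l)
    rw [Measure.volume_eq_prod (ℝ × V) (ℝ × V), Measure.volume_eq_prod ℝ V, this]
    unfold qk
    rw [Measure.volume_eq_prod V V]
  rw [Finset.sum_congr rfl fun k hk => Finset.sum_congr rfl fun l hl => h3 k hk l hl]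
  have h4 : ∀ k ∈ 𝒦, ∑ l ∈ 𝒦, ∫⁻ w : (ℝ × V) × (ℝ × V), bk (S k) k w.1 * bk (S l) l w.2 *
      ‖Gam F w.1 w.2‖ₑ ^ 2 = ∫⁻ w : (ℝ × V) × (ℝ × V), ∑ l ∈ 𝒦, bk (S k) k w.1 * bk (S l) l w.2 *
      ‖Gam F w.1 w.2‖ₑ ^ 2 := by
    intro k _
    rw [lintegral_finsetSum _ (fun l _ => measurable_q4 hF (hS k) (hS l) k l)]
  rw [Finset.sum_congr rfl h4, ← lintegral_finsetSum _ (fun k _ =>
    Finset.measurable_fun_sum _ fun l _ => measurable_q4 hF (hS k) (hS l) k l)]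
  refine lintegral_congr fun w => ?_
  rw [ENNReal.ofReal_mul (mul_nonneg (WW_nonneg _ _ _) (WW_nonneg _ _ _)),
    ENNReal.ofReal_mul (WW_nonneg _ _ _), ofReal_WW, ofReal_WW, ENNReal.ofReal_pow (norm_nonneg _),
    ofReal_norm]
  unfold BB
  rw [Finset.sum_mul_sum, Finset.sum_mul]
  refine Finset.sum_congr rfl fun k _ => ?_
  rw [Finset.sum_mul]

/-- Cauchy-Schwarz for the trace. -/
lemma mass_sq (hF : Nice F) (hS : ∀ k, Lev (S k)) (n : ℝ) (hn : (Fintype.card ι : ℝ) ≤ n) :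
    (∑ k ∈ 𝒦, ∫⁻ t, Mk F (S k) k t) ^ 2
      ≤ ENNReal.ofReal n * ∑ k ∈ 𝒦, ∑ l ∈ 𝒦, ∫⁻ p, qk F (S k) k (S l) l p := by
  have hn0 : 0 ≤ n := (Nat.cast_nonneg _).trans hn
  rw [mass_eq hF hS, hs_eq hF hS, ← ENNReal.ofReal_mul hn0,
    ← ENNReal.ofReal_pow (Finset.sum_nonneg fun j _ => integral_nonneg fun z =>
      mul_nonneg (WW_nonneg _ _ _) (by positivity))]
  apply ENNReal.ofReal_le_ofReal
  have h1 := sq_sum_le_card_mul_sum_sq (s := (Finset.univ : Finset ι))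
    (f := fun j => ∫ z, WW 𝒦 S z * ‖uu (F j) z‖ ^ 2)
  refine h1.trans ?_
  rw [Finset.card_univ]
  have h2 : ∀ j, (∫ z, WW 𝒦 S z * ‖uu (F j) z‖ ^ 2) ^ 2 = ‖GG F 𝒦 S j j‖ ^ 2 := by
    intro j
    rw [GG_diag, Complex.norm_real, Real.norm_eq_abs, sq_abs]
  simp_rw [h2]
  have h3 : ∑ j, ‖GG F 𝒦 S j j‖ ^ 2 ≤ ∑ i, ∑ j, ‖GG F 𝒦 S i j‖ ^ 2 := by
    refine Finset.sum_le_sum fun i _ => ?_
    exact Finset.single_le_sum (f := fun j => ‖GG F 𝒦 S i j‖ ^ 2) (fun j _ => by positivity)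
      (Finset.mem_univ i)
  exact mul_le_mul hn h3 (Finset.sum_nonneg fun j _ => by positivity) hn0

end Pool.Agent.U517.OS
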