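import Pool.Agent.U517.OS.Glob2

/-!
The core estimate for nice data.
-/

set_option autoImplicit false

namespace Pool.Agent.U517.OS

open MeasureTheory Complex
open scoped Real ENNReal ComplexConjugate RealInnerProductSpace FourierTransform

variable {V : Type*} [NormedAddCommGroup V] [InnerProductSpace ℝ V]
  [MeasurableSpace V] [BorelSpace V] [FiniteDimensional ℝ V]
  {ι : Type*} [Fintype ι] {F : ι → V → ℂ}

/-- the interaction of two levels, supremum over the regularisation -/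
noncomputable def rr (F : ι → V → ℂ) (S : Set (ℝ × V)) (k : ℝ) (S' : Set (ℝ × V)) (l : ℝ)
    (p : ℝ × ℝ) : ℝ≥0∞ := ⨆ ε : {ε : ℝ // 0 < ε}, rk F ε.1 S k S' l p

lemma pairHyp' (hF : Nice F) {S S' : Set (ℝ × V)} (hS : Lev S) (hS' : Lev S')
    (k l : ℝ) : PairHyp (Module.finrank ℝ V : ℝ) k l (Mk F S k) (Mk F S' l) (ak S) (ak S')
      (qk F S k S' l) (rr F S k S' l) where
  mMk := measurable_Mk hF hS.meas k
  mMl := measurable_Mk hF hS'.meas l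
  mak := measurable_ak hS.meas
  mal := measurable_ak hS'.meas
  mq := measurable_qk hF hS.meas hS'.meas k l
  short := fun p => iSup_le fun ε => rk_short hF ε.2 hS hS' k l p
  long := fun p hp => iSup_le fun ε => rk_long hF ε.2 hS hS' k l p hp
  qle := qk_le hF hS hS' k l

variable {𝒦 : Finset ℤ} {S : ℤ → Set (ℝ × V)}

lemma norm_Hat_le {α : ℝ × V → ℂ} (ξ : V) : ‖Hat α ξ‖ ≤ ∫ z, ‖α z‖ := by
  unfold Hat
  refine (norm_integral_le_integral_norm _).trans (le_of_eq ?_)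
  refine integral_congr_ae (Filter.Eventually.of_forall fun z => ?_)
  simp only
  rw [norm_mul, RCLike.norm_conj, norm_ex, mul_one]

lemma reg_bound (hF : Nice F) (hS : ∀ k, Lev (S k)) {ε : ℝ} (hε : 0 < ε) :
    ∑ j, ∫⁻ ξ, ‖Hat (fun z => (WW 𝒦 S z : ℂ) * uu (F j) z) ξ‖ₑ ^ 2 *
      ENNReal.ofReal (Real.exp (-ε * ‖ξ‖ ^ 2)) ≤ ∑ k ∈ 𝒦, ∑ l ∈ 𝒦, ∫⁻ p, rk F ε (S k) k (S l) l p := by
  set α : ι → ℝ × V → ℂ := fun j z => (WW 𝒦 S z : ℂ) * uu (F j) z with hα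
  have iα : ∀ j, Integrable (α j) := fun j => integrable_al hF hS j
  have hint : ∀ j, Integrable (fun ξ : V => ‖Hat (α j) ξ‖ ^ 2 * Real.exp (-ε * ‖ξ‖ ^ 2)) := by
    intro j
    refine (integrable_gauss (V := V) hε).bdd_mul (c := (∫ z, ‖α j z‖) ^ 2) ?_
      (Filter.Eventually.of_forall fun ξ => ?_)
    · exact ((continuous_Hat (iα j)).norm.pow 2).aestronglyMeasurable
    · rw [Real.norm_eq_abs, abs_of_nonneg (by positivity)]
      exact pow_le_pow_left₀ (norm_nonneg _) (norm_Hat_le ξ) 2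
  have h1 : ∀ j, ∫⁻ ξ, ‖Hat (α j) ξ‖ₑ ^ 2 * ENNReal.ofReal (Real.exp (-ε * ‖ξ‖ ^ 2))
      = ENNReal.ofReal (∫ ξ, ‖Hat (α j) ξ‖ ^ 2 * Real.exp (-ε * ‖ξ‖ ^ 2)) := by
    intro j
    rw [ofReal_integral_eq_lintegral_ofReal (hint j) (Filter.Eventually.of_forall fun ξ =>
      mul_nonneg (by positivity) (Real.exp_pos _).le)]
    refine lintegral_congr fun ξ => ?_
    rw [ENNReal.ofReal_mul (by positivity), ENNReal.ofReal_pow (norm_nonneg _), ofReal_norm]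
  change ∑ j, ∫⁻ ξ, ‖Hat (α j) ξ‖ₑ ^ 2 * ENNReal.ofReal (Real.exp (-ε * ‖ξ‖ ^ 2)) ≤ _
  simp_rw [h1]
  have hnn : ∀ j, 0 ≤ ∫ ξ, ‖Hat (α j) ξ‖ ^ 2 * Real.exp (-ε * ‖ξ‖ ^ 2) := fun j =>
    integral_nonneg fun ξ => mul_nonneg (by positivity) (Real.exp_pos _).le
  rw [← ENNReal.ofReal_sum_of_nonneg (fun j _ => hnn j)]
  have h2 : ENNReal.ofReal (∑ j, ∫ ξ, ‖Hat (α j) ξ‖ ^ 2 * Real.exp (-ε * ‖ξ‖ ^ 2))
      = ‖∑ j, ∫ ξ, Hat (α j) ξ * conj (Hat (α j) ξ) * (Real.exp (-ε * ‖ξ‖ ^ 2) : ℝ)‖ₑ := by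
    have : ∑ j, ∫ ξ, Hat (α j) ξ * conj (Hat (α j) ξ) * (Real.exp (-ε * ‖ξ‖ ^ 2) : ℝ)
        = ((∑ j, ∫ ξ, ‖Hat (α j) ξ‖ ^ 2 * Real.exp (-ε * ‖ξ‖ ^ 2) : ℝ) : ℂ) := by
      rw [Complex.ofReal_sum]
      refine Finset.sum_congr rfl fun j _ => ?_
      rw [← integral_complex_ofReal]
      refine integral_congr_ae (Filter.Eventually.of_forall fun ξ => ?_)
      simp only
      rw [Complex.mul_conj, Complex.normSq_eq_norm_sq, ← Complex.ofReal_mul]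
    rw [this, ← ofReal_norm, Complex.norm_real, Real.norm_eq_abs,
      abs_of_nonneg (Finset.sum_nonneg fun j _ => hnn j)]
  rw [h2]
  have hprod : ∀ j, Integrable (fun w : (ℝ × V) × (ℝ × V) => α j w.1 * conj (α j w.2) *
      gk ε (w.2 - w.1)) := fun j =>
    integrable_kernel hε ((iα j).mul_prod (integrable_conj' (iα j)))
  have hG : Continuous (fun w : (ℝ × V) × (ℝ × V) => Gam F w.1 w.2) := continuous_Gam hF
  have hGb : ∀ w : (ℝ × V) × (ℝ × V), ‖Gam F w.1 w.2‖ ≤ ∑ j, (∫ ξ, ‖F j ξ‖) * ∫ ξ, ‖F j ξ‖ := by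
    intro w
    unfold Gam
    refine (norm_sum_le _ _).trans (Finset.sum_le_sum fun j _ => ?_)
    rw [norm_mul, RCLike.norm_conj]
    exact mul_le_mul (norm_uu_le _) (norm_uu_le _) (norm_nonneg _)
      ((norm_nonneg _).trans (norm_uu_le w.1))
  have hkl : ∀ k l : ℤ, Integrable (fun w : (ℝ × V) × (ℝ × V) =>
      ((wk (S k) k w.1 * wk (S l) l w.2 : ℝ) : ℂ) * Gam F w.1 w.2 * gk ε (w.2 - w.1)) := by
    intro k l
    apply integrable_kernel hε (h := fun w : (ℝ × V) × (ℝ × V) =>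
      ((wk (S k) k w.1 * wk (S l) l w.2 : ℝ) : ℂ) * Gam F w.1 w.2)
    exact ((integrable_wk (hS k) k).mul_prod (integrable_wk (hS l) l)).ofReal.mul_bdd
      hG.aestronglyMeasurable (Filter.Eventually.of_forall hGb)
  have h3 : ∑ j, ∫ ξ, Hat (α j) ξ * conj (Hat (α j) ξ) * (Real.exp (-ε * ‖ξ‖ ^ 2) : ℝ)
      = ∑ k ∈ 𝒦, ∑ l ∈ 𝒦, ∫ w : (ℝ × V) × (ℝ × V),
        ((wk (S k) k w.1 * wk (S l) l w.2 : ℝ) : ℂ) * Gam F w.1 w.2 * gk ε (w.2 - w.1) := by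
    rw [Finset.sum_congr rfl (fun j _ => (kernel_formula' hε (iα j) (iα j)).symm),
      ← integral_finsetSum _ (fun j _ => hprod j)]
    have : ∀ k ∈ 𝒦, ∑ l ∈ 𝒦, ∫ w : (ℝ × V) × (ℝ × V),
        ((wk (S k) k w.1 * wk (S l) l w.2 : ℝ) : ℂ) * Gam F w.1 w.2 * gk ε (w.2 - w.1)
        = ∫ w : (ℝ × V) × (ℝ × V), ∑ l ∈ 𝒦,
        ((wk (S k) k w.1 * wk (S l) l w.2 : ℝ) : ℂ) * Gam F w.1 w.2 * gk ε (w.2 - w.1) := by
      intro k _
      rw [integral_finsetSum _ (fun l _ => hkl k l)]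
    rw [Finset.sum_congr rfl this, ← integral_finsetSum _ (fun k _ =>
      integrable_finsetSum _ fun l _ => hkl k l)]
    refine integral_congr_ae (Filter.Eventually.of_forall fun w => ?_)
    simp only [hα]
    have e1 : ∀ j, (WW 𝒦 S w.1 : ℂ) * uu (F j) w.1 * conj ((WW 𝒦 S w.2 : ℂ) * uu (F j) w.2) *
        gk ε (w.2 - w.1) = ((WW 𝒦 S w.1 : ℂ) * (WW 𝒦 S w.2 : ℂ)) *
        (uu (F j) w.1 * conj (uu (F j) w.2)) * gk ε (w.2 - w.1) := by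
      intro j
      simp only [map_mul, Complex.conj_ofReal]
      ring
    simp_rw [e1]
    rw [← Finset.sum_mul, ← Finset.mul_sum]
    change ((WW 𝒦 S w.1 : ℂ) * (WW 𝒦 S w.2 : ℂ)) * Gam F w.1 w.2 * gk ε (w.2 - w.1) = _
    unfold WW
    rw [Complex.ofReal_sum, Complex.ofReal_sum, Finset.sum_mul_sum, Finset.sum_mul, Finset.sum_mul]
    refine Finset.sum_congr rfl fun k _ => ?_
    rw [Finset.sum_mul, Finset.sum_mul]
    refine Finset.sum_congr rfl fun l _ => ?_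
    push_cast
    ring
  rw [h3]
  refine (enorm_sum_le _ _).trans (Finset.sum_le_sum fun k _ => ?_)
  refine (enorm_sum_le _ _).trans (Finset.sum_le_sum fun l _ => ?_)
  have h5 := norm_int_shuf (volume : Measure V) (fun w : (ℝ × V) × (ℝ × V) =>
    ((wk (S k) k w.1 * wk (S l) l w.2 : ℝ) : ℂ) * Gam F w.1 w.2 * gk ε (w.2 - w.1)) (hkl k l)
  exact h5

/-- The `TT*` inequality. -/
lemma hs_le (hF : Nice F) (hS : ∀ k, Lev (S k)) :
    ∑ k ∈ 𝒦, ∑ l ∈ 𝒦, ∫⁻ p, qk F (S k) k (S l) l p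
      ≤ ∑ k ∈ 𝒦, ∑ l ∈ 𝒦, ∫⁻ p, rr F (S k) k (S l) l p := by
  have h1 : ∑ k ∈ 𝒦, ∑ l ∈ 𝒦, ∫⁻ p, qk F (S k) k (S l) l p
      ≤ ∑ j, ∫⁻ ξ, ‖Hat (fun z => (WW 𝒦 S z : ℂ) * uu (F j) z) ξ‖ₑ ^ 2 := by
    rw [hs_eq hF hS, ENNReal.ofReal_sum_of_nonneg (fun i _ => Finset.sum_nonneg fun j _ => by positivity)]
    have : ∀ i, ENNReal.ofReal (∑ j, ‖GG F 𝒦 S i j‖ ^ 2) = ∑ j, ‖GG F 𝒦 S i j‖ₑ ^ 2 := by
      intro i
      rw [ENNReal.ofReal_sum_of_nonneg (fun j _ => by positivity)]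
      refine Finset.sum_congr rfl fun j _ => ?_
      rw [ENNReal.ofReal_pow (norm_nonneg _), ofReal_norm]
    simp_rw [this]
    rw [Finset.sum_comm]
    exact Finset.sum_le_sum fun j _ => GG_bessel hF hS j
  refine h1.trans ?_
  set g : V → ℝ≥0∞ := fun ξ => ∑ j, ‖Hat (fun z => (WW 𝒦 S z : ℂ) * uu (F j) z) ξ‖ₑ ^ 2 with hg
  have mH : ∀ j, Measurable (fun ξ : V => ‖Hat (fun z => (WW 𝒦 S z : ℂ) * uu (F j) z) ξ‖ₑ ^ 2) := by
    intro j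
    have := (continuous_Hat (integrable_al (𝒦 := 𝒦) hF hS j)).measurable
    exact this.enorm.pow_const 2
  have me : ∀ ε : ℝ, Measurable (fun ξ : V => ENNReal.ofReal (Real.exp (-ε * ‖ξ‖ ^ 2))) := by
    intro ε
    fun_prop
  have h2 : ∀ n : ℕ, ∫⁻ ξ, g ξ * ENNReal.ofReal (Real.exp (-(1 / ((n:ℝ) + 1)) * ‖ξ‖ ^ 2))
      ≤ ∑ k ∈ 𝒦, ∑ l ∈ 𝒦, ∫⁻ p, rr F (S k) k (S l) l p := by
    intro n
    have hε : (0:ℝ) < 1 / ((n:ℝ) + 1) := by positivity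
    have h3 := reg_bound (𝒦 := 𝒦) hF hS hε
    have h4 : ∫⁻ ξ, g ξ * ENNReal.ofReal (Real.exp (-(1 / ((n:ℝ) + 1)) * ‖ξ‖ ^ 2))
        = ∑ j, ∫⁻ ξ, ‖Hat (fun z => (WW 𝒦 S z : ℂ) * uu (F j) z) ξ‖ₑ ^ 2 *
      ENNReal.ofReal (Real.exp (-(1 / ((n:ℝ) + 1)) * ‖ξ‖ ^ 2)) := by
      have mm : ∀ j ∈ (Finset.univ : Finset ι), Measurable (fun ξ : V =>
          ‖Hat (fun z => (WW 𝒦 S z : ℂ) * uu (F j) z) ξ‖ₑ ^ 2 *
          ENNReal.ofReal (Real.exp (-(1 / ((n:ℝ) + 1)) * ‖ξ‖ ^ 2))) :=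
        fun j _ => (mH j).mul (me _)
      rw [← lintegral_finsetSum _ mm]
      refine lintegral_congr fun ξ => ?_
      rw [hg, Finset.sum_mul]
    rw [h4]
    refine h3.trans (Finset.sum_le_sum fun k _ => Finset.sum_le_sum fun l _ => ?_)
    refine lintegral_mono fun p => ?_
    unfold rr
    exact le_iSup (fun ε : {ε : ℝ // 0 < ε} => rk F ε.1 (S k) k (S l) l p) ⟨_, hε⟩
  have h5 : ∑ j, ∫⁻ ξ, ‖Hat (fun z => (WW 𝒦 S z : ℂ) * uu (F j) z) ξ‖ₑ ^ 2 = ∫⁻ ξ, g ξ := by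
    rw [← lintegral_finsetSum _ (fun j _ => mH j)]
  rw [h5]
  have h6 : ∀ ξ, Filter.Tendsto (fun n : ℕ => g ξ *
      ENNReal.ofReal (Real.exp (-(1 / ((n:ℝ) + 1)) * ‖ξ‖ ^ 2))) Filter.atTop (nhds (g ξ)) := by
    intro ξ
    have a1 : Filter.Tendsto (fun n : ℕ => Real.exp (-(1 / ((n:ℝ) + 1)) * ‖ξ‖ ^ 2)) Filter.atTop
        (nhds 1) := by
      have b1 : Filter.Tendsto (fun n : ℕ => (1:ℝ) / ((n:ℝ) + 1)) Filter.atTop (nhds 0) :=
        tendsto_one_div_add_atTop_nhds_zero_nat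
      have b2 := (b1.neg.mul_const (‖ξ‖ ^ 2)).rexp
      simpa using b2
    have a2 := ENNReal.tendsto_ofReal a1
    rw [ENNReal.ofReal_one] at a2
    have a3 := ENNReal.Tendsto.const_mul (a := g ξ) a2 (Or.inl one_ne_zero)
    simpa using a3
  have h7 : ∫⁻ ξ, g ξ ≤ Filter.liminf (fun n : ℕ => ∫⁻ ξ, g ξ *
      ENNReal.ofReal (Real.exp (-(1 / ((n:ℝ) + 1)) * ‖ξ‖ ^ 2))) Filter.atTop := by
    have : ∀ ξ, g ξ = Filter.liminf (fun n : ℕ => g ξ *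
      ENNReal.ofReal (Real.exp (-(1 / ((n:ℝ) + 1)) * ‖ξ‖ ^ 2))) Filter.atTop := fun ξ =>
      (h6 ξ).liminf_eq.symm
    calc ∫⁻ ξ, g ξ = ∫⁻ ξ, Filter.liminf (fun n : ℕ => g ξ *
          ENNReal.ofReal (Real.exp (-(1 / ((n:ℝ) + 1)) * ‖ξ‖ ^ 2))) Filter.atTop :=
          lintegral_congr this
      _ ≤ _ := lintegral_liminf_le fun n =>
          (Finset.measurable_fun_sum _ fun j _ => mH j).mul (me _)
  refine h7.trans ?_
  refine Filter.liminf_le_of_frequently_le' (Filter.Frequently.of_forall h2)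

lemma level_finite (hS : ∀ k, Lev (S k)) (k : ℤ) : ∫⁻ t, ak (S k) t ^ 2 ≠ ∞ := by
  obtain ⟨T, hT⟩ := (hS k).bdd
  have h1 : ∀ t, ak (S k) t ^ 2 ≤ (Set.Icc (-T) T).indicator
      (fun _ => (volume (Metric.closedBall (0:V) T)) ^ 2) t := by
    intro t
    by_cases ht : t ∈ Set.Icc (-T) T
    · rw [Set.indicator_of_mem ht]
      unfold ak
      have : Prod.mk t ⁻¹' (S k) ⊆ Metric.closedBall 0 T := fun x hx => (hT hx).2
      exact pow_le_pow_left₀ zero_le (measure_mono this) 2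
    · rw [Set.indicator_of_notMem ht]
      have : Prod.mk t ⁻¹' (S k) = ∅ := by
        ext x
        simp only [Set.mem_preimage, Set.mem_empty_iff_false, iff_false]
        intro hx
        exact ht (hT hx).1
      unfold ak
      rw [this]
      simp
  refine ((lintegral_mono h1).trans_lt ?_).ne
  rw [lintegral_indicator measurableSet_Icc, lintegral_const]
  refine ENNReal.mul_lt_top (ENNReal.pow_lt_top measure_closedBall_lt_top) ?_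
  rw [Measure.restrict_apply_univ]
  exact measure_Icc_lt_top

/-- The core estimate for nice data. -/
theorem nice_core (hd : 2 ≤ Module.finrank ℝ V) : ∃ C : ℝ, 0 < C ∧
    ∀ (ι : Type) [Fintype ι] (F : ι → V → ℂ), Nice F → ∀ (𝒦 : Finset ℤ) (S : ℤ → Set (ℝ × V)),
      (∀ k, Lev (S k)) → ∀ n : ℝ, 1 ≤ n → (Fintype.card ι : ℝ) ≤ n →
      (∑ k ∈ 𝒦, ∫⁻ t, Mk F (S k) k t) ^ ((Module.finrank ℝ V : ℝ) + 1)
      ≤ ENNReal.ofReal (C * n ^ (Module.finrank ℝ V : ℝ)) *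
        ∑ k ∈ 𝒦, tw (((Module.finrank ℝ V : ℝ) + 1) * k) * ∫⁻ t, ak (S k) t ^ 2 := by
  obtain ⟨C, hC, h⟩ := core (Module.finrank ℝ V : ℝ) (by exact_mod_cast hd)
  refine ⟨C, hC, fun ι _ F hF 𝒦 S hS n hn hcard => ?_⟩
  refine h 𝒦 (fun k => Mk F (S k) k) (fun k => ak (S k)) (fun k l => qk F (S k) k (S l) l)
    (fun k l => rr F (S k) k (S l) l) n hn (fun k _ l _ => pairHyp' hF (hS k) (hS l) k l)
    ?_ ?_ ?_ (hs_le hF hS) (mass_sq hF hS n hcard)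
  · rw [mass_eq hF hS]; exact ENNReal.ofReal_ne_top
  · rw [hs_eq hF hS]; exact ENNReal.ofReal_ne_top
  · exact ENNReal.sum_ne_top.mpr fun k _ => ENNReal.mul_ne_top (tw_ne_top _) (level_finite hS k)

end Pool.Agent.U517.OS
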