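import Pool.Agent.U517.OS.Evo

/-!
Partial Fourier transforms and the kernel formula.
-/

set_option autoImplicit false

namespace Pool.Agent.U517.OS

open MeasureTheory Complex
open scoped Real ENNReal ComplexConjugate RealInnerProductSpace FourierTransform

variable {V : Type*} [NormedAddCommGroup V] [InnerProductSpace ℝ V]
  [MeasurableSpace V] [BorelSpace V] [FiniteDimensional ℝ V]

/-- Fourier transform of the function `α`, transported back from time `t` -/
noncomputable def hat (t : ℝ) (α : V → ℂ) (ξ : V) : ℂ := ∫ x, α x * conj (ex (t, x) ξ)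

lemma norm_hat (t : ℝ) (α : V → ℂ) (ξ : V) : ‖hat t α ξ‖ = ‖𝓕 α ξ‖ := by
  have h1 : hat t α ξ = Complex.exp (((4 * π ^ 2 * t * ‖ξ‖ ^ 2 : ℝ) : ℂ) * I) * 𝓕 α ξ := by
    unfold hat
    rw [Real.fourier_eq' α ξ, ← integral_const_mul]
    refine integral_congr_ae (Filter.Eventually.of_forall fun x => ?_)
    simp only [smul_eq_mul]
    unfold ex
    rw [← Complex.exp_conj]
    have e1 : Complex.exp (conj ((((2 * π * ⟪x, ξ⟫ - 4 * π ^ 2 * t * ‖ξ‖ ^ 2 : ℝ) : ℂ) * I)))
        = Complex.exp (((4 * π ^ 2 * t * ‖ξ‖ ^ 2 : ℝ) : ℂ) * I)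
          * Complex.exp (((-2 * π * ⟪x, ξ⟫ : ℝ) : ℂ) * I) := by
      rw [← Complex.exp_add]
      congr 1
      simp only [map_mul, Complex.conj_ofReal, Complex.conj_I]
      push_cast
      ring
    rw [e1]
    ring
  rw [h1, norm_mul, Complex.norm_exp_ofReal_mul_I, one_mul]

lemma lint_hat (t : ℝ) {α : V → ℂ} (h1 : Integrable α) (h2 : MemLp α 2) :
    ∫⁻ ξ, ‖hat t α ξ‖ₑ ^ 2 = ∫⁻ x, ‖α x‖ₑ ^ 2 := by
  rw [← Pool.Agent.H153R4.plancherel α h1 h2]
  refine lintegral_congr fun ξ => ?_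
  rw [← ofReal_norm, ← ofReal_norm, norm_hat]

lemma measurable_hat (t : ℝ) {α : V → ℂ} (h1 : Integrable α) : Continuous (hat t α) := by
  unfold hat
  apply continuous_of_dominated (bound := fun x => ‖α x‖)
  · intro ξ
    apply h1.aestronglyMeasurable.mul
    apply Continuous.aestronglyMeasurable
    unfold ex
    fun_prop
  · intro ξ
    refine Filter.Eventually.of_forall fun x => ?_
    rw [norm_mul, RCLike.norm_conj, norm_ex, mul_one]
  · exact h1.norm
  · refine Filter.Eventually.of_forall fun x => ?_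
    unfold ex
    fun_prop

/-- The kernel formula. -/
lemma kernel_formula {ε : ℝ} (hε : 0 < ε) (t s : ℝ) {α β : V → ℂ} (hα : Integrable α)
    (hβ : Integrable β) :
    ∫ w : V × V, α w.1 * conj (β w.2) * gk ε ((s, w.2) - (t, w.1))
      = ∫ ξ, hat t α ξ * conj (hat s β ξ) * (Real.exp (-ε * ‖ξ‖ ^ 2) : ℝ) := by
  have hβc : Integrable (fun y => conj (β y)) := by
    refine hβ.norm.mono' (Complex.continuous_conj.comp_aestronglyMeasurable hβ.1)
      (Filter.Eventually.of_forall fun y => ?_)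
    rw [RCLike.norm_conj]
  have hαβ : Integrable (fun w : V × V => α w.1 * conj (β w.2)) := hα.mul_prod hβc
  have hg : Integrable (fun ξ : V => ((Real.exp (-ε * ‖ξ‖ ^ 2) : ℝ) : ℂ)) :=
    (integrable_gauss hε).ofReal
  have hbig : Integrable (fun p : V × (V × V) => ((Real.exp (-ε * ‖p.1‖ ^ 2) : ℝ) : ℂ) *
      (α p.2.1 * conj (β p.2.2))) := hg.mul_prod hαβ
  have hunim : Continuous (fun p : V × (V × V) => conj (ex (t, p.2.1) p.1) * ex (s, p.2.2) p.1) := by
    unfold ex; fun_prop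
  have hint : Integrable (fun p : V × (V × V) => (((Real.exp (-ε * ‖p.1‖ ^ 2) : ℝ) : ℂ) *
      (α p.2.1 * conj (β p.2.2))) * (conj (ex (t, p.2.1) p.1) * ex (s, p.2.2) p.1)) := by
    refine hbig.norm.mono' (hbig.1.mul hunim.aestronglyMeasurable)
      (Filter.Eventually.of_forall fun p => ?_)
    rw [norm_mul, norm_mul (conj _), RCLike.norm_conj, norm_ex, norm_ex, mul_one, mul_one]
  have h1 : ∀ ξ, hat t α ξ * conj (hat s β ξ) * (Real.exp (-ε * ‖ξ‖ ^ 2) : ℝ)
      = ∫ w : V × V, (((Real.exp (-ε * ‖ξ‖ ^ 2) : ℝ) : ℂ) * (α w.1 * conj (β w.2))) *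
        (conj (ex (t, w.1) ξ) * ex (s, w.2) ξ) := by
    intro ξ
    have e1 : conj (hat s β ξ) = ∫ y, conj (β y) * ex (s, y) ξ := by
      unfold hat
      rw [← integral_conj]
      refine integral_congr_ae (Filter.Eventually.of_forall fun y => ?_)
      simp
    rw [e1]
    unfold hat
    rw [← integral_prod_mul (fun x => α x * conj (ex (t, x) ξ)) (fun y => conj (β y) * ex (s, y) ξ),
      ← integral_mul_const]
    refine integral_congr_ae (Filter.Eventually.of_forall fun w => ?_)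
    simp only
    ring
  simp_rw [h1]
  rw [integral_integral_swap (f := fun (ξ : V) (w : V × V) =>
    (((Real.exp (-ε * ‖ξ‖ ^ 2) : ℝ) : ℂ) * (α w.1 * conj (β w.2))) *
        (conj (ex (t, w.1) ξ) * ex (s, w.2) ξ)) hint]
  refine integral_congr_ae (Filter.Eventually.of_forall fun w => ?_)
  simp only
  unfold gk
  rw [← integral_const_mul]
  refine integral_congr_ae (Filter.Eventually.of_forall fun ξ => ?_)
  simp only
  rw [← conj_ex_mul_ex]
  ring

end Pool.Agent.U517.OS
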