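import Mathlib

/-!
The characters of the paraboloid and the dispersive kernel bound.
-/

set_option autoImplicit false

namespace Pool.Agent.U517.OS

open MeasureTheory Complex
open scoped Real ENNReal ComplexConjugate RealInnerProductSpace

variable {V : Type*} [NormedAddCommGroup V] [InnerProductSpace ℝ V]

/-- `e(t,x;ξ) = exp(i (2π⟨x,ξ⟩ - 4π² t |ξ|²))` -/
noncomputable def ex (z : ℝ × V) (ξ : V) : ℂ :=
  Complex.exp (((2 * π * ⟪z.2, ξ⟫ - 4 * π ^ 2 * z.1 * ‖ξ‖ ^ 2 : ℝ) : ℂ) * I)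

lemma norm_ex (z : ℝ × V) (ξ : V) : ‖ex z ξ‖ = 1 := Complex.norm_exp_ofReal_mul_I _

lemma continuous_ex : Continuous (fun p : (ℝ × V) × V => ex p.1 p.2) := by
  unfold ex
  fun_prop

lemma conj_ex_mul_ex (z z' : ℝ × V) (ξ : V) : conj (ex z ξ) * ex z' ξ = ex (z' - z) ξ := by
  unfold ex
  rw [← Complex.exp_conj, ← Complex.exp_add]
  congr 1
  simp only [map_mul, Complex.conj_ofReal, Complex.conj_I, Prod.fst_sub, Prod.snd_sub,
    inner_sub_left]
  push_cast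
  ring

variable [MeasurableSpace V] [BorelSpace V] [FiniteDimensional ℝ V]

/-- the regularised kernel of the Schrödinger propagator -/
noncomputable def gk (ε : ℝ) (z : ℝ × V) : ℂ := ∫ ξ : V, ex z ξ * (Real.exp (-ε * ‖ξ‖ ^ 2) : ℝ)

lemma gk_integrand (ε : ℝ) (z : ℝ × V) (ξ : V) : ex z ξ * (Real.exp (-ε * ‖ξ‖ ^ 2) : ℝ)
    = Complex.exp (-((ε : ℂ) + 4 * π ^ 2 * z.1 * I) * ‖ξ‖ ^ 2 + (2 * π * I) * ⟪z.2, ξ⟫) := by
  unfold ex
  rw [Complex.ofReal_exp, ← Complex.exp_add]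
  congr 1
  push_cast
  ring

lemma integrable_gauss {ε : ℝ} (hε : 0 < ε) : Integrable (fun ξ : V => Real.exp (-ε * ‖ξ‖ ^ 2)) := by
  have h := (GaussianFourier.integrable_cexp_neg_mul_sq_norm_add (V := V) (b := (ε : ℂ))
    (by simpa using hε) 0 0).re
  refine h.congr (Filter.Eventually.of_forall fun ξ => ?_)
  simp only [inner_zero_left, Complex.ofReal_zero, mul_zero, add_zero]
  have : (-(ε : ℂ) * ‖ξ‖ ^ 2) = ((-ε * ‖ξ‖ ^ 2 : ℝ) : ℂ) := by push_cast; ring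
  rw [this, ← Complex.ofReal_exp]
  exact Complex.ofReal_re _

lemma integrable_ex_gauss {ε : ℝ} (hε : 0 < ε) (z : ℝ × V) :
    Integrable (fun ξ : V => ex z ξ * (Real.exp (-ε * ‖ξ‖ ^ 2) : ℝ)) := by
  refine (integrable_gauss (V := V) hε).mono' ?_ (Filter.Eventually.of_forall fun ξ => ?_)
  · apply Continuous.aestronglyMeasurable
    unfold ex
    fun_prop
  · rw [norm_mul, norm_ex, one_mul, Complex.norm_real, Real.norm_eq_abs, abs_of_pos (Real.exp_pos _)]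

/-- The dispersive bound. -/
lemma norm_gk_le {ε : ℝ} (hε : 0 < ε) (z : ℝ × V) (hz : z.1 ≠ 0) :
    ‖gk ε z‖ ≤ (4 * π * |z.1|) ^ (-(Module.finrank ℝ V : ℝ) / 2) := by
  unfold gk
  simp_rw [gk_integrand]
  set b : ℂ := (ε : ℂ) + 4 * π ^ 2 * z.1 * I with hb
  have hbre : b.re = ε := by
    rw [hb]
    simp [← Complex.ofReal_pow]
  have hbim : b.im = 4 * π ^ 2 * z.1 := by
    rw [hb]
    simp [← Complex.ofReal_pow]
  have hb0 : 0 < b.re := by rw [hbre]; exact hε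
  rw [GaussianFourier.integral_cexp_neg_mul_sq_norm_add hb0]
  have hbn : b ≠ 0 := by
    intro h; rw [h] at hb0; simp at hb0
  have hnb : 0 < ‖b‖ := norm_pos_iff.mpr hbn
  have hbig : 4 * π ^ 2 * |z.1| ≤ ‖b‖ := by
    have h := Complex.abs_im_le_norm b
    rw [hbim, abs_mul, abs_of_pos (by positivity : (0:ℝ) < 4 * π ^ 2)] at h
    exact h
  have hzpos : 0 < |z.1| := abs_pos.mpr hz
  rw [norm_mul]
  have h1 : ‖((π : ℂ) / b) ^ ((Module.finrank ℝ V : ℂ) / 2)‖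
      ≤ (4 * π * |z.1|) ^ (-(Module.finrank ℝ V : ℝ) / 2) := by
    have e1 : ((Module.finrank ℝ V : ℂ) / 2) = (((Module.finrank ℝ V : ℝ) / 2 : ℝ) : ℂ) := by
      push_cast; ring
    rw [e1, Complex.norm_cpow_real, norm_div, Complex.norm_real, Real.norm_eq_abs,
      abs_of_pos Real.pi_pos]
    have e2 : (4 * π * |z.1|) ^ (-(Module.finrank ℝ V : ℝ) / 2)
        = ((4 * π * |z.1|)⁻¹) ^ ((Module.finrank ℝ V : ℝ) / 2) := by
      rw [neg_div, Real.rpow_neg (by positivity), Real.inv_rpow (by positivity)]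
    rw [e2]
    apply Real.rpow_le_rpow (by positivity) _ (by positivity)
    rw [div_le_iff₀ hnb]
    calc π = (4 * π * |z.1|)⁻¹ * (4 * π ^ 2 * |z.1|) := by
          field_simp
      _ ≤ (4 * π * |z.1|)⁻¹ * ‖b‖ := by
          apply mul_le_mul_of_nonneg_left hbig (by positivity)
  have h2 : ‖Complex.exp ((2 * π * I) ^ 2 * ‖z.2‖ ^ 2 / (4 * b))‖ ≤ 1 := by
    rw [Complex.norm_exp, Real.exp_le_one_iff]
    have e3 : (2 * (π : ℂ) * I) ^ 2 * ‖z.2‖ ^ 2 / (4 * b) = ((-(π ^ 2 * ‖z.2‖ ^ 2) : ℝ) : ℂ) * b⁻¹ := by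
      rw [mul_pow, Complex.I_sq]
      field_simp
      push_cast
      ring
    rw [e3, Complex.re_ofReal_mul, Complex.inv_re]
    have : 0 ≤ b.re / Complex.normSq b := div_nonneg hb0.le (Complex.normSq_nonneg _)
    nlinarith [mul_nonneg (mul_nonneg (sq_nonneg π) (sq_nonneg ‖z.2‖)) this]
  calc _ ≤ (4 * π * |z.1|) ^ (-(Module.finrank ℝ V : ℝ) / 2) * 1 :=
        mul_le_mul h1 h2 (norm_nonneg _) (by positivity)
    _ = _ := mul_one _

end Pool.Agent.U517.OS
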