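import Pool.Agent.U517.OS.Dual2

/-!
The Schrödinger propagator on `L²`, truncations, and a.e. convergence.
-/

set_option autoImplicit false

namespace Pool.Agent.U517.OS

open MeasureTheory Complex Filter
open scoped Real ENNReal ComplexConjugate RealInnerProductSpace FourierTransform SchwartzMap ContDiff

variable {V : Type*} [NormedAddCommGroup V] [InnerProductSpace ℝ V]
  [MeasurableSpace V] [BorelSpace V] [FiniteDimensional ℝ V]

lemma fourierInv_ae_eq (f : V → ℂ) (h1 : Integrable f) (h2 : MemLp f 2) :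
    ((𝓕⁻ (h2.toLp f) : Lp ℂ 2 (volume : Measure V)) : V → ℂ) =ᵐ[volume] 𝓕⁻ f := by
  have h1n : Integrable (fun x => f (-x)) := h1.comp_neg
  have hcont : Continuous (𝓕⁻ f) := by
    rw [Real.fourierInv_eq_fourier_comp_neg]
    have := VectorFourier.fourierIntegral_continuous (L := innerₗ V) Real.continuous_fourierChar
      continuous_inner h1n
    exact this
  apply ae_eq_of_integral_contDiff_smul_eq
  · exact (Lp.memLp _).locallyIntegrable (by norm_num)
  · exact hcont.locallyIntegrable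
  · intro g g_smooth g_cpt
    have hg₁ : HasCompactSupport (Complex.ofRealCLM ∘ g) := g_cpt.comp_left rfl
    have hg₂ : ContDiff ℝ ∞ (Complex.ofRealCLM ∘ g) := by fun_prop
    set gS : 𝓢(V, ℂ) := hg₁.toSchwartzMap hg₂ with hgS
    have hgx : ∀ x, gS x = (g x : ℂ) := fun x => rfl
    have e1 : ∫ x, g x • ((𝓕⁻ (h2.toLp f) : Lp ℂ 2 (volume : Measure V)) : V → ℂ) x =
        ((𝓕⁻ (h2.toLp f) : Lp ℂ 2 (volume : Measure V)) : 𝓢'(V, ℂ)) gS := by
      rw [Lp.toTemperedDistribution_apply]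
      simp [hgx]
    rw [e1, ← Lp.fourierInv_toTemperedDistribution_eq, TemperedDistribution.fourierInv_apply,
      Lp.toTemperedDistribution_apply]
    have e2 : ∫ x, (𝓕⁻ gS) x • (h2.toLp f : V → ℂ) x = ∫ x, (𝓕⁻ gS) x • f x := by
      apply integral_congr_ae
      filter_upwards [h2.coeFn_toLp] with x hx
      rw [hx]
    rw [e2]
    have e3 := VectorFourier.integral_fourierIntegral_smul_eq_flip (L := innerₗ V)
      Real.continuous_fourierChar continuous_inner gS.integrable h1n (μ := volume) (ν := volume)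
    simp only [flip_innerₗ] at e3
    have e4 : ∫ x, (𝓕⁻ gS) x • f x = ∫ x, gS x • (𝓕⁻ f) x := by
      rw [SchwartzMap.fourierInv_coe, Real.fourierInv_eq_fourier_comp_neg f]
      have e6 := integral_neg_eq_self (fun x => (𝓕⁻ (gS : V → ℂ)) x • f x) (volume : Measure V)
      rw [← e6]
      have e5 : ∀ x, (𝓕⁻ (gS : V → ℂ)) (-x) • f (-x) = (𝓕 (gS : V → ℂ)) x • f (-x) := by
        intro x
        rw [Real.fourierInv_eq_fourier_neg, neg_neg]
      simp_rw [e5]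
      exact e3
    rw [e4]
    simp [hgx]

/-! ### the propagator -/

/-- the phase `exp(-4π² i t |ξ|²)` -/
noncomputable def phase (t : ℝ) (ξ : V) : ℂ := Complex.exp (-(4 * π ^ 2 * t * ‖ξ‖ ^ 2 : ℝ) * I)

omit [MeasurableSpace V] [BorelSpace V] [FiniteDimensional ℝ V] [InnerProductSpace ℝ V] in
lemma norm_phase (t : ℝ) (ξ : V) : ‖phase t ξ‖ = 1 := by
  unfold phase
  rw [← Complex.ofReal_neg]
  exact Complex.norm_exp_ofReal_mul_I _

omit [MeasurableSpace V] [BorelSpace V] [FiniteDimensional ℝ V] [InnerProductSpace ℝ V] in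
lemma continuous_phase (t : ℝ) : Continuous (phase t : V → ℂ) := by
  unfold phase
  fun_prop

lemma memLp_phase (t : ℝ) {g : V → ℂ} (hg : MemLp g 2) : MemLp (fun ξ => phase t ξ * g ξ) 2 :=
  hg.congr_norm ((continuous_phase t).aestronglyMeasurable.mul hg.1)
    (Eventually.of_forall fun ξ => by rw [norm_mul, norm_phase, one_mul])

/-- multiplication by the phase on `L²` -/
noncomputable def mult (t : ℝ) (g : Lp ℂ 2 (volume : Measure V)) : Lp ℂ 2 (volume : Measure V) :=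
  (memLp_phase t (Lp.memLp g)).toLp _

/-- The free Schrödinger propagator `e^{itΔ}` on `L²`: with `𝓕 f(ξ) = ∫ f(x) e^{-2πi⟨x,ξ⟩} dx`,
`𝓕 (e^{itΔ} f)(ξ) = e^{-4π² i t |ξ|²} 𝓕 f(ξ)`. -/
noncomputable def schro (t : ℝ) (f : Lp ℂ 2 (volume : Measure V)) : Lp ℂ 2 (volume : Measure V) :=
  𝓕⁻ (mult t (𝓕 f))

lemma lint_eq_norm (h : Lp ℂ 2 (volume : Measure V)) : ∫⁻ x, ‖h x‖ₑ ^ 2 = ‖h‖ₑ ^ 2 := by
  rw [Lp.enorm_def]
  have b1 := eLpNorm_nnreal_pow_eq_lintegral (f := (h : V → ℂ)) (μ := (volume : Measure V)) (p := 2)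
    (by norm_num)
  have c1 : (((2 : NNReal) : ℝ≥0∞)) = 2 := by norm_num
  rw [c1] at b1
  simp only [NNReal.coe_ofNat, ENNReal.rpow_ofNat] at b1
  exact b1.symm

lemma lint_sub (h h' : Lp ℂ 2 (volume : Measure V)) : ∫⁻ x, ‖h x - h' x‖ₑ ^ 2 = ‖h - h'‖ₑ ^ 2 := by
  rw [← lint_eq_norm]
  refine lintegral_congr_ae ?_
  filter_upwards [Lp.coeFn_sub h h'] with x hx
  rw [hx]
  rfl

lemma mult_sub (t : ℝ) (g g' : Lp ℂ 2 (volume : Measure V)) : ‖mult t g - mult t g'‖ₑ ^ 2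
    = ‖g - g'‖ₑ ^ 2 := by
  rw [← lint_sub, ← lint_sub]
  refine lintegral_congr_ae ?_
  filter_upwards [(memLp_phase t (Lp.memLp g)).coeFn_toLp, (memLp_phase t (Lp.memLp g')).coeFn_toLp]
    with ξ h1 h2
  unfold mult
  rw [h1, h2, ← mul_sub, enorm_mul, ← ofReal_norm (phase t ξ), norm_phase, ENNReal.ofReal_one, one_mul]

lemma fourierInv_sub_norm (g g' : Lp ℂ 2 (volume : Measure V)) : ‖𝓕⁻ g - 𝓕⁻ g'‖ₑ = ‖g - g'‖ₑ := by
  have h1 : (𝓕⁻ g - 𝓕⁻ g' : Lp ℂ 2 (volume : Measure V)) = 𝓕⁻ (g - g') :=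
    ((Lp.fourierTransformₗᵢ V ℂ).symm.map_sub g g').symm
  rw [h1, ← ofReal_norm, ← ofReal_norm]
  congr 1
  exact (Lp.fourierTransformₗᵢ V ℂ).symm.norm_map (g - g')

/-- For nice data the integral formula represents the propagator. -/
lemma uu_ae_eq (t : ℝ) {G : V → ℂ} (h1 : Integrable G) (h2 : MemLp G 2) :
    ((𝓕⁻ (mult t (h2.toLp G)) : Lp ℂ 2 (volume : Measure V)) : V → ℂ) =ᵐ[volume]
      fun x => uu G (t, x) := by
  have i1 : Integrable (fun ξ => phase t ξ * G ξ) := by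
    refine h1.norm.mono' ((continuous_phase t).aestronglyMeasurable.mul h1.1)
      (Eventually.of_forall fun ξ => ?_)
    rw [norm_mul, norm_phase, one_mul]
  have i2 : MemLp (fun ξ => phase t ξ * G ξ) 2 := memLp_phase t h2
  have e1 : mult t (h2.toLp G) = i2.toLp _ := by
    unfold mult
    rw [MemLp.toLp_eq_toLp_iff]
    filter_upwards [h2.coeFn_toLp] with ξ h
    rw [h]
  rw [e1]
  refine (fourierInv_ae_eq _ i1 i2).trans (Eventually.of_forall fun x => ?_)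
  rw [Real.fourierInv_eq']
  unfold uu
  refine integral_congr_ae (Eventually.of_forall fun ξ => ?_)
  simp only [smul_eq_mul]
  unfold phase ex
  have e2 : Complex.exp (((2 * π * ⟪x, ξ⟫ - 4 * π ^ 2 * t * ‖ξ‖ ^ 2 : ℝ) : ℂ) * I)
      = Complex.exp (((2 * π * ⟪ξ, x⟫ : ℝ) : ℂ) * I) *
        Complex.exp (-(4 * π ^ 2 * t * ‖ξ‖ ^ 2 : ℝ) * I) := by
    rw [← Complex.exp_add, real_inner_comm x ξ]
    congr 1
    push_cast
    ring
  rw [e2]
  ring

lemma schro_sub (t : ℝ) {G : V → ℂ} (h1 : Integrable G) (h2 : MemLp G 2)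
    (f : Lp ℂ 2 (volume : Measure V)) :
    ∫⁻ x, ‖uu G (t, x) - schro t f x‖ₑ ^ 2 = ∫⁻ ξ, ‖G ξ - (𝓕 f : Lp ℂ 2 (volume : Measure V)) ξ‖ₑ ^ 2 := by
  have e1 : ∫⁻ x, ‖uu G (t, x) - schro t f x‖ₑ ^ 2
      = ∫⁻ x, ‖(𝓕⁻ (mult t (h2.toLp G)) : Lp ℂ 2 (volume : Measure V)) x - schro t f x‖ₑ ^ 2 := by
    refine lintegral_congr_ae ?_
    filter_upwards [uu_ae_eq t h1 h2] with x hx
    rw [hx]
  rw [e1, lint_sub]
  unfold schro
  rw [fourierInv_sub_norm, mult_sub, ← lint_sub]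
  refine lintegral_congr_ae ?_
  filter_upwards [h2.coeFn_toLp] with x hx
  rw [hx]

end Pool.Agent.U517.OS
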