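import Pool.Agent.U517.OS.Prop

/-!
Truncation of the Fourier transform, almost everywhere convergence, the bound for finitely many
orthonormal functions.
-/

set_option autoImplicit false

namespace Pool.Agent.U517.OS

open MeasureTheory Complex Filter
open scoped Real ENNReal ComplexConjugate RealInnerProductSpace FourierTransform Topology

variable {V : Type*} [NormedAddCommGroup V] [InnerProductSpace ℝ V]
  [MeasurableSpace V] [BorelSpace V] [FiniteDimensional ℝ V]

/-- truncation to the ball of radius `m` -/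
noncomputable def tr (m : ℕ) (g : V → ℂ) : V → ℂ := (Metric.closedBall (0:V) m).indicator g

lemma memLp_tr (m : ℕ) {g : V → ℂ} (hg : MemLp g 2) : MemLp (tr m g) 2 :=
  hg.indicator measurableSet_closedBall

lemma integrable_tr (m : ℕ) {g : V → ℂ} (hg : MemLp g 2) : Integrable (tr m g) := by
  unfold tr
  rw [integrable_indicator_iff measurableSet_closedBall]
  have : IsFiniteMeasure (volume.restrict (Metric.closedBall (0:V) m)) :=
    ⟨by rw [Measure.restrict_apply_univ]; exact measure_closedBall_lt_top⟩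
  exact (hg.restrict _).integrable (by norm_num)

lemma tail_tendsto {g : V → ℂ} (hg : MemLp g 2) :
    Tendsto (fun m : ℕ => ∫⁻ ξ, ‖tr m g ξ - g ξ‖ₑ ^ 2) atTop (𝓝 0) := by
  have h0 : ∫⁻ ξ : V, (0 : ℝ≥0∞) = 0 := lintegral_zero
  rw [← h0]
  apply tendsto_lintegral_of_dominated_convergence' (fun ξ => ‖g ξ‖ₑ ^ 2)
  · intro m
    exact ((memLp_tr m hg).1.sub hg.1).enorm.pow_const 2
  · intro m
    refine Eventually.of_forall fun ξ => ?_
    unfold tr
    by_cases h : ξ ∈ Metric.closedBall (0:V) m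
    · simp [Set.indicator_of_mem h]
    · simp [Set.indicator_of_notMem h]
  · have h1 := hg.2
    rw [eLpNorm_lt_top_iff_lintegral_rpow_enorm_lt_top (by norm_num) (by norm_num)] at h1
    simpa using h1.ne
  · refine Eventually.of_forall fun ξ => ?_
    apply tendsto_const_nhds.congr'
    obtain ⟨N, hN⟩ := exists_nat_ge ‖ξ‖
    filter_upwards [eventually_ge_atTop N] with m hm
    have : ξ ∈ Metric.closedBall (0:V) m := by
      rw [mem_closedBall_zero_iff]
      exact hN.trans (by exact_mod_cast hm)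
    unfold tr
    rw [Set.indicator_of_mem this]
    simp

lemma exists_mm {g : V → ℂ} (hg : MemLp g 2) (l : ℕ) :
    ∃ M : ℕ, ∀ m ≥ M, ∫⁻ ξ, ‖tr m g ξ - g ξ‖ₑ ^ 2 ≤ (2⁻¹ : ℝ≥0∞) ^ l := by
  have h1 : (0 : ℝ≥0∞) < (2⁻¹ : ℝ≥0∞) ^ l := by
    apply ENNReal.pow_pos
    simp
  exact eventually_atTop.mp ((tail_tendsto hg).eventually (ge_mem_nhds h1))

/-- a sequence of truncations which converges fast -/
noncomputable def mm (f : Lp ℂ 2 (volume : Measure V)) (l : ℕ) : ℕ :=
  Classical.choose (exists_mm (Lp.memLp (𝓕 f : Lp ℂ 2 (volume : Measure V))) l)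

lemma mm_spec (f : Lp ℂ 2 (volume : Measure V)) (l : ℕ) (m : ℕ) (hm : mm f l ≤ m) :
    ∫⁻ ξ, ‖tr m (𝓕 f : Lp ℂ 2 (volume : Measure V)) ξ - (𝓕 f : Lp ℂ 2 (volume : Measure V)) ξ‖ₑ ^ 2
      ≤ (2⁻¹ : ℝ≥0∞) ^ l :=
  Classical.choose_spec (exists_mm (Lp.memLp (𝓕 f : Lp ℂ 2 (volume : Measure V))) l) m hm

/-- the truncated solution -/
noncomputable def us (m : ℕ) (f : Lp ℂ 2 (volume : Measure V)) : ℝ × V → ℂ :=
  uu (tr m (𝓕 f : Lp ℂ 2 (volume : Measure V)))

lemma continuous_us (m : ℕ) (f : Lp ℂ 2 (volume : Measure V)) : Continuous (us m f) :=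
  continuous_uu (integrable_tr m (Lp.memLp _))

lemma us_ae_tendsto (f : Lp ℂ 2 (volume : Measure V)) (m : ℕ → ℕ) (hm : ∀ l, mm f l ≤ m l) (t : ℝ) :
    ∀ᵐ x : V, Tendsto (fun l => us (m l) f (t, x)) atTop (𝓝 (schro t f x)) := by
  have h1 : ∫⁻ x, ∑' l, ‖us (m l) f (t, x) - schro t f x‖ₑ ^ 2 ≠ ∞ := by
    rw [lintegral_tsum]
    · have h2 : ∀ l, ∫⁻ x, ‖us (m l) f (t, x) - schro t f x‖ₑ ^ 2 ≤ (2⁻¹ : ℝ≥0∞) ^ l := by
        intro l
        have := schro_sub t (integrable_tr (m l) (Lp.memLp (𝓕 f : Lp ℂ 2 (volume : Measure V))))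
          (memLp_tr (m l) (Lp.memLp (𝓕 f : Lp ℂ 2 (volume : Measure V)))) f
        unfold us
        rw [this]
        exact mm_spec f l (m l) (hm l)
      refine ((ENNReal.tsum_le_tsum h2).trans_lt ?_).ne
      rw [ENNReal.tsum_geometric]
      norm_num
    · intro l
      have h3 : AEStronglyMeasurable (fun x => us (m l) f (t, x)) :=
        ((continuous_us (m l) f).comp (Continuous.prodMk_right t)).aestronglyMeasurable
      exact (h3.sub (Lp.aestronglyMeasurable _)).enorm.pow_const 2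
  have h4 := ae_lt_top' (by
    apply AEMeasurable.ennreal_tsum
    intro l
    have h3 : AEStronglyMeasurable (fun x => us (m l) f (t, x)) :=
      ((continuous_us (m l) f).comp (Continuous.prodMk_right t)).aestronglyMeasurable
    exact (h3.sub (Lp.aestronglyMeasurable _)).enorm.pow_const 2) h1
  filter_upwards [h4] with x hx
  have h5 := ENNReal.tendsto_atTop_zero_of_tsum_ne_top hx.ne
  rw [tendsto_iff_edist_tendsto_0]
  have h6 : ∀ l, edist (us (m l) f (t, x)) (schro t f x)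
      = (‖us (m l) f (t, x) - schro t f x‖ₑ ^ 2) ^ (1/2:ℝ) := by
    intro l
    rw [edist_eq_enorm_sub, ← ENNReal.rpow_natCast, ← ENNReal.rpow_mul]
    norm_num
  simp_rw [h6]
  have h7 := (ENNReal.continuous_rpow_const (y := (1/2:ℝ))).tendsto 0
  rw [ENNReal.zero_rpow_of_pos (by norm_num)] at h7
  exact h7.comp h5

/-- A jointly measurable version of `|e^{itΔ} f|²`. -/
noncomputable def dens (f : Lp ℂ 2 (volume : Measure V)) (z : ℝ × V) : ℝ≥0∞ :=
  limsup (fun l => ‖us (mm f l) f z‖ₑ ^ 2) atTop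

lemma measurable_dens (f : Lp ℂ 2 (volume : Measure V)) : Measurable (dens f) := by
  unfold dens
  apply Measurable.limsup
  intro l
  exact ((continuous_us (mm f l) f).measurable.enorm.pow_const 2)

lemma dens_ae (f : Lp ℂ 2 (volume : Measure V)) (t : ℝ) :
    ∀ᵐ x : V, dens f (t, x) = ‖schro t f x‖ₑ ^ 2 := by
  filter_upwards [us_ae_tendsto f (mm f) (fun _ => le_rfl) t] with x hx
  unfold dens
  exact (((ENNReal.continuous_pow 2).tendsto _).comp hx.enorm).limsup_eq

/-! ### orthonormal systems -/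

lemma nice_tr {ι : Type*} [Fintype ι] {f : ι → Lp ℂ 2 (volume : Measure V)} (hf : Orthonormal ℂ f)
    (m : ℕ) : Nice (fun j => tr m (𝓕 (f j) : Lp ℂ 2 (volume : Measure V))) where
  int := fun j => integrable_tr m (Lp.memLp _)
  l2 := fun j => memLp_tr m (Lp.memLp _)
  so := by
    intro c
    have h1 : ∀ ξ, ‖∑ j, c j * tr m (𝓕 (f j) : Lp ℂ 2 (volume : Measure V)) ξ‖ₑ ^ 2
        ≤ ‖∑ j, c j * (𝓕 (f j) : Lp ℂ 2 (volume : Measure V)) ξ‖ₑ ^ 2 := by
      intro ξ
      unfold tr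
      by_cases h : ξ ∈ Metric.closedBall (0:V) m
      · simp [Set.indicator_of_mem h]
      · simp [Set.indicator_of_notMem h]
    refine (lintegral_mono h1).trans (le_of_eq ?_)
    set G : Lp ℂ 2 (volume : Measure V) := ∑ j, c j • (𝓕 (f j) : Lp ℂ 2 (volume : Measure V)) with hG
    have h2 : ∀ᵐ ξ, G ξ = ∑ j, c j * (𝓕 (f j) : Lp ℂ 2 (volume : Measure V)) ξ := by
      have a1 : (G : V → ℂ) =ᵐ[volume] ∑ j, ((c j • (𝓕 (f j) : Lp ℂ 2 (volume : Measure V)) :
          Lp ℂ 2 (volume : Measure V)) : V → ℂ) := Lp.coeFn_finsetSum _ _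
      have a2 : ∀ᵐ ξ, ∀ j, ((c j • (𝓕 (f j) : Lp ℂ 2 (volume : Measure V)) :
          Lp ℂ 2 (volume : Measure V)) : V → ℂ) ξ = c j * (𝓕 (f j) : Lp ℂ 2 (volume : Measure V)) ξ := by
        rw [ae_all_iff]
        intro j
        filter_upwards [Lp.coeFn_smul (c j) (𝓕 (f j) : Lp ℂ 2 (volume : Measure V))] with ξ h
        rw [h]; rfl
      filter_upwards [a1, a2] with ξ h3 h4
      rw [h3, Finset.sum_apply]
      exact Finset.sum_congr rfl fun j _ => h4 j
    have h3 : ∫⁻ ξ, ‖∑ j, c j * (𝓕 (f j) : Lp ℂ 2 (volume : Measure V)) ξ‖ₑ ^ 2 = ‖G‖ₑ ^ 2 := by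
      rw [← lint_eq_norm]
      refine lintegral_congr_ae ?_
      filter_upwards [h2] with ξ h
      rw [h]
    rw [h3]
    have h4 : Orthonormal ℂ (fun j => (𝓕 (f j) : Lp ℂ 2 (volume : Measure V))) := by
      exact hf.comp_linearIsometryEquiv (Lp.fourierTransformₗᵢ V ℂ)
    have h5 : ‖G‖ ^ 2 = ∑ j, ‖c j‖ ^ 2 := by
      have := h4.inner_sum c c Finset.univ
      rw [← hG, inner_self_eq_norm_sq_to_K] at this
      have h6 : ((‖G‖ ^ 2 : ℝ) : ℂ) = ((∑ j, ‖c j‖ ^ 2 : ℝ) : ℂ) := by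
        push_cast
        refine this.trans ?_
        refine Finset.sum_congr rfl fun j _ => ?_
        rw [mul_comm, Complex.mul_conj, Complex.normSq_eq_norm_sq]
        push_cast
        rfl
      exact_mod_cast h6
    rw [← ofReal_norm, ← ENNReal.ofReal_pow (norm_nonneg _), h5,
      ENNReal.ofReal_sum_of_nonneg (fun j _ => by positivity)]
    refine Finset.sum_congr rfl fun j _ => ?_
    rw [ENNReal.ofReal_pow (norm_nonneg _), ofReal_norm]

end Pool.Agent.U517.OS
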